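import Mathlib

/-! Rank counting lemmas for finite sets of naturals ordered by an injective function. -/

namespace Pool.Agent.P.MP_5402c6_co

open Finset

section rank
variable {β : Type} [LinearOrder β]

/-- number of elements of `s` with strictly smaller `f`-value -/
def rk (s : Finset ℕ) (f : ℕ → β) (y : ℕ) : ℕ := (s.filter (fun v => f v < f y)).card

lemma rk_lt_rk (s : Finset ℕ) (f : ℕ → β) {x y : ℕ} (hx : x ∈ s) (h : f x < f y) :
    rk s f x < rk s f y := by
  unfold rk
  apply Finset.card_lt_card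
  refine ⟨fun v hv => ?_, fun hs => ?_⟩
  · simp only [mem_filter] at hv ⊢
    exact ⟨hv.1, hv.2.trans h⟩
  · have : x ∈ s.filter (fun v => f v < f x) := hs (by simp [hx, h])
    simp at this

lemma rk_lt_card (s : Finset ℕ) (f : ℕ → β) {x : ℕ} (hx : x ∈ s) : rk s f x < s.card := by
  unfold rk
  apply Finset.card_lt_card
  refine ⟨filter_subset _ _, fun hs => ?_⟩
  have := hs hx
  simp at this

lemma rk_injOn (s : Finset ℕ) (f : ℕ → β) (hf : Set.InjOn f s) : Set.InjOn (rk s f) s := by
  intro x hx y hy h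
  rcases lt_trichotomy (f x) (f y) with h1 | h1 | h1
  · exact absurd h (rk_lt_rk s f hx h1).ne
  · exact hf hx hy h1
  · exact absurd h.symm (rk_lt_rk s f hy h1).ne

lemma rk_image (s : Finset ℕ) (f : ℕ → β) (hf : Set.InjOn f s) :
    s.image (rk s f) = range s.card := by
  apply Finset.eq_of_subset_of_card_le
  · intro i hi
    obtain ⟨x, hx, rfl⟩ := mem_image.1 hi
    exact mem_range.2 (rk_lt_card s f hx)
  · rw [card_image_of_injOn (rk_injOn s f hf), card_range]

lemma exists_rk (s : Finset ℕ) (f : ℕ → β) (hf : Set.InjOn f s) {i : ℕ} (hi : i < s.card) :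
    ∃ x ∈ s, rk s f x = i := by
  have : i ∈ s.image (rk s f) := by rw [rk_image s f hf]; exact mem_range.2 hi
  simpa using this

lemma card_rk_filter (s : Finset ℕ) (f : ℕ → β) (hf : Set.InjOn f s) (P : ℕ → Prop)
    [DecidablePred P] :
    (s.filter (fun y => P (rk s f y))).card = ((range s.card).filter P).card := by
  rw [← rk_image s f hf, filter_image, card_image_of_injOn]
  exact (rk_injOn s f hf).mono (by intro x hx; simp at hx; exact hx.1)

lemma card_rk_lt (s : Finset ℕ) (f : ℕ → β) (hf : Set.InjOn f s) (m : ℕ) :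
    (s.filter (fun y => rk s f y < m)).card = min m s.card := by
  rw [card_rk_filter s f hf (fun i => i < m)]
  have : (range s.card).filter (fun i => i < m) = range (min m s.card) := by
    ext i; simp; omega
  rw [this, card_range]

lemma sum_rk (s : Finset ℕ) (f : ℕ → β) (hf : Set.InjOn f s) :
    2 * ∑ y ∈ s, (rk s f y : ℤ) = (s.card : ℤ) * (s.card - 1) := by
  have h1 : ∑ y ∈ s, (rk s f y : ℤ) = ∑ i ∈ range s.card, (i : ℤ) := by
    rw [← rk_image s f hf, sum_image (rk_injOn s f hf)]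
  rw [h1]
  induction s.card with
  | zero => simp
  | succ m ih => rw [sum_range_succ]; push_cast; linarith

/-- a subset consisting of the `m` elements of smallest value -/
lemma exists_low (s : Finset ℕ) (f : ℕ → β) (hf : Set.InjOn f s) {m : ℕ} (hm : m ≤ s.card) :
    ∃ T ⊆ s, T.card = m ∧ ∀ x ∈ T, ∀ y ∈ s, y ∉ T → f x < f y := by
  refine ⟨s.filter (fun y => rk s f y < m), filter_subset _ _, ?_, ?_⟩
  · rw [card_rk_lt s f hf]; omega
  · intro x hx y hy hyT
    simp only [mem_filter, not_and, not_lt] at hx hyT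
    have := hyT hy
    rcases lt_trichotomy (f x) (f y) with h1 | h1 | h1
    · exact h1
    · have := hf hx.1 hy h1; subst this; omega
    · have := rk_lt_rk s f hy h1; omega

lemma exists_top (s : Finset ℕ) (f : ℕ → β) (hf : Set.InjOn f s) {m : ℕ} (hm : m ≤ s.card) :
    ∃ T ⊆ s, T.card = m ∧ ∀ x ∈ T, ∀ y ∈ s, y ∉ T → f y < f x :=
  exists_low (β := βᵒᵈ) s (fun v => OrderDual.toDual (f v)) hf hm

lemma sum_above (s : Finset ℕ) (f : ℕ → β) (hf : Set.InjOn f s) :
    2 * ∑ y ∈ s, ((s.filter (fun v => f y < f v)).card : ℤ) = (s.card : ℤ) * (s.card - 1) :=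
  sum_rk (β := βᵒᵈ) s (fun v => OrderDual.toDual (f v)) hf

lemma sum_below (s : Finset ℕ) (f : ℕ → β) (hf : Set.InjOn f s) :
    2 * ∑ y ∈ s, ((s.filter (fun v => f v < f y)).card : ℤ) = (s.card : ℤ) * (s.card - 1) :=
  sum_rk s f hf

end rank

/-- distinct integers bounded above by `m` -/
lemma sum_le_of_inj (s : Finset ℕ) (g : ℕ → ℤ) (hg : Set.InjOn g s) (m : ℤ)
    (hm : ∀ v ∈ s, g v ≤ m) :
    2 * ∑ v ∈ s, g v ≤ 2 * (s.card : ℤ) * m - (s.card : ℤ) * (s.card - 1) := by
  have h1 : ∀ v ∈ s, g v ≤ m - ((s.filter (fun u => g v < g u)).card : ℤ) := by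
    intro v hv
    have : (s.filter (fun u => g v < g u)).card ≤ (Finset.Ioc (g v) m).card := by
      apply card_le_card_of_injOn g
      · intro u hu
        simp only [coe_filter, Set.mem_setOf_eq] at hu
        simp [hu.2, hm u hu.1]
      · exact hg.mono (by intro x hx; simp at hx; exact hx.1)
    have h2 := hm v hv
    rw [Int.card_Ioc] at this
    omega
  have h2 := sum_le_sum h1
  rw [sum_sub_distrib, sum_const] at h2
  have h3 := sum_above s g hg
  simp only [nsmul_eq_mul] at h2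
  linarith

/-- distinct integers bounded below by `m` -/
lemma le_sum_of_inj (s : Finset ℕ) (g : ℕ → ℤ) (hg : Set.InjOn g s) (m : ℤ)
    (hm : ∀ v ∈ s, m ≤ g v) :
    2 * (s.card : ℤ) * m + (s.card : ℤ) * (s.card - 1) ≤ 2 * ∑ v ∈ s, g v := by
  have := sum_le_of_inj s (fun v => - g v) (fun x hx y hy h => hg hx hy (by simpa using h)) (-m)
    (fun v hv => by have := hm v hv; simp; omega)
  rw [sum_neg_distrib] at this
  linarith

/-- double counting -/
lemma sum_card_swap (s t : Finset ℕ) (r : ℕ → ℕ → Prop) [∀ a b, Decidable (r a b)] :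
    ∑ a ∈ s, ((t.filter (fun b => r a b)).card : ℤ) =
      ∑ b ∈ t, ((s.filter (fun a => r a b)).card : ℤ) := by
  simp only [card_filter]
  push_cast
  exact sum_comm

lemma card_le2 {s a b : Finset ℕ} (h : ∀ x ∈ s, x ∈ a ∨ x ∈ b) : s.card ≤ a.card + b.card :=
  (card_le_card (fun x hx => mem_union.2 (h x hx))).trans (card_union_le a b)

lemma card_le3 {s a b c : Finset ℕ} (h : ∀ x ∈ s, x ∈ a ∨ x ∈ b ∨ x ∈ c) :
    s.card ≤ a.card + b.card + c.card := by
  have h1 : s.card ≤ a.card + (b ∪ c).card := card_le2 (fun x hx => by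
    rcases h x hx with h | h | h <;> simp [h])
  have := card_union_le b c
  omega

lemma card_le4 {s a b c d : Finset ℕ} (h : ∀ x ∈ s, x ∈ a ∨ x ∈ b ∨ x ∈ c ∨ x ∈ d) :
    s.card ≤ a.card + b.card + c.card + d.card := by
  have h1 : s.card ≤ a.card + b.card + (c ∪ d).card := card_le3 (fun x hx => by
    rcases h x hx with h | h | h | h <;> simp [h])
  have := card_union_le c d
  omega

lemma le_card2 {s a b : Finset ℕ} (ha : ∀ x ∈ a, x ∈ s) (hb : ∀ x ∈ b, x ∈ s)
    (hab : ∀ x ∈ a, x ∉ b) : a.card + b.card ≤ s.card := by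
  rw [← card_union_of_disjoint (disjoint_left.2 hab)]
  exact card_le_card (fun x hx => by
    rcases mem_union.1 hx with h | h
    · exact ha x h
    · exact hb x h)

lemma le_card3 {s a b c : Finset ℕ} (ha : ∀ x ∈ a, x ∈ s) (hb : ∀ x ∈ b, x ∈ s)
    (hc : ∀ x ∈ c, x ∈ s) (hab : ∀ x ∈ a, x ∉ b) (hac : ∀ x ∈ a, x ∉ c) (hbc : ∀ x ∈ b, x ∉ c) :
    a.card + b.card + c.card ≤ s.card := by
  have h1 : (a ∪ b).card + c.card ≤ s.card := le_card2 (fun x hx => by
    rcases mem_union.1 hx with h | h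
    · exact ha x h
    · exact hb x h) hc (fun x hx => by
    rcases mem_union.1 hx with h | h
    · exact hac x h
    · exact hbc x h)
  rw [card_union_of_disjoint (disjoint_left.2 hab)] at h1
  exact h1

/-- two-set versus two-set comparison -/
lemma card22 {a b s u : Finset ℕ} (hab : ∀ x ∈ a, x ∉ b) (ha : ∀ x ∈ a, x ∈ s ∨ x ∈ u)
    (hb : ∀ x ∈ b, x ∈ s ∨ x ∈ u) : a.card + b.card ≤ s.card + u.card := by
  have h1 : a.card + b.card ≤ (s ∪ u).card :=
    le_card2 (fun x hx => mem_union.2 (ha x hx)) (fun x hx => mem_union.2 (hb x hx)) hab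
  exact h1.trans (card_union_le s u)

end Pool.Agent.P.MP_5402c6_co
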