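import Pool.Agent.P.MP_5402c6_co.Reg1

/-! Many short arcs near the centre: counting non-edges by elimination. -/

namespace Pool.Agent.P.MP_5402c6_co

open Finset

namespace Cfg
variable (c : Cfg)

noncomputable def ii (v : ℕ) : ℕ := (c.J v).card
noncomputable def FF : Finset ℕ := (c.J c.n).filter (fun v => c.ii v < c.K)
noncomputable def GG : Finset ℕ := (c.J c.n).filter (fun v => c.K ≤ c.ii v)
def adjS (x y : ℕ) : Prop := (x < y ∧ c.adj x y) ∨ (y < x ∧ c.adj y x)
noncomputable instance (u x : ℕ) : Decidable (c.adjS u x) := Classical.dec _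
noncomputable def NE (x : ℕ) : ℕ :=
  ((range c.n).filter (fun y => c.key x < c.key y ∧ ¬ c.adjS x y)).card
def db (u x : ℕ) : Prop := c.t u < c.t x ∧ c.org (c.t u) x u
noncomputable instance (u x : ℕ) : Decidable (c.db u x) := Classical.dec _
noncomputable def hin (x : ℕ) : ℕ := ((c.S c.n).filter (fun y => y < x ∧ c.t x < c.t y)).card
noncomputable def ph (x : ℕ) : ℕ := (c.FF.filter (fun f => f ∈ c.Wo x)).card
def clsP (x : ℕ) : Prop := c.hin x + c.GG.card ≤ c.K + c.ph x
noncomputable instance (x : ℕ) : Decidable (c.clsP x) := Classical.dec _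
noncomputable def Psi (x : ℕ) : Finset ℕ :=
  c.FF.filter (fun f => f ∈ c.Wo x ∨ (f < x ∧ c.inn x < c.K))
def mat (u x : ℕ) : Prop := ∃ f ∈ c.Psi x, c.ii u = c.ii f + c.K
noncomputable instance (u x : ℕ) : Decidable (c.mat u x) := Classical.dec _
def cr (u x : ℕ) : Prop :=
  (c.clsP x ∧ c.t u < c.t x ∧ ¬ c.db u x) ∨ (¬ c.clsP x ∧ c.mat u x ∧ ¬ c.db u x)
noncomputable instance (u x : ℕ) : Decidable (c.cr u x) := Classical.dec _
def df (u x : ℕ) : Prop := ¬ c.clsP x ∧ ¬ c.mat u x ∧ c.db u x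
noncomputable instance (u x : ℕ) : Decidable (c.df u x) := Classical.dec _
noncomputable def Fw (x : ℕ) : Finset ℕ := (c.S c.n).filter (fun y => c.t x < c.t y) ∪ c.GG

lemma mem_FF {v : ℕ} : v ∈ c.FF ↔ v < c.n ∧ c.lg v ∧ c.ii v < c.K := by
  simp [FF, mem_J, and_assoc]
lemma mem_GG {v : ℕ} : v ∈ c.GG ↔ v < c.n ∧ c.lg v ∧ c.K ≤ c.ii v := by
  simp [GG, mem_J, and_assoc]

lemma ii_mono {u v : ℕ} (h : u ≤ v) : c.ii u ≤ c.ii v := by
  unfold ii; apply card_le_card; intro y; simp only [mem_J]; rintro ⟨a, b⟩; exact ⟨by omega, b⟩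

lemma ii_lt {u v : ℕ} (hu : c.lg u) (h : u < v) : c.ii u < c.ii v := by
  have : (insert u (c.J u)).card ≤ c.ii v := by
    unfold ii; apply card_le_card; intro y; simp only [mem_insert, mem_J]
    rintro (e | ⟨a, b⟩)
    · subst e; exact ⟨h, hu⟩
    · exact ⟨by omega, b⟩
  rw [card_insert_of_notMem (by simp [mem_J])] at this
  exact this

lemma ii_inj {u v : ℕ} (hu : c.lg u) (hv : c.lg v) (h : c.ii u = c.ii v) : u = v := by
  rcases lt_trichotomy u v with e | e | e
  · have := c.ii_lt hu e; omega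
  · exact e
  · have := c.ii_lt hv e; omega

lemma exists_ii {u m : ℕ} (h : m < c.ii u) : ∃ f, f < u ∧ c.lg f ∧ c.ii f = m := by
  obtain ⟨f, hf, e⟩ := exists_rk (c.J u) (fun v => v) (fun _ _ _ _ h => h) h
  have h1 := c.mem_J.1 hf
  refine ⟨f, h1.1, h1.2, ?_⟩
  rw [← e]; unfold ii rk; congr 1; ext y; simp only [mem_filter, mem_J]
  constructor
  · rintro ⟨a, b⟩; exact ⟨⟨by omega, b⟩, a⟩
  · rintro ⟨a, b⟩; exact ⟨b, a.2⟩

lemma card_FF : c.FF.card ≤ c.K := by
  have : c.FF.card ≤ (range c.K).card := by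
    apply card_le_card_of_injOn c.ii
    · intro f hf; have := c.mem_FF.1 hf; simp only [coe_range, Set.mem_Iio]; tauto
    · intro u hu v hv h; exact c.ii_inj (c.mem_FF.1 hu).2.1 (c.mem_FF.1 hv).2.1 h
  simpa using this

lemma ii_le_btw {w u : ℕ} (hw : ¬ c.lg w) : c.ii u ≤ c.btw w u + c.ii w := by
  unfold ii btw
  apply card_le2; intro y; simp only [mem_J, mem_filter, mem_Ioo]
  rintro ⟨a, b⟩
  have : y ≠ w := by rintro rfl; exact hw b
  by_cases e : y < w
  · right; exact ⟨e, b⟩
  · left; exact ⟨⟨by omega, a⟩, c.h1 w y hw b⟩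

lemma E_NE : 2 * ((c.E : ℤ) + ∑ x ∈ range c.n, (c.NE x : ℤ)) = (c.n : ℤ) * (c.n - 1) := by
  have h0 := sum_above (range c.n) c.key c.kinj.injOn
  rw [card_range] at h0
  have h1 : (c.E : ℤ) = ∑ x ∈ range c.n, ∑ y ∈ range c.n,
      (if x < y ∧ c.adj x y then (1 : ℤ) else 0) := by
    unfold E
    rw [card_filter, sum_product]; push_cast; rfl
  have h2 : ∑ x ∈ range c.n, ∑ y ∈ range c.n, (if x < y ∧ c.adj x y then (1 : ℤ) else 0) =
      ∑ x ∈ range c.n, ∑ y ∈ range c.n,
        (if c.key x < c.key y ∧ x < y ∧ c.adj x y then (1 : ℤ) else 0) +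
      ∑ x ∈ range c.n, ∑ y ∈ range c.n,
        (if c.key y < c.key x ∧ x < y ∧ c.adj x y then (1 : ℤ) else 0) := by
    rw [← sum_add_distrib]
    refine sum_congr rfl (fun x _ => ?_)
    rw [← sum_add_distrib]
    refine sum_congr rfl (fun y _ => ?_)
    by_cases hxy : x < y
    · rcases lt_or_gt_of_ne (c.key_ne hxy.ne) with h | h
      · simp [h, h.not_gt]
      · simp [h, h.not_gt]
    · simp [hxy]
  have h3 : ∑ x ∈ range c.n, ∑ y ∈ range c.n,
      (if c.key y < c.key x ∧ x < y ∧ c.adj x y then (1 : ℤ) else 0) =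
      ∑ x ∈ range c.n, ∑ y ∈ range c.n,
      (if c.key x < c.key y ∧ y < x ∧ c.adj y x then (1 : ℤ) else 0) := sum_comm
  rw [← h0, h1, h2, h3, ← sum_add_distrib, ← sum_add_distrib]
  congr 1
  refine sum_congr rfl (fun x _ => ?_)
  unfold NE
  rw [card_filter, card_filter]
  push_cast
  rw [← sum_add_distrib, ← sum_add_distrib]
  refine sum_congr rfl (fun y _ => ?_)
  unfold adjS
  by_cases h : c.key x < c.key y
  · rcases lt_trichotomy x y with e | e | e
    · by_cases a : c.adj x y <;> simp [h, e, e.not_gt, a]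
    · subst e; simp at h
    · by_cases a : c.adj y x <;> simp [h, e, e.not_gt, a]
  · simp [h]

lemma seen_le (u : ℕ) : ((c.S c.n).filter (fun x => c.db u x)).card + c.U0 ≤ c.K := by
  have h0 := c.card_SJ c.K
  rcases ((c.S c.n).filter (fun x => c.db u x)).eq_empty_or_nonempty with h | h
  · rw [h]; have := c.U0_le; simpa
  have hw := max'_mem _ h
  set w := ((c.S c.n).filter (fun x => c.db u x)).max' h with hwdef
  have hle : ∀ x ∈ (c.S c.n).filter (fun x => c.db u x), x ≤ w := fun x hx => le_max' _ x hx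
  by_cases e : w < c.K
  · have : ((c.S c.n).filter (fun x => c.db u x)).card ≤ (c.S c.K).card := by
      apply card_le_card; intro x hx
      have := hle x hx
      exact c.mem_S.2 ⟨by omega, (c.mem_S.1 (mem_filter.1 hx).1).2⟩
    unfold U0; omega
  · have h1 : (((c.S c.n).filter (fun x => c.db u x)).erase w).card + c.U0 ≤ c.cA (c.t u) w := by
      unfold U0 cA
      apply le_card2
      · intro x hx
        have h2 := mem_erase.1 hx
        have := hle x h2.2
        simp only [mem_filter, mem_range]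
        exact ⟨by omega, Or.inr (mem_filter.1 h2.2).2.1⟩
      · intro x hx
        have := c.mem_J.1 hx
        simp only [mem_filter, mem_range]
        exact ⟨by omega, Or.inl this.2⟩
      · intro x hx hx2
        exact (c.mem_S.1 (mem_filter.1 (mem_erase.1 hx).2).1).2 (c.mem_J.1 hx2).2
    rw [card_erase_of_mem hw] at h1
    have h2 := (mem_filter.1 hw).2.2
    unfold org at h2
    have := card_pos.2 h
    omega

lemma db_inn {u x : ℕ} (hx : ¬ c.lg x) (h : c.db u x) : c.inn x < c.K := by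
  have h1 : c.inn x ≤ c.cA (c.t u) x := by
    unfold inn cA; apply card_le_card; intro y; simp only [mem_filter, c.key_s_iff hx]
    have := h.1
    rintro ⟨a, b | b⟩
    · exact ⟨a, Or.inl b⟩
    · exact ⟨a, Or.inr (by omega)⟩
  have := h.2; unfold org at this; omega

section
variable (hS : ∀ x ∈ c.S c.n, c.ii x < c.K)
include hS

lemma S_lt_G {x u : ℕ} (hx : x ∈ c.S c.n) (hu : u ∈ c.GG) : x < u := by
  by_contra e
  have := c.ii_mono (not_lt.1 e); have := hS x hx; have := c.mem_GG.1 hu; omega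

lemma adj_cases {x y : ℕ} (hx : x ∈ c.S c.n) (hy : y ∈ c.Fw x) (h : c.adjS x y) :
    (y ∈ c.Wo x ∧ y ∉ c.FF) ∨ (y ∈ c.Wi x ∧ y ∈ c.S c.n) ∨
      (y ∈ c.GG ∧ (y ∈ c.nw x ∨ c.db y x)) := by
  have hx1 := c.mem_S.1 hx
  rcases mem_union.1 hy with h1 | h1
  · have h2 := mem_filter.1 h1
    have h3 := c.mem_S.1 h2.1
    have hk := c.key_lt_ss hx1.2 h3.2 h2.2
    rcases h with ⟨a, b | b⟩ | ⟨a, b | b⟩
    · left; exact ⟨c.mem_Wo.2 ⟨a, h3.1, hk, (c.same_iff_lt hk).1 b⟩,
        fun e => h3.2 (c.mem_FF.1 e).2.1⟩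
    · exact absurd b.1 h3.2
    · right; left
      refine ⟨?_, h2.1⟩
      simp only [Wi, mem_filter, mem_range]
      exact ⟨a, hk, (c.same_iff_gt hk).1 b⟩
    · exact absurd b.1 hx1.2
  · have h2 := c.mem_GG.1 h1
    have h3 := c.S_lt_G hS hx h1
    have hk := c.h1 x y hx1.2 h2.2.1
    by_cases hb : c.btw x y < c.K
    · left; exact ⟨c.mem_Wo.2 ⟨h3, h2.1, hk, hb⟩, fun e => by have := c.mem_FF.1 e; omega⟩
    right; right
    refine ⟨h1, ?_⟩
    rcases h with ⟨a, b | b⟩ | ⟨a, -⟩
    · exact absurd ((c.same_iff_lt hk).1 b) hb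
    · have b2 := b.2
      rw [if_neg hx1.2] at b2
      rcases lt_or_gt_of_ne (c.t_ne h3.ne) with e | e
      · left
        rw [min_eq_left e.le] at b2
        exact (c.mem_nw_s hx1.2).2 ⟨h2.1, h2.2.1, e, ⟨h3, hk, by omega⟩, b2⟩
      · right
        rw [min_eq_right e.le] at b2
        exact ⟨e, b2⟩
    · omega

lemma deg_le {x : ℕ} (hx : x ∈ c.S c.n) :
    ((c.Fw x).filter (fun y => c.adjS x y)).card + (c.GG.filter (fun u => c.cr u x)).card ≤
      2 * c.K + (c.GG.filter (fun u => c.df u x)).card := by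
  have hx1 := c.mem_S.1 hx
  have h1 : ((c.Wo x).filter (fun y => y ∉ c.FF)).card + c.ph x ≤ c.K := by
    have : ((c.Wo x).filter (fun y => y ∉ c.FF)).card + c.ph x ≤ (c.Wo x).card := by
      unfold ph
      apply le_card2
      · intro y hy; exact (mem_filter.1 hy).1
      · intro y hy; exact (mem_filter.1 hy).2
      · intro y; simp only [mem_filter]; tauto
    rw [c.card_Wo] at this; omega
  have h2 : ((c.Fw x).filter (fun y => c.adjS x y)).card ≤
      ((c.Wo x).filter (fun y => y ∉ c.FF)).card + ((c.Wi x).filter (fun y => y ∈ c.S c.n)).card +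
      (c.GG.filter (fun y => y ∈ c.nw x ∨ c.db y x)).card := by
    apply card_le3; intro y hy
    have := c.adj_cases hS hx (mem_filter.1 hy).1 (mem_filter.1 hy).2
    simp only [mem_filter]; exact this
  have h3 : ((c.Wi x).filter (fun y => y ∈ c.S c.n)).card ≤ c.hin x := by
    unfold hin; apply card_le_card; intro y
    simp only [Wi, mem_filter, mem_range]
    rintro ⟨⟨a, b, -⟩, e⟩
    exact ⟨e, a, c.t_lt_ss (c.mem_S.1 e).2 b⟩
  by_cases hP : c.clsP x
  · have h4 : (c.GG.filter (fun y => y ∈ c.nw x ∨ c.db y x)).card +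
        (c.GG.filter (fun u => c.cr u x)).card ≤ c.GG.card := by
      apply le_card2
      · intro y hy; exact (mem_filter.1 hy).1
      · intro y hy; exact (mem_filter.1 hy).1
      · intro y; simp only [mem_filter, cr]
        rintro ⟨-, a | a⟩ ⟨-, b | b⟩
        · have := (c.mem_nw_s hx1.2).1 a; omega
        · tauto
        · tauto
        · tauto
    unfold clsP at hP; omega
  · have h4 : (c.GG.filter (fun y => y ∈ c.nw x ∨ c.db y x)).card ≤
        (c.nw x).card + (c.GG.filter (fun y => c.db y x)).card := by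
      apply card_le2; intro y; simp only [mem_filter]; tauto
    have h5 : (c.GG.filter (fun y => c.db y x)).card + (c.GG.filter (fun u => c.cr u x)).card ≤
        (c.GG.filter (fun u => c.df u x)).card + (c.GG.filter (fun u => c.mat u x)).card := by
      apply card22
      · intro y; simp only [mem_filter, cr]; tauto
      · intro y; simp only [mem_filter, df]; tauto
      · intro y; simp only [mem_filter, cr]; tauto
    have h6 : (c.GG.filter (fun u => c.mat u x)).card ≤ (c.Psi x).card := by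
      apply card_le_card_of_forall_subsingleton (fun u f => c.ii u = c.ii f + c.K)
      · intro u hu
        obtain ⟨f, hf, e⟩ := (mem_filter.1 hu).2
        exact ⟨f, hf, e⟩
      · intro f _ u hu v hv
        have a1 := c.mem_GG.1 (mem_filter.1 hu.1).1
        have a2 := c.mem_GG.1 (mem_filter.1 hv.1).1
        have := hu.2; have := hv.2
        exact c.ii_inj a1.2.1 a2.2.1 (by omega)
    by_cases hi : c.inn x < c.K
    · have h7 : (c.Psi x).card ≤ c.ph x + c.ii x := by
        unfold Psi ph ii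
        apply card_le2; intro f; simp only [mem_filter, mem_J]
        rintro ⟨a, b | b⟩
        · exact Or.inl ⟨a, b⟩
        · exact Or.inr ⟨b.1, (c.mem_FF.1 a).2.1⟩
      have h8 : c.hin x + c.ii x ≤ c.inn x := by
        unfold hin ii inn
        apply le_card2
        · intro y; simp only [mem_filter, mem_range, c.key_s_iff hx1.2]; tauto
        · intro y; simp only [mem_filter, mem_range, mem_J, c.key_s_iff hx1.2]; tauto
        · intro y; simp only [mem_filter, mem_J, mem_S]; tauto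
      rcases (c.nw x).eq_empty_or_nonempty with h9 | h9
      · have := card_eq_zero.2 h9; omega
      · have := c.nw_slot x h9; omega
    · have h7 : (c.Psi x).card ≤ c.ph x := by
        unfold Psi ph
        apply card_le_card; intro f; simp only [mem_filter]; tauto
      have h8 : ((c.Wi x).filter (fun y => y ∈ c.S c.n)).card ≤ (c.Wi x).card :=
        card_filter_le _ _
      rw [c.card_Wi] at h8
      rcases (c.nw x).eq_empty_or_nonempty with h9 | h9
      · have := card_eq_zero.2 h9; omega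
      · have := c.nw_slot x h9; have := card_pos.2 h9; omega

omit hS in
lemma not_adj {w u : ℕ} (hw : ¬ c.lg w) (hu : c.lg u) (h : w < u) (hb : c.K ≤ c.btw w u)
    (ht : c.t u < c.t w) (hd : ¬ c.db u w) : ¬ c.adjS w u := by
  rintro (⟨-, a | a⟩ | ⟨a, -⟩)
  · have := (c.same_iff_lt (c.h1 w u hw hu)).1 a; omega
  · have b := a.2
    rw [if_neg hw, min_eq_right ht.le] at b
    exact hd ⟨ht, b⟩
  · omega

lemma per_u (X : Finset ℕ) (hX : X ⊆ c.S c.n)
    (hX2 : ∀ x ∈ X, ∀ y ∈ c.S c.n, y ∉ X → c.t x < c.t y)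
    (h1 : c.K ≤ (c.S c.n \ X).card + c.U0) (h2 : c.GG.card + (c.S c.n \ X).card ≤ 2 * c.K)
    {u : ℕ} (hu : u ∈ c.GG) :
    (X.filter (fun x => c.df u x)).card ≤ (X.filter (fun x => c.cr u x)).card +
      ((c.S c.n \ X).filter (fun w => ¬ c.adjS w u)).card := by
  have hu1 := c.mem_GG.1 hu
  rcases (X.filter (fun x => c.df u x)).eq_empty_or_nonempty with h0 | ⟨x0, hx0⟩
  · rw [h0]; simp
  have hx1 := mem_filter.1 hx0
  have fin : ∀ Gd : Finset ℕ, Gd ⊆ c.S c.n → c.K ≤ Gd.card + c.U0 →
      (∀ y ∈ Gd, ¬ c.db u y → (y ∈ X ∧ c.cr u y) ∨ (y ∉ X ∧ ¬ c.adjS y u)) →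
      (∀ x ∈ X, c.df u x → x ∉ Gd) →
      (X.filter (fun x => c.df u x)).card ≤ (X.filter (fun x => c.cr u x)).card +
      ((c.S c.n \ X).filter (fun w => ¬ c.adjS w u)).card := by
    intro Gd a1 a2 a3 a4
    have b1 := c.seen_le u
    have b2 : (X.filter (fun x => c.df u x)).card + (Gd.filter (fun y => c.db u y)).card ≤
        ((c.S c.n).filter (fun x => c.db u x)).card := by
      apply le_card2
      · intro x; simp only [mem_filter]; rintro ⟨a, b⟩; exact ⟨hX a, b.2.2⟩
      · intro x; simp only [mem_filter]; rintro ⟨a, b⟩; exact ⟨a1 a, b⟩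
      · intro x; simp only [mem_filter]; rintro ⟨a, b⟩ ⟨e, -⟩; exact a4 x a b e
    have b3 : Gd.card ≤ (Gd.filter (fun y => c.db u y)).card +
        (X.filter (fun x => c.cr u x)).card +
        ((c.S c.n \ X).filter (fun w => ¬ c.adjS w u)).card := by
      apply card_le3; intro y hy
      simp only [mem_filter, mem_sdiff]
      have := a1 hy
      have := a3 y hy
      tauto
    omega
  by_cases hq : 2 * c.K ≤ c.ii u
  · apply fin (c.S c.n \ X) sdiff_subset h1
    · intro y hy hd
      have h3 := mem_sdiff.1 hy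
      have h4 := c.mem_S.1 h3.1
      have h5 := c.ii_le_btw (u := u) h4.2
      have h6 := hS y h3.1
      have h7 := hX2 x0 hx1.1 y h3.1 h3.2
      have h8 := hx1.2.2.2.1
      exact Or.inr ⟨h3.2, c.not_adj h4.2 hu1.2.1 (c.S_lt_G hS h3.1 hu) (by omega) (by omega) hd⟩
    · intro x hx _ e; exact (mem_sdiff.1 e).2 hx
  obtain ⟨f, hf1, hf2, hf3⟩ := c.exists_ii (u := u) (m := c.ii u - c.K) (by omega)
  have hfF : f ∈ c.FF := c.mem_FF.2 ⟨by omega, hf2, by omega⟩
  have hfe : c.ii u = c.ii f + c.K := by omega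
  have hZ : ∀ x ∈ X, c.df u x → c.blocked x f := by
    intro x hx hd
    have h3 := c.mem_S.1 (hX hx)
    have h4 := c.db_inn h3.2 hd.2.2
    have h5 : f ∉ c.Psi x := fun e => hd.2.1 ⟨f, e, hfe⟩
    simp only [Psi, mem_filter, hfF, true_and, not_or, not_and, mem_Wo] at h5
    have h6 : x ≠ f := by rintro rfl; exact h3.2 hf2
    have h7 : x < f := by
      by_contra e; exact h5.2 (by omega) h4
    have hk := c.h1 x f h3.2 hf2
    exact ⟨h7, hk, not_lt.1 (h5.1 h7 (by omega) hk)⟩
  obtain ⟨xs, hxs, hmax⟩ := exists_max_image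
    (X.filter (fun x => ¬ c.clsP x ∧ c.t u < c.t x ∧ c.K ≤ c.btw x f)) c.t
    ⟨x0, mem_filter.2 ⟨hx1.1, hx1.2.1, hx1.2.2.2.1, (hZ x0 hx1.1 hx1.2).2.2⟩⟩
  have hs1 := mem_filter.1 hxs
  have hs2 := c.mem_S.1 (hX hs1.1)
  have hKpos : 0 < c.K := by have := hS xs (hX hs1.1); omega
  have hs3 : xs < f := by have := c.btw_le xs f; omega
  have hs4 : c.blocked xs f := ⟨hs3, c.h1 xs f hs2.2 hf2, hs1.2.2.2⟩
  apply fin ((c.S c.n).filter (fun y => c.t xs < c.t y ∧ y < f)) (filter_subset _ _)
  · have b1 := c.Wo_full (by omega : f < c.n) hs4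
    have b2 : (c.Wo xs).card ≤ c.ph xs + ((c.Wo xs).filter (fun y => y ∉ c.FF)).card := by
      unfold ph
      apply card_le2; intro y; simp only [mem_filter]; tauto
    have b3 : c.hin xs + ((c.Wo xs).filter (fun y => y ∉ c.FF)).card ≤
        ((c.S c.n).filter (fun y => c.t xs < c.t y ∧ y < f)).card := by
      unfold hin
      apply le_card2
      · intro y; simp only [mem_filter]; rintro ⟨a, b, e⟩; exact ⟨a, e, by omega⟩
      · intro y; simp only [mem_filter, mem_Wo, mem_FF, mem_S]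
        rintro ⟨⟨a, b, e, g⟩, h⟩
        have h3 : y < f := by
          by_contra e2
          have := c.btw_mono xs (not_lt.1 e2); omega
        have h4 : ¬ c.lg y := by
          intro e2
          have := c.ii_mono h3.le
          exact h ⟨b, e2, by omega⟩
        exact ⟨⟨b, h4⟩, c.t_lt_ss h4 e, h3⟩
      · intro y; simp only [mem_filter, mem_Wo]; omega
    have b4 := hs1.2.1
    unfold clsP at b4
    omega
  · intro y hy hd
    have h3 := mem_filter.1 hy
    have h4 := c.mem_S.1 h3.1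
    have h5 : c.t u < c.t y := by omega
    by_cases e : y ∈ X
    · left
      refine ⟨e, ?_⟩
      by_cases hP : c.clsP y
      · exact Or.inl ⟨hP, h5, hd⟩
      · right
        refine ⟨hP, ⟨f, ?_, hfe⟩, hd⟩
        simp only [Psi, mem_filter, hfF, true_and, mem_Wo]
        left
        refine ⟨h3.2.2, by omega, c.h1 y f h4.2 hf2, ?_⟩
        by_contra e2
        have := hmax y (mem_filter.2 ⟨e, hP, h5, not_lt.1 e2⟩); omega
    · right
      have h6 := c.ii_le_btw (u := u) h4.2
      have h7 := c.ii_mono h3.2.2.le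
      exact ⟨e, c.not_adj h4.2 hu1.2.1 (by omega) (by omega) h5 hd⟩
  · intro x hx hd e
    have := hmax x (mem_filter.2 ⟨hx, hd.1, hd.2.2.1, (hZ x hx hd).2.2⟩)
    have := (mem_filter.1 e).2.1; omega

theorem caseB_core (ν : ℕ) (hn : c.n = 3 * c.K + ν) (h : c.K + ν ≤ (c.S c.n).card + c.U0) :
    (ν : ℤ) * (ν - 1) ≤ 2 * ∑ x ∈ range c.n, (c.NE x : ℤ) := by
  have hU := c.U0_le
  obtain ⟨X, hX, hX1, hX2⟩ := exists_low (c.S c.n) c.t c.tinj.injOn (m := ν) (by omega)
  have c1 := card_sdiff_add_card_eq_card hX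
  have c2 : c.FF.card + c.GG.card = (c.J c.n).card := by
    unfold FF GG
    rw [← card_filter_add_card_filter_not (s := c.J c.n) (fun v => c.ii v < c.K)]
    congr 2
    apply filter_congr; intro v _; omega
  have c3 := c.card_SJ c.n
  have c4 := c.card_FF
  have hper : ∀ u ∈ c.GG, (X.filter (fun x => c.df u x)).card ≤
      (X.filter (fun x => c.cr u x)).card +
      ((c.S c.n \ X).filter (fun w => ¬ c.adjS w u)).card := by
    intro u hu
    have hu1 := c.mem_GG.1 hu
    have c5 : c.K ≤ c.FF.card := by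
      have : (range c.K).card ≤ c.FF.card := by
        apply card_le_card_of_forall_subsingleton (fun m f => c.ii f = m)
        · intro m hm
          obtain ⟨f, a, b, e⟩ := c.exists_ii (u := u) (m := m) (by have := mem_range.1 hm; omega)
          exact ⟨f, c.mem_FF.2 ⟨by omega, b, by have := mem_range.1 hm; omega⟩, e⟩
        · intro f _ a ha b hb; exact ha.2.symm.trans hb.2
      simpa using this
    exact c.per_u hS X hX hX2 (by omega) (by omega) hu
  have h1 := sum_le_sum (fun u hu => Int.ofNat_le.2 (hper u hu))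
  have h2 := sum_le_sum (s := X) (fun x hx => Int.ofNat_le.2 (c.deg_le hS (hX hx)))
  have h3 : ∑ x ∈ X, (((c.S c.n \ X).card : ℤ) + (X.filter (fun y => c.t x < c.t y)).card +
      c.GG.card) ≤ ∑ x ∈ X, ((((c.Fw x).filter (fun y => c.adjS x y)).card : ℤ) + c.NE x) := by
    refine sum_le_sum (fun x hx => ?_)
    have hx1 := c.mem_S.1 (hX hx)
    have a1 : (c.S c.n \ X).card + (X.filter (fun y => c.t x < c.t y)).card + c.GG.card ≤
        (c.Fw x).card := by
      unfold Fw
      apply le_card3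
      · intro y hy
        have := mem_sdiff.1 hy
        exact mem_union_left _ (mem_filter.2 ⟨this.1, hX2 x hx y this.1 this.2⟩)
      · intro y hy
        have := mem_filter.1 hy
        exact mem_union_left _ (mem_filter.2 ⟨hX this.1, this.2⟩)
      · intro y hy; exact mem_union_right _ hy
      · intro y; simp only [mem_filter, mem_sdiff]; tauto
      · intro y; simp only [mem_sdiff, mem_S, mem_GG]; tauto
      · intro y hy hy2
        exact (c.mem_S.1 (hX (mem_filter.1 hy).1)).2 (c.mem_GG.1 hy2).2.1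
    have a2 : (c.Fw x).card ≤ ((c.Fw x).filter (fun y => c.adjS x y)).card + c.NE x := by
      unfold NE
      apply card_le2; intro y hy
      simp only [mem_filter, mem_range]
      have : y < c.n ∧ c.key x < c.key y := by
        rcases mem_union.1 hy with e | e
        · have a := mem_filter.1 e
          have b := c.mem_S.1 a.1
          exact ⟨b.1, c.key_lt_ss hx1.2 b.2 a.2⟩
        · have a := c.mem_GG.1 e
          exact ⟨a.1, c.h1 x y hx1.2 a.2.1⟩
      tauto
    omega
  have h4 : ∑ w ∈ c.S c.n \ X, ((c.GG.filter (fun u => ¬ c.adjS w u)).card : ℤ) ≤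
      ∑ w ∈ c.S c.n \ X, (c.NE w : ℤ) := by
    refine sum_le_sum (fun w hw => Int.ofNat_le.2 ?_)
    unfold NE; apply card_le_card; intro u
    simp only [mem_filter, mem_range, mem_GG]
    rintro ⟨a, b⟩
    exact ⟨a.1, c.h1 w u (c.mem_S.1 (mem_sdiff.1 hw).1).2 a.2.1, b⟩
  have h5 : ∑ w ∈ c.S c.n \ X, (c.NE w : ℤ) + ∑ w ∈ X, (c.NE w : ℤ) ≤
      ∑ x ∈ range c.n, (c.NE x : ℤ) := by
    rw [sum_sdiff hX]
    apply sum_le_sum_of_subset_of_nonneg
    · intro y hy; exact mem_range.2 (c.mem_S.1 hy).1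
    · intro _ _ _; positivity
  have h6 := sum_card_swap c.GG X (fun u x => c.df u x)
  have h7 := sum_card_swap c.GG X (fun u x => c.cr u x)
  have h8 := sum_card_swap c.GG (c.S c.n \ X) (fun u w => ¬ c.adjS w u)
  have h9 := sum_above X c.t c.tinj.injOn
  push_cast at h1 h2
  simp only [sum_add_distrib, sum_const, nsmul_eq_mul] at h1 h2 h3
  rw [hX1] at h2 h3 h9
  have h10 : (ν : ℤ) * (2 * c.K) ≤ ν * ((c.S c.n \ X).card + c.GG.card) :=
    mul_le_mul_of_nonneg_left (by omega) (by positivity)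
  linarith

end

end Cfg

end Pool.Agent.P.MP_5402c6_co
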