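import Pool.Agent.P.MP_5402c6_co.Setup

/-! Layer lemma, decomposition and the terms attached to the top set. -/

namespace Pool.Agent.P.MP_5402c6_co

open Finset

lemma Cfg.L_up (c : Cfg) {π v y : ℕ} (hv : v ∈ c.L π) (h : v < y) (hy : y < c.n)
    (hk : c.key v < c.key y) : y ∈ c.L π := by
  refine c.mem_L.2 ⟨hy, ?_⟩
  rcases (c.mem_L.1 hv).2 with h1 | h1
  · left; omega
  · right; exact c.lg_of_lt h1 hk

lemma Cfg.mem_Wo (c : Cfg) {x y : ℕ} :
    y ∈ c.Wo x ↔ x < y ∧ y < c.n ∧ c.key x < c.key y ∧ c.btw x y < c.K := by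
  simp only [Cfg.Wo, mem_filter, mem_Ioo]; tauto

lemma Cfg.Wo_full (c : Cfg) {x y : ℕ} (hy : y < c.n) (h : c.blocked x y) :
    (c.Wo x).card = c.K := by
  rw [c.card_Wo]
  have : c.btw x y ≤ c.out x := by
    unfold Cfg.btw Cfg.out; apply card_le_card; intro v; simp only [mem_filter, mem_Ioo]; omega
  have := h.2.2; omega

lemma Cfg.not_blocked_Wo (c : Cfg) {x y : ℕ} (h : y ∈ c.Wo x) : ¬ c.blocked x y := by
  intro hb; have := c.mem_Wo.1 h; have := hb.2.2; omega

namespace Dat
variable (d : Dat)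

noncomputable def UT (v : ℕ) : ℕ := (d.T.filter (fun u => ¬ d.blocked v u)).card
noncomputable def lamR (v : ℕ) : ℕ := (d.T.filter (fun u => d.excl v u)).card
noncomputable def Nn (v : ℕ) : ℕ := (d.T.filter (fun u => ¬ d.excl v u ∧ ¬ d.blocked v u)).card
noncomputable def G (v : ℕ) : ℤ := if v ∈ d.T then 0 else d.A v - d.rho v

lemma Nn_ge (v : ℕ) : d.UT v ≤ d.Nn v + d.lamR v := by
  unfold UT Nn lamR
  apply card_le2; intro u; simp only [mem_filter]; tauto

variable {d}
namespace Good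
variable (g : d.Good)
include g

lemma PB_L {v : ℕ} (hv : v ∈ d.PB) : v ∈ d.LL ∧ d.U0 < d.pp v ∧ d.pp v ≤ d.K ∧ v ∈ d.Q := by
  simp only [mem_PB, mem_W, mem_Y, mem_Om, mem_Q] at hv ⊢
  rcases hv with h | h | h
  · have := d.mem_Loc.1 h.1; tauto
  · have := d.mem_NL.1 h.1; tauto
  · have h1 := g.hR h.1; have := d.mem_NL.1 h1; tauto

lemma T_L {u : ℕ} (hu : u ∈ d.T) : u ∈ d.LL ∧ d.U0 < d.pp u ∧ d.π ≤ u ∧ u ∉ d.Au :=
  g.pool_L (g.hT hu)

lemma layer_long {u : ℕ} (hl : d.lg u) :
    (d.nw u).card + ((d.PB ∪ d.J0).filter (fun v => ¬ d.excl v u ∧ ¬ d.blocked v u)).card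
      ≤ d.K := by
  set NE := (d.PB ∪ d.J0).filter (fun v => ¬ d.excl v u ∧ ¬ d.blocked v u) with hNE
  have hNEm : ∀ v ∈ NE, v ∈ d.LL ∧ ¬ d.excl v u ∧ ¬ d.blocked v u := by
    intro v hv
    simp only [hNE, mem_filter, mem_union] at hv
    rcases hv.1 with h | h
    · exact ⟨(g.PB_L h).1, hv.2⟩
    · exact ⟨(g.J0_L h).1, hv.2⟩
  rcases NE.eq_empty_or_nonempty with h0 | h0
  · rw [h0]; simpa using d.nw_le u
  set vs := NE.max' h0 with hvs
  have hv1 := hNEm vs (max'_mem _ h0)
  by_cases hc : ∀ w ∈ d.nw u, w ≤ vs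
  · have h1 : (d.nw u).card + NE.card ≤ (d.SS.filter (fun x => x < vs ∧ d.alive u x)).card +
        (d.LL.filter (fun x => x ≤ vs)).card := by
      apply card22
      · intro x hx hx2
        exact (hNEm x hx2).2.2 ((d.mem_nw_l hl).1 hx).2.2.1
      · intro x hx
        have h2 := (d.mem_nw_l hl).1 hx
        have h3 := hc x hx
        by_cases h4 : x ∈ d.LL
        · right; simp [h4, h3]
        · left
          have h5 : x ≠ vs := by rintro rfl; exact h4 hv1.1
          simp only [mem_LL, not_and, not_or, not_le] at h4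
          have h6 := h4 h2.1
          simp only [mem_filter, mem_SS, alive]
          refine ⟨h6, by omega, ?_⟩
          rcases h2.2.1 with h7 | h7
          · exact absurd h7 h6.2
          · exact Or.inr h7
      · intro x hx
        right; simp only [mem_filter]; exact ⟨(hNEm x hx).1, le_max' _ x hx⟩
    have h2 := hv1.2.1
    unfold excl at h2
    have h3 : (d.LL.filter (fun x => x ≤ vs)).card = d.pp vs := rfl
    omega
  · push Not at hc
    obtain ⟨w0, hw0, hw1⟩ := hc
    have hne : (d.nw u).Nonempty := ⟨w0, hw0⟩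
    have hw2 := le_max' _ w0 hw0
    have hws := (d.mem_nw_l hl).1 (max'_mem _ hne)
    apply d.slot_long hl (max'_mem _ hne) (fun y hy => le_max' _ y hy)
    intro e he
    have h1 := hNEm e he
    have h2 : e ≤ vs := le_max' _ e he
    refine ⟨fun h => h1.2.2 ((d.mem_nw_l hl).1 h).2.2.1, Or.inl ⟨by omega, ?_⟩⟩
    have h3 : e < (d.nw u).max' hne := by omega
    have h4 : ¬ d.key e < d.key ((d.nw u).max' hne) :=
      fun h => h1.2.2 (d.blocked_of_lower hws.2.2.1 h3 h)
    have h5 := d.key_ne h3.ne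
    have h6 : d.key ((d.nw u).max' hne) < d.key e := by omega
    by_cases h7 : d.lg e
    · exact Or.inl h7
    · right
      have h8 := d.sh_of_lt h7 h6
      have h9 := d.t_lt_ss h7 h6
      rcases hws.2.1 with h | h
      · exact absurd h h8
      · omega

lemma excl_virtual {u v : ℕ} (hu : ¬ d.lg u) (hv : v ∈ d.PB) : d.excl v u := by
  have h1 := g.PB_L hv
  have h2 := g.K_le h1.1 h1.2.1
  have h3 : d.Zs.card ≤ (d.SS.filter (fun x => x < v ∧ d.alive u x)).card := by
    apply card_le_card; intro x hx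
    have := d.mem_Zs.1 hx; have := g.hKπ
    simp only [mem_filter, mem_SS, alive]
    exact ⟨⟨by omega, by tauto⟩, by omega, Or.inl hu⟩
  have := g.cZ
  unfold excl; omega

lemma layer {u : ℕ} (hu : u ∈ d.T) :
    (d.K : ℤ) - ((d.T.filter (fun v => d.key u < d.key v)).card : ℤ) -
      (((d.LL \ d.T).filter (fun v => d.key u < d.key v)).card : ℤ) +
      (((d.PB ∪ d.J0).filter (fun v => ¬ d.excl v u ∧ ¬ d.blocked v u)).card : ℤ)
      ≤ d.A u + d.B u := by
  have hu1 := g.T_L hu
  have hA := d.A_ge u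
  by_cases hl : d.lg u
  · have h1 := g.layer_long hl
    have h2 := d.B_ge u
    have h3 : d.inn u + d.out u ≤ (d.T.filter (fun v => d.key u < d.key v)).card +
        ((d.LL \ d.T).filter (fun v => d.key u < d.key v)).card := by
      unfold Cfg.inn Cfg.out
      have hn := (d.mem_LL.1 hu1.1).1
      apply card22
      · intro x; simp only [mem_filter, mem_range, mem_Ioo]; omega
      · intro x hx
        simp only [mem_filter, mem_range, mem_sdiff] at hx ⊢
        have : x ∈ d.LL := d.mem_LL.2 ⟨by omega, Or.inr (d.lg_of_lt hl hx.2)⟩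
        tauto
      · intro x hx
        simp only [mem_filter, mem_Ioo, mem_sdiff] at hx ⊢
        have : x ∈ d.LL := d.mem_LL.2 ⟨by omega, Or.inr (d.lg_of_lt hl hx.2)⟩
        tauto
    omega
  · have h2 := d.B_nonneg u
    have h1 : ((d.PB ∪ d.J0).filter (fun v => ¬ d.excl v u ∧ ¬ d.blocked v u)).card
        ≤ d.J0.card := by
      apply card_le_card; intro v hv
      simp only [mem_filter, mem_union] at hv
      rcases hv.1 with h | h
      · exact absurd (g.excl_virtual hl h) hv.2.1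
      · exact h
    have h3 : d.J0.card + d.out u ≤ (d.T.filter (fun v => d.key u < d.key v)).card +
        ((d.LL \ d.T).filter (fun v => d.key u < d.key v)).card := by
      unfold Cfg.out
      have := g.hKπ
      apply card22
      · intro x; simp only [mem_filter, mem_J0, mem_Ioo]; omega
      · intro x hx
        have h4 := g.J0_L hx
        have h5 := d.h1 u x hl (d.mem_J0.1 hx).2
        simp only [mem_filter, mem_sdiff]
        tauto
      · intro x hx
        simp only [mem_filter, mem_Ioo, mem_sdiff] at hx ⊢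
        have : x ∈ d.LL := d.mem_LL.2 ⟨by omega, Or.inl (by omega)⟩
        tauto
    omega

lemma dec1 : 2 * (d.K : ℤ) * d.T.card - (d.T.card : ℤ) * (d.T.card - 1) +
    2 * ∑ v ∈ d.PB ∪ d.J0, (d.Nn v : ℤ) + 2 * ∑ v ∈ d.LL, d.G v +
    2 * ∑ v ∈ range d.n \ d.T, d.B v ≤ 2 * d.SAB := by
  have hTn : d.T ⊆ range d.n := fun u hu => mem_range.2 (d.mem_LL.1 (g.T_L hu).1).1
  have hTL : d.T ⊆ d.LL := fun u hu => (g.T_L hu).1
  have h1 : d.SAB = ∑ x ∈ range d.n \ d.T, (d.A x + d.B x) + ∑ x ∈ d.T, (d.A x + d.B x) := by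
    unfold Cfg.SAB; rw [sum_sdiff hTn]
  have h2 := sum_le_sum (fun u hu => g.layer (u := u) hu)
  rw [sum_add_distrib, sum_sub_distrib, sum_sub_distrib, sum_const] at h2
  have h3 := sum_above d.T d.key (d.kinj.injOn)
  have h4 := sum_card_swap d.T (d.LL \ d.T) (fun u v => d.key u < d.key v)
  have h5 := sum_card_swap d.T (d.PB ∪ d.J0) (fun u v => ¬ d.excl v u ∧ ¬ d.blocked v u)
  have h6 : ∑ v ∈ d.LL, d.G v = ∑ v ∈ d.LL \ d.T, (d.A v - d.rho v) := by
    rw [← sum_sdiff hTL]
    have e1 : ∑ v ∈ d.T, d.G v = 0 := sum_eq_zero (fun v hv => by simp [G, hv])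
    rw [e1, add_zero]
    refine sum_congr rfl (fun v hv => ?_)
    simp [G, (mem_sdiff.1 hv).2]
  have h7 : ∑ v ∈ d.LL \ d.T, d.A v ≤ ∑ v ∈ range d.n \ d.T, d.A v := by
    apply sum_le_sum_of_subset_of_nonneg
    · intro v; simp only [mem_sdiff, mem_range, mem_LL]; tauto
    · intro v _ _; exact d.A_nonneg v
  rw [sum_sub_distrib] at h6
  rw [sum_add_distrib] at h1
  simp only [nsmul_eq_mul] at h2
  unfold Nn
  unfold rho at h6
  linarith

lemma φ_zero_of_pool {v : ℕ} (hv : v ∈ d.P) (hp : v ∈ d.pool) : d.φ = 0 := by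
  have h1 := g.P_L hv
  rcases d.mem_pool.1 hp with h | h | h | h
  · have := d.mem_Bey.1 h; omega
  · tauto
  · tauto
  · rcases (d.mem_D.1 h.1).2 with h2 | ⟨q, hq, -⟩
    · tauto
    · rcases g.hr with h3 | h3
      · rw [h3] at hq; simp at hq
      · exact h3

lemma rho_pool {v : ℕ} (hv : v ∈ d.pool) (hT : v ∉ d.T) : d.rho v = 0 := by
  unfold rho
  rw [card_eq_zero, filter_eq_empty_iff]
  intro u hu
  have := g.hT2 u hu v hv hT; omega

omit g in
lemma UT_ge (v : ℕ) (X : Finset ℕ) (hX : ∀ u ∈ X, u ∈ d.T ∧ u ∈ d.Wo v) :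
    X.card + d.rho v ≤ d.UT v := by
  unfold rho UT
  apply le_card2
  · intro u hu; simp only [mem_filter]; exact ⟨(hX u hu).1, d.not_blocked_Wo (hX u hu).2⟩
  · intro u; simp only [mem_filter, Cfg.blocked]; rintro ⟨h1, h2⟩; exact ⟨h1, by omega⟩
  · intro u hu; have := d.mem_Wo.1 (hX u hu).2; simp only [mem_filter]; omega

lemma Bterm {v : ℕ} (hv : v ∈ d.W ∪ d.Y) :
    (d.K : ℤ) - d.bb - d.outC v ≤ d.UT v + d.G v := by
  have hvP : v ∈ d.P := by rw [mem_P]; rcases mem_union.1 hv with h | h <;> tauto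
  have hv1 := g.P_L hvP
  have hW : (d.Wo v).card ≤ d.outC v + ((d.Wo v).filter (fun y => y ∈ d.T ∧ y ∈ d.Bey)).card +
      ((d.Wo v).filter (fun y => y ∉ d.T ∧ y ∈ d.Bey)).card := by
    unfold outC
    apply card_le3; intro y hy
    have h1 := d.mem_Wo.1 hy
    have h2 : y ∈ d.LL := d.L_up hv1.1 h1.1 h1.2.1 h1.2.2.1
    simp only [mem_filter, mem_CC, mem_Bey]
    by_cases h3 : d.pp y ≤ d.K + d.U0
    · left; tauto
    · right; have : d.K + d.U0 < d.pp y := by omega
      tauto
  have hA := d.A_eq v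
  have hU := UT_ge v ((d.Wo v).filter (fun y => y ∈ d.T ∧ y ∈ d.Bey))
    (fun u hu => by simp only [mem_filter] at hu; tauto)
  by_cases hT : v ∈ d.T
  · have hφ := g.φ_zero_of_pool hvP (g.hT hT)
    simp only [G, hT, if_true]
    by_cases hb : ∃ u ∈ d.T, d.blocked v u
    · obtain ⟨u, hu, hb⟩ := hb
      have h1 := d.Wo_full (d.mem_LL.1 (g.T_L hu).1).1 hb
      have h2 : ((d.Wo v).filter (fun y => y ∉ d.T ∧ y ∈ d.Bey)).card = 0 := by
        rw [card_eq_zero, filter_eq_empty_iff]
        rintro y hy ⟨h3, h4⟩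
        have := g.hT2 v hT y (d.mem_pool.2 (Or.inl h4)) h3
        have := d.mem_Wo.1 hy; omega
      omega
    · have h1 : d.UT v = d.T.card := by
        unfold UT; congr 1; apply filter_true_of_mem; intro u hu h; exact hb ⟨u, hu, h⟩
      have := g.hT1; omega
  · simp only [G, hT, if_false]
    rcases ((d.Wo v).filter (fun y => y ∉ d.T ∧ y ∈ d.Bey)).eq_empty_or_nonempty with h0 | ⟨y, hy⟩
    · rw [h0] at hW; simp only [card_empty] at hW; omega
    · simp only [mem_filter] at hy
      have hy1 := d.mem_Wo.1 hy.1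
      have hr : d.rho v = 0 := by
        unfold rho
        rw [card_eq_zero, filter_eq_empty_iff]
        intro u hu
        have := g.hT2 u hu y (d.mem_pool.2 (Or.inl hy.2.2)) hy.2.1; omega
      have h1 : ((d.Wo v).filter (fun y => y ∉ d.T ∧ y ∈ d.Bey)).card + (d.T ∩ d.Bey).card ≤
          d.Bey.card := by
        apply le_card2
        · intro x; simp only [mem_filter]; tauto
        · intro x; simp only [mem_inter]; tauto
        · intro x; simp only [mem_filter, mem_inter]; tauto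
      have h2 : (d.T \ d.Bey).card + (d.T ∩ d.Bey).card = d.T.card := card_sdiff_add_card_inter _ _
      have h3 : ((d.Wo v).filter (fun y => y ∈ d.T ∧ y ∈ d.Bey)).card + (d.T \ d.Bey).card ≤
          d.UT v := by
        unfold UT
        apply le_card2
        · intro x; simp only [mem_filter]; rintro ⟨a, b, -⟩; exact ⟨b, d.not_blocked_Wo a⟩
        · intro x hx
          simp only [mem_sdiff, mem_Bey, not_and, not_lt] at hx
          have := (g.T_L hx.1).1
          simp only [mem_filter]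
          exact ⟨hx.1, g.not_blocked_mid hv1.1 hv1.2.1 this (hx.2 this)⟩
        · intro x; simp only [mem_filter, mem_sdiff]; tauto
      have := g.cBey; have := g.hT1
      omega

lemma Mterm {v : ℕ} (hv : v ∈ d.M) : (d.φ : ℤ) - d.outC v ≤ d.G v := by
  have hvP : v ∈ d.P := by rw [mem_P]; tauto
  have hv1 := g.P_L hvP
  by_cases hT : v ∈ d.T
  · have hφ := g.φ_zero_of_pool hvP (g.hT hT)
    simp only [G, hT, if_true]; omega
  simp only [G, hT, if_false]
  have hA := d.A_ge v
  have hA0 := d.A_nonneg v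
  have ho : ∀ y, v < y → y < d.n → d.key v < d.key y → (y ∈ d.CC ∨ y ∈ d.Bey) := by
    intro y h1 h2 h3
    have h4 : y ∈ d.LL := d.L_up hv1.1 h1 h2 h3
    simp only [mem_CC, mem_Bey, h4, true_and]; omega
  rcases Nat.eq_zero_or_pos (d.rho v) with hr | hr
  · rcases g.hbφ with h | h
    · have h1 : d.out v ≤ d.outC v + d.Bey.card := by
        unfold Cfg.out outC
        apply card_le2; intro y hy
        simp only [mem_filter, mem_Ioo] at hy ⊢
        have := ho y hy.1.1 hy.1.2 hy.2; tauto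
      have := g.cBey; omega
    · omega
  · obtain ⟨u, hu⟩ := card_pos.1 hr
    simp only [mem_filter] at hu
    have h1 : d.out v ≤ d.outC v + (d.T.filter (fun y => d.key v < d.key y)).card := by
      unfold Cfg.out outC
      apply card_le2; intro y hy
      simp only [mem_filter, mem_Ioo] at hy ⊢
      rcases ho y hy.1.1 hy.1.2 hy.2 with h | h
      · tauto
      · right
        refine ⟨?_, hy.2⟩
        by_contra h2
        have := g.hT2 u hu.1 y (d.mem_pool.2 (Or.inl h)) h2; omega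
    have h2 : (d.T.filter (fun y => d.key v < d.key y)).card + d.rho v ≤ d.T.card := by
      unfold rho
      apply le_card2
      · intro x; simp only [mem_filter]; tauto
      · intro x; simp only [mem_filter]; tauto
      · intro x; simp only [mem_filter]; omega
    have := g.hT1; omega

lemma Omterm {v : ℕ} (hv : v ∈ d.Om) : (d.D.card : ℤ) ≤ d.UT v + d.G v := by
  have h0 := d.mem_Om.1 hv
  have hAu := g.Jh_Au h0.2.1
  have hv1 := g.Au_L hAu
  have hT : v ∉ d.T := fun h => hv1.2.2.2.2 (g.hT h)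
  simp only [G, hT, if_false]
  obtain ⟨u, hu⟩ := card_pos.1 h0.2.2
  simp only [mem_filter] at hu
  have hW : (d.Wo v).card ≤ ((d.Wo v).filter (fun y => y ∈ d.T)).card + d.Au.card := by
    apply card_le2; intro y hy
    have h1 := d.mem_Wo.1 hy
    have h2 : y ∈ d.LL := d.L_up hv1.1 h1.1 h1.2.1 h1.2.2.1
    have h3 := d.pp_lt h2 h1.1
    rcases long_cases h2 (by omega) (d.lg_of_lt hv1.2.2.2.1 h1.2.2.1) with h | h
    · exact Or.inr h
    · left; simp only [mem_filter]; refine ⟨hy, ?_⟩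
      by_contra h4
      have := g.hT2 u hu.1 y h h4; omega
  have hA := d.A_eq v
  have hU := UT_ge v ((d.Wo v).filter (fun y => y ∈ d.T))
    (fun u hu => by simp only [mem_filter] at hu; tauto)
  have := g.cAuD
  omega

lemma rest_term {v : ℕ} (hv : v ∈ d.LL) (h1 : v ∉ d.P) (h2 : v ∉ d.Om) (h3 : v ∉ d.J0) :
    0 ≤ d.G v := by
  by_cases hT : v ∈ d.T
  · simp [G, hT]
  simp only [G, hT, if_false]
  have hA := d.A_nonneg v
  have h4 : d.rho v = 0 := by
    have h5 : d.U0 < d.pp v := by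
      by_contra h; exact h3 (g.J0_of hv (by omega))
    by_cases h6 : d.pp v ≤ d.K + d.U0
    · rcases mid_cases hv h5 h6 with h | h | h
      · exact absurd h h1
      · exact g.rho_pool (d.mem_pool.2 (by tauto)) hT
      · by_cases h7 : v ∈ d.Jh
        · by_contra h8; exact h2 (d.mem_Om.2 ⟨h, h7, by omega⟩)
        · exact g.rho_pool (d.mem_pool.2 (by tauto)) hT
    · exact g.rho_pool (d.mem_pool.2 (Or.inl (d.mem_Bey.2 ⟨hv, by omega⟩))) hT
  omega

end Good
end Dat

end Pool.Agent.P.MP_5402c6_co
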