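import Pool.Agent.P.MP_5402c6_co.Cert1

/-! Terms attached to the inner long elements, to short elements and to the set `Au`. -/

namespace Pool.Agent.P.MP_5402c6_co

open Finset

lemma Cfg.not_blocked_of_le (c : Cfg) {w y : ℕ} (h : y ≤ c.K) : ¬ c.blocked w y := by
  intro hb; have := c.btw_le w y; have := hb.2.2; have := hb.1; omega

/-- a long element among the first `K` positions -/
lemma Cfg.B_inner (c : Cfg) {z : ℕ} (hz : z < c.K) (hl : c.lg z) :
    (c.K : ℤ) - (((c.J c.K).filter (fun u => u < z ∧ c.key z < c.key u)).card : ℤ) ≤ c.B z := by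
  have h1 := c.B_ge z
  have h2 : (c.nw z).card = 0 := by
    rw [card_eq_zero, eq_empty_iff_forall_notMem]
    intro y hy
    exact c.not_blocked_of_le hz.le ((c.mem_nw_l hl).1 hy).2.2.1
  have h3 : c.inn z ≤ ((c.J c.K).filter (fun u => u < z ∧ c.key z < c.key u)).card := by
    unfold Cfg.inn; apply card_le_card; intro y
    simp only [mem_filter, mem_range, Cfg.mem_J]
    rintro ⟨a, b⟩; exact ⟨⟨by omega, c.lg_of_lt hl b⟩, a, b⟩
  omega

namespace Dat
variable (d : Dat)

noncomputable def SA (z : ℕ) : ℕ :=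
  (d.Au.filter (fun v => d.key z < d.key v ∧ ¬ d.blocked z v)).card
noncomputable def o0 (z : ℕ) : ℕ := (d.J0.filter (fun u => z < u ∧ d.key z < d.key u)).card
noncomputable def u0 (z : ℕ) : ℕ := (d.J0.filter (fun u => u < z ∧ d.key z < d.key u)).card
noncomputable def om (x : ℕ) : ℕ := (d.Au.filter (fun v => d.t x < d.t v ∧ d.blocked x v)).card
noncomputable def oc (v : ℕ) : ℕ := (d.Us.filter (fun x => d.t x < d.t v ∧ d.blocked x v)).card
noncomputable def sh (v : ℕ) : ℕ :=
  (d.J0.filter (fun z => d.key z < d.key v ∧ ¬ d.blocked z v)).card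
noncomputable def uF (v : ℕ) : ℕ :=
  (d.LL.filter (fun u => d.U0 < d.pp u ∧ u < v ∧ d.key v < d.key u)).card
noncomputable def Aa (v : ℕ) : ℕ := (d.Sp.filter (fun x => ¬ d.blocked x v)).card

variable {d}
namespace Good
variable (g : d.Good)
include g

lemma Nn_J0 {z : ℕ} (hz : z ∈ d.J0) : d.Nn z = d.UT z := by
  unfold Nn UT
  congr 1
  apply filter_congr
  intro u _
  have h1 : d.pp z + (d.SS.filter (fun x => x < z ∧ d.alive u x)).card ≤ (range (z + 1)).card := by
    unfold pp Cfg.p
    have := g.hKπ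
    have h2 := d.mem_J0.1 hz
    apply le_card2
    · intro x; simp only [mem_filter, mem_range]; omega
    · intro x; simp only [mem_filter, mem_range]; omega
    · intro x; simp only [mem_filter, Cfg.mem_L, mem_SS]
      rintro ⟨⟨-, a | a⟩, b⟩ ⟨⟨e, f⟩, -⟩
      · omega
      · exact f a
  have h2 := (d.mem_J0.1 hz).1
  rw [card_range] at h1
  have : ¬ d.excl z u := by unfold excl; omega
  tauto

lemma J0_notT {z : ℕ} (hz : z ∈ d.J0) : z ∉ d.T := by
  intro h; have := g.T_L h; have := g.J0_L hz; omega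

lemma SzY {z : ℕ} (hz : z ∈ d.J0) (hL : ¬ d.Low z) :
    (d.K : ℤ) - d.o0 z - d.V.card - d.bb ≤ d.UT z + d.G z + d.SA z := by
  have hz1 := g.J0_L hz
  have hz2 := d.mem_J0.1 hz
  simp only [G, g.J0_notT hz, if_false]
  have hW : (d.Wo z).card ≤ d.o0 z + ((d.Wo z).filter (fun y => y ∈ d.T)).card + d.SA z +
      ((d.pool \ d.T).filter (fun y => d.key z < d.key y)).card := by
    unfold o0 SA
    apply card_le4; intro y hy
    have h1 := d.mem_Wo.1 hy
    have h2 : y ∈ d.LL := d.L_up hz1.1 h1.1 h1.2.1 h1.2.2.1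
    simp only [mem_filter, mem_sdiff]
    by_cases h3 : d.pp y ≤ d.U0
    · left; exact ⟨g.J0_of h2 h3, h1.1, h1.2.2.1⟩
    · have h4 := d.not_blocked_Wo hy
      rcases long_cases h2 (by omega) (d.lg_of_lt hz2.2 h1.2.2.1) with h | h <;> tauto
  have hA := d.A_eq z
  have hU := UT_ge z ((d.Wo z).filter (fun y => y ∈ d.T))
    (fun u hu => by simp only [mem_filter] at hu; tauto)
  have hN : ((d.pool \ d.T).filter (fun y => d.key z < d.key y)).card ≤ d.bb + d.V.card := by
    rcases ((d.pool \ d.T).filter (fun y => d.key z < d.key y)).eq_empty_or_nonempty with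
      h0 | ⟨y, hy⟩
    · rw [h0]; simp
    simp only [mem_filter, mem_sdiff] at hy
    have hp : ∀ x ∈ d.pool, d.key z < d.key x → x ∈ d.Bey ∨ x ∈ d.V := by
      intro x hx hk
      rcases d.mem_pool.1 hx with h | h | h | h
      · exact Or.inl h
      · exact Or.inr h
      · exact absurd ⟨x, h.1, hk⟩ hL
      · rcases (d.mem_D.1 h.1).2 with h2 | ⟨q, hq, h2⟩
        · tauto
        · exact absurd ⟨q, hq, hk.trans h2⟩ hL
    have h1 : ((d.pool \ d.T).filter (fun y => d.key z < d.key y)).card + d.T.card ≤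
        d.Bey.card + d.V.card := by
      apply card22
      · intro x; simp only [mem_filter, mem_sdiff]; tauto
      · intro x hx; simp only [mem_filter, mem_sdiff] at hx; exact hp x hx.1.1 hx.2
      · intro x hx
        have := g.hT2 x hx y hy.1.1 hy.1.2
        exact hp x (g.hT hx) (by omega)
    have := g.cBey; have := g.hT1; omega
  omega

lemma cP' : d.P.card + d.V.card + d.R.card = d.K := by
  have := g.cP; have := g.cW; have := g.cY; have := g.cNL; omega

lemma SzR {z : ℕ} (hz : z ∈ d.J0) (hL : d.Low z) :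
    (d.K : ℤ) - d.o0 z - d.V.card - d.R.card - d.D.card ≤ d.UT z + d.G z + d.SA z := by
  have hz1 := g.J0_L hz
  have hz2 := d.mem_J0.1 hz
  simp only [G, g.J0_notT hz, if_false]
  have hA := d.A_nonneg z
  have hU := UT_ge (d := d) z ∅ (by simp)
  obtain ⟨q, hq, hk⟩ := hL
  have hH : ∀ h ∈ d.H, d.key z < d.key h := by
    intro h hh
    have : ¬ d.key h < d.key q := fun e => (d.mem_H.1 hh).2.2 ⟨q, hq, e⟩
    omega
  by_cases hb : ∃ h ∈ d.H, d.blocked z h
  · obtain ⟨h, hh, hb⟩ := hb
    have h1 := g.P_L (d.mem_H.1 hh).1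
    have h2 := d.Wo_full (d.mem_LL.1 h1.1).1 hb
    have hW : (d.Wo z).card ≤ d.o0 z + d.SA z + (d.V ∪ d.R).card + d.D.card := by
      unfold o0 SA
      apply card_le4; intro y hy
      have h3 := d.mem_Wo.1 hy
      have h4 : y ∈ d.LL := d.L_up hz1.1 h3.1 h3.2.1 h3.2.2.1
      have h5 : y < h := by
        by_contra e
        have := d.btw_mono z (not_lt.1 e); have := hb.2.2; omega
      have h6 := d.pp_lt h1.1 h5
      simp only [mem_filter, mem_union]
      by_cases h7 : d.pp y ≤ d.U0
      · left; exact ⟨g.J0_of h4 h7, h3.1, h3.2.2.1⟩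
      · have h8 := d.not_blocked_Wo hy
        rcases mid_cases h4 (by omega) (by omega) with e | e | e
        · by_cases e2 : y ∈ d.D
          · tauto
          · have : y ∈ d.Au := by
              rw [mem_D] at e2
              exact d.mem_Au.2 (Or.inl (d.mem_H.2 (by tauto)))
            tauto
        · tauto
        · tauto
    have := card_union_le d.V d.R
    simp only [card_empty] at hU
    omega
  · have h1 : d.H.card ≤ d.SA z := by
      unfold SA; apply card_le_card; intro h hh
      simp only [mem_filter]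
      exact ⟨d.mem_Au.2 (Or.inl hh), hH h hh, fun e => hb ⟨h, hh, e⟩⟩
    have := g.cP'; have := cDH (d := d)
    simp only [card_empty] at hU
    omega

lemma nw_pool {x : ℕ} (hx : x ∈ d.SS) :
    ((d.nw x).filter (fun y => y ∈ d.pool)).card + d.lx x ≤ d.K := by
  have hx1 := d.mem_SS.1 hx
  have hT1 := g.hT1
  unfold lx
  by_cases h0 : ∀ y ∈ d.nw x, y ∈ d.pool → y ∈ d.T
  · have : ((d.nw x).filter (fun y => y ∈ d.pool)).card +
        (d.T.filter (fun u => d.alive u x)).card ≤ d.T.card := by
      apply le_card2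
      · intro y hy; simp only [mem_filter] at hy; exact h0 y hy.1 hy.2
      · intro y hy; exact (mem_filter.1 hy).1
      · intro y hy; simp only [mem_filter, alive] at hy ⊢
        have := (d.mem_nw_s hx1.2).1 hy.1
        rintro ⟨-, e | e⟩
        · tauto
        · omega
    omega
  push Not at h0
  obtain ⟨y, hy, hyp, hyT⟩ := h0
  have hy1 := (d.mem_nw_s hx1.2).1 hy
  have h1 : (d.T.filter (fun u => d.alive u x)).card = 0 := by
    rw [card_eq_zero, filter_eq_empty_iff]
    intro u hu
    have h2 := g.hT2 u hu y hyp hyT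
    have h3 := d.lg_of_lt hy1.2.1 h2
    have h4 := d.t_lt_ll hy1.2.1 h2
    unfold alive; rintro (e | e)
    · exact e h3
    · omega
  rcases Nat.eq_zero_or_pos d.φ with hφ | hφ
  · have := d.nw_le x
    have := card_filter_le (d.nw x) (fun y => y ∈ d.pool)
    omega
  have hR : d.R = ∅ := by rcases g.hr with h | h; exact h; omega
  have hbb : d.bb = 0 := by rcases g.hbφ with h | h; exact h; omega
  have hp : ∀ v ∈ d.pool, v ∈ d.Bey ∨ v ∈ d.V := by
    intro v hv
    rcases d.mem_pool.1 hv with h | h | h | h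
    · exact Or.inl h
    · exact Or.inr h
    · rw [hR] at h; simp at h
    · have := g.φ_zero_of_pool (d.mem_D.1 h.1).1 hv; omega
  have hv : ∃ v ∈ d.V, d.key y ≤ d.key v := by
    rcases hp y hyp with h | h
    · by_contra e
      push Not at e
      have : (insert y d.T).card ≤ d.Bey.card := by
        apply card_le_card; intro u hu
        rcases mem_insert.1 hu with h2 | h2
        · rw [h2]; exact h
        · rcases hp u (g.hT h2) with h3 | h3
          · exact h3
          · have := e u h3; have := g.hT2 u h2 y hyp hyT; omega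
      rw [card_insert_of_notMem hyT] at this
      have := g.cBey; omega
    · exact ⟨y, h, le_rfl⟩
  obtain ⟨v, hv, hk⟩ := hv
  have hj : d.V.card + d.φ + d.U0 ≤ d.bo := by
    rcases g.hj with h | h
    · have := card_pos.2 ⟨v, hv⟩; omega
    · exact h
  have hU := g.hU
  by_cases h2 : ∀ u ∈ (d.nw x).filter (fun y => y ∈ d.pool), u ∈ d.V
  · have := card_le_card (fun u hu => h2 u hu)
    omega
  push Not at h2
  obtain ⟨u, hu, huV⟩ := h2
  have hne : ((d.nw x).filter (fun y => y ∈ d.pool)).Nonempty := ⟨u, hu⟩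
  have hm := max'_mem _ hne
  have hum := le_max' _ u hu
  set m := ((d.nw x).filter (fun y => y ∈ d.pool)).max' hne with hmdef
  have hm1 := (d.mem_nw_s hx1.2).1 (mem_filter.1 hm).1
  have huB : u ∈ d.Bey := by
    rcases hp u (mem_filter.1 hu).2 with h | h
    · exact h
    · exact absurd h huV
  have h3 := d.slot_short hx1.2 hm1.2.2.2.2 ((d.nw x).filter (fun y => y ∈ d.pool) ∪ d.W) (by
    intro e he
    rcases mem_union.1 he with h | h
    · have h4 := (d.mem_nw_s hx1.2).1 (mem_filter.1 h).1
      exact ⟨h4.2.2.2.1.1, le_max' _ e h, h4.2.1, h4.2.2.1⟩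
    · have h4 := d.mem_W.1 h
      have h5 := d.mem_Loc.1 h4.1
      have h6 := g.hV2 v hv e h4.1 h4.2
      have h7 : d.key y < d.key e := by omega
      have h8 := d.t_lt_ll hy1.2.1 h7
      have h9 := (g.Jπ_iff h5.1)
      have h10 := d.mem_Bey.1 huB
      have h11 : e < u := d.lt_pp (by omega)
      exact ⟨by omega, by omega, d.lg_of_lt hy1.2.1 h7, by omega⟩)
  rw [card_union_of_disjoint] at h3
  · have := g.cW; omega
  · rw [disjoint_left]; intro e he h
    have h4 : e ∈ d.P := d.mem_P.2 (Or.inl h)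
    have := g.φ_zero_of_pool h4 (mem_filter.1 he).2; omega

lemma Cterm {x : ℕ} (hx : x ∈ d.SS) : (d.lx x : ℤ) - d.inn x ≤ d.B x + d.om x := by
  have hx1 := d.mem_SS.1 hx
  have h1 := g.nw_pool hx
  have h2 := d.B_ge x
  have h3 : (d.nw x).card ≤ d.om x + ((d.nw x).filter (fun y => y ∈ d.pool)).card := by
    unfold om
    apply card_le2; intro y hy
    have h4 := (d.mem_nw_s hx1.2).1 hy
    have h5 : y ∈ d.LL := d.mem_LL.2 ⟨h4.1, Or.inr h4.2.1⟩
    have h6 : d.U0 < d.pp y := by
      by_contra e
      have := (g.J0_iff h5).1 (by omega)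
      exact d.not_blocked_of_le this.le h4.2.2.2.1
    simp only [mem_filter]
    rcases long_cases h5 h6 h4.2.1 with h | h <;> tauto
  omega

lemma A1 {v : ℕ} (hv : v ∈ d.Au) : (d.K : ℤ) - d.U0 + d.sh v - d.uF v -
    ((d.nw v).filter (fun x => x ∈ d.SS)).card ≤ d.B v := by
  have hv1 := g.Au_L hv
  have hn := (d.mem_LL.1 hv1.1).1
  have h1 := d.B_ge v
  have h2 : d.inn v ≤ d.uF v + (d.J0.filter (fun z => d.key v < d.key z)).card := by
    unfold Cfg.inn uF
    apply card_le2; intro y hy
    simp only [mem_filter, mem_range] at hy ⊢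
    have h3 : y ∈ d.LL := d.mem_LL.2 ⟨by omega, Or.inr (d.lg_of_lt hv1.2.2.2.1 hy.2)⟩
    by_cases h4 : d.U0 < d.pp y
    · left; tauto
    · right; exact ⟨g.J0_of h3 (by omega), hy.2⟩
  have h3 : (d.nw v).card ≤ ((d.nw v).filter (fun x => x ∈ d.SS)).card +
      (d.J0.filter (fun z => d.blocked z v)).card := by
    apply card_le2; intro y hy
    have h4 := (d.mem_nw_l hv1.2.2.2.1).1 hy
    simp only [mem_filter]
    by_cases h5 : y ∈ d.LL
    · right
      refine ⟨g.J0_of h5 ?_, h4.2.2.1⟩
      by_contra e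
      exact g.not_blocked_mid h5 (by omega) hv1.1 hv1.2.2.1 h4.2.2.1
    · left
      simp only [mem_LL, not_and, not_or, not_le] at h5
      exact ⟨hy, d.mem_SS.2 (h5 h4.1)⟩
  have h4 : (d.J0.filter (fun z => d.key v < d.key z)).card +
      (d.J0.filter (fun z => d.blocked z v)).card + d.sh v ≤ d.U0 := by
    unfold sh U0
    apply le_card3
    · intro x hx; exact (mem_filter.1 hx).1
    · intro x hx; exact (mem_filter.1 hx).1
    · intro x hx; exact (mem_filter.1 hx).1
    · intro x; simp only [mem_filter, Cfg.blocked]; omega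
    · intro x; simp only [mem_filter]; omega
    · intro x; simp only [mem_filter]; tauto
  omega

lemma A2 {v : ℕ} (hv : v ∈ d.Au) :
    ((d.nw v).filter (fun x => x ∈ d.SS)).card + d.oc v + d.Aa v ≤ d.Sp.card := by
  have hv1 := g.Au_L hv
  have hl := hv1.2.2.2.1
  have hal : ∀ y ∈ d.nw v, y ∈ d.SS → d.t v < d.t y ∧ d.blocked y v := by
    intro y hy hs
    have h1 := (d.mem_nw_l hl).1 hy
    have h2 := d.mem_SS.1 hs
    tauto
  set Y0 := (d.nw v).filter (fun x => x ∈ d.N ∧ x ∉ d.Np) with hY0
  have hsplit : ((d.nw v).filter (fun x => x ∈ d.SS)).card ≤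
      ((d.nw v).filter (fun x => x ∈ d.Sp)).card + Y0.card := by
    apply card_le2; intro y hy
    simp only [hY0, mem_filter, mem_Sp, mem_Zs, mem_N, mem_SS] at hy ⊢
    by_cases e : y < d.K
    · tauto
    · have : d.K ≤ y := by omega
      tauto
  have hSS : ∀ y ∈ d.Sp, y ∈ d.SS := fun y hy => d.mem_SS.2 (g.Sp_S hy)
  rcases Y0.eq_empty_or_nonempty with h0 | h0
  · have : ((d.nw v).filter (fun x => x ∈ d.Sp)).card + d.oc v + d.Aa v ≤ d.Sp.card := by
      unfold oc Aa
      apply le_card3
      · intro x hx; exact (mem_filter.1 hx).2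
      · intro x hx; exact g.hUs (mem_filter.1 hx).1
      · intro x hx; exact (mem_filter.1 hx).1
      · intro x hx; simp only [mem_filter] at hx ⊢
        have := hal x hx.1 (hSS x hx.2); omega
      · intro x hx; simp only [mem_filter] at hx ⊢
        have := hal x hx.1 (hSS x hx.2); tauto
      · intro x; simp only [mem_filter]; tauto
    rw [h0] at hsplit; simp only [card_empty] at hsplit; omega
  set ys := Y0.max' h0 with hys
  have hy1 : ys ∈ Y0 := max'_mem _ h0
  simp only [hY0, mem_filter] at hy1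
  have hy2 := d.mem_N.1 hy1.2.1
  have hy3 := (d.mem_nw_l hl).1 hy1.1
  have hy4 := hal ys hy1.1 (d.mem_SS.2 hy2.2)
  set Dd := d.Sp.filter (fun x => d.t x < d.t v) with hDd
  have hDZ : ∀ x ∈ Dd, x ∈ d.Zs ∧ d.blocked x v := by
    intro x hx
    simp only [hDd, mem_filter] at hx
    rcases d.mem_Sp.1 hx.1 with h | h
    · have h1 := d.mem_Zs.1 h
      exact ⟨h, d.blocked_of_lower hy4.2 (by omega) (d.key_lt_ss h1.2 hy2.2.2 (by omega))⟩
    · have := g.hNp2 x h ys hy1.2.1 hy1.2.2; omega
  have h1 : Y0.card ≤ Dd.card := by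
    have h2 : (d.Zs.filter (fun x => d.t v < d.t x)).card + d.J0.card + (Y0.erase ys).card ≤
        d.cA (d.t v) ys := by
      unfold Cfg.cA
      apply le_card3
      · intro x; simp only [mem_filter, mem_Zs, mem_range]; rintro ⟨a, b⟩
        exact ⟨by omega, Or.inr b⟩
      · intro x; simp only [mem_filter, mem_J0, mem_range]; rintro ⟨a, b⟩
        exact ⟨by omega, Or.inl b⟩
      · intro x hx
        have h3 := mem_erase.1 hx
        have h4 : x ≤ ys := le_max' _ x h3.2
        have h5 := (d.mem_nw_l hl).1 (mem_filter.1 h3.2).1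
        simp only [mem_filter, mem_range]
        exact ⟨by omega, h5.2.1⟩
      · intro x; simp only [mem_filter, mem_Zs, mem_J0]; tauto
      · intro x; simp only [hY0, mem_filter, mem_Zs, mem_erase, mem_N]; omega
      · intro x; simp only [hY0, mem_filter, mem_J0, mem_erase, mem_N]; omega
    have h3 := hy3.2.2.2
    unfold Cfg.org at h3
    rw [card_erase_of_mem (max'_mem _ h0)] at h2
    have h4 : d.Zs.card ≤ (d.Zs.filter (fun x => d.t v < d.t x)).card + Dd.card := by
      apply card_le2; intro x hx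
      have h5 := d.mem_Zs.1 hx
      have h6 : d.t x ≠ d.t v := d.t_ne (by rintro rfl; exact h5.2 hl)
      simp only [hDd, mem_filter, mem_Sp]
      by_cases e : d.t v < d.t x
      · tauto
      · right; exact ⟨Or.inl hx, by omega⟩
    have := g.cZ; have := card_pos.2 h0
    unfold U0 at *; omega
  have h2 : Y0.card ≤ d.V.card := by
    have h3 : Y0.card + d.Np.card ≤ d.N.card := by
      apply le_card2
      · intro x hx; exact (mem_filter.1 hx).2.1
      · intro x hx; exact g.hNp hx
      · intro x hx; exact (mem_filter.1 hx).2.2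
    have := g.hNp1; unfold bo at this; omega
  have h3 : Y0.card + d.oc v ≤ Dd.card := by
    by_cases e : ∀ x ∈ d.Sp, x ∉ d.Us → d.t x < d.t v
    · have h4 : (d.Sp \ d.Us).card + d.oc v ≤ Dd.card := by
        unfold oc
        apply le_card2
        · intro x hx; simp only [hDd, mem_filter, mem_sdiff] at hx ⊢; exact ⟨hx.1, e x hx.1 hx.2⟩
        · intro x hx; simp only [hDd, mem_filter] at hx ⊢; exact ⟨g.hUs hx.1, hx.2.1⟩
        · intro x; simp only [mem_filter, mem_sdiff]; tauto
      have h5 := card_sdiff_add_card_eq_card g.hUs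
      have := g.hUs1; omega
    · push Not at e
      obtain ⟨x0, a, b, e⟩ := e
      have : d.oc v = 0 := by
        unfold oc
        rw [card_eq_zero, filter_eq_empty_iff]
        intro x hx
        have := g.hUs2 x hx x0 a b; omega
      omega
  have h4 : ((d.nw v).filter (fun x => x ∈ d.Sp)).card + Dd.card + d.Aa v ≤ d.Sp.card := by
    unfold Aa
    apply le_card3
    · intro x hx; exact (mem_filter.1 hx).2
    · intro x hx; exact (mem_filter.1 hx).1
    · intro x hx; exact (mem_filter.1 hx).1
    · intro x hx; simp only [hDd, mem_filter] at hx ⊢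
      have := hal x hx.1 (hSS x hx.2); omega
    · intro x hx; simp only [mem_filter] at hx ⊢
      have := hal x hx.1 (hSS x hx.2); tauto
    · intro x hx; have := hDZ x hx; simp only [mem_filter]; tauto
  omega

end Good
end Dat

end Pool.Agent.P.MP_5402c6_co
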