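import Pool.Agent.P.MP_5402c6_co.Cert2

/-! The layer by layer injection. -/

namespace Pool.Agent.P.MP_5402c6_co

open Finset

namespace Dat
variable (d : Dat)

noncomputable def rkv (v x : ℕ) : ℕ := (d.Sp.filter (fun y => y < v ∧ d.t x ≤ d.t y)).card
noncomputable def Al (l : ℕ) : Finset ℕ := d.Us.filter (fun x => l ≤ d.lx x)
noncomputable def lam (v : ℕ) : ℕ :=
  ((Icc 1 d.K).filter (fun l => d.cp v ≤ ((d.Al l).filter (fun x => x < v)).card)).card
noncomputable def Gx (x : ℕ) : ℕ := ((Icc 1 d.K).filter (fun l => d.inn x < l ∧ l ≤ d.lx x)).card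
def ee (v l : ℕ) : Prop := ∃ x ∈ d.Sp, x < v ∧ d.rkv v x = d.cp v + l ∧ l ≤ d.inn x
noncomputable instance (u x : ℕ) : Decidable (d.ee u x) := Classical.dec _
noncomputable def above (v : ℕ) : ℕ := (d.PB.filter (fun u => u < v)).card
noncomputable def Ev (v : ℕ) : ℕ :=
  (d.Sp.filter (fun x => x < v ∧ d.cp v < d.rkv v x ∧ d.rkv v x ≤ d.cp v + d.inn x)).card
noncomputable def nv (v : ℕ) : ℕ := (d.Sp.filter (fun x => v < x)).card

lemma rkv_eq {v x : ℕ} (hx : x ∈ d.Sp) (hv : x < v) : d.rkv v x =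
    rk (β := ℕᵒᵈ) (d.Sp.filter (fun y => y < v)) (fun y => OrderDual.toDual (d.t y)) x + 1 := by
  unfold rkv rk
  rw [← card_insert_of_notMem (a := x) (by simp)]
  congr 1
  ext y
  simp only [mem_filter, mem_insert, OrderDual.toDual_lt_toDual]
  constructor
  · rintro ⟨a, b, e⟩
    by_cases h : y = x
    · exact Or.inl h
    · have := d.t_ne h
      exact Or.inr ⟨⟨a, b⟩, by omega⟩
  · rintro (h | h)
    · subst h; exact ⟨hx, hv, le_rfl⟩
    · exact ⟨h.1.1, h.1.2, h.2.le⟩

lemma tdual_inj (s : Finset ℕ) :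
    Set.InjOn (fun y => (OrderDual.toDual (d.t y) : ℕᵒᵈ)) s :=
  fun _ _ _ _ h => d.tinj h

lemma exists_rkv (v k : ℕ) (h1 : 1 ≤ k) (h2 : k ≤ (d.Sp.filter (fun y => y < v)).card) :
    ∃ x ∈ d.Sp, x < v ∧ d.rkv v x = k := by
  obtain ⟨x, hx, e⟩ := exists_rk (β := ℕᵒᵈ) (d.Sp.filter (fun y => y < v))
    (fun y => OrderDual.toDual (d.t y)) (d.tdual_inj _) (i := k - 1) (by omega)
  simp only [mem_filter] at hx
  exact ⟨x, hx.1, hx.2, by rw [d.rkv_eq hx.1 hx.2, e]; omega⟩

lemma card_rkv_le (v k : ℕ) (h2 : k ≤ (d.Sp.filter (fun y => y < v)).card) :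
    (d.Sp.filter (fun x => x < v ∧ d.rkv v x ≤ k)).card = k := by
  have h := card_rk_lt (β := ℕᵒᵈ) (d.Sp.filter (fun y => y < v))
    (fun y => OrderDual.toDual (d.t y)) (d.tdual_inj _) k
  rw [min_eq_left h2, filter_filter] at h
  refine Eq.trans ?_ h
  congr 1
  apply filter_congr
  intro x hx
  constructor
  · rintro ⟨a, b⟩; rw [d.rkv_eq hx a] at b; exact ⟨a, by omega⟩
  · rintro ⟨a, b⟩; rw [d.rkv_eq hx a]; exact ⟨a, by omega⟩

lemma rkv_mono {u v : ℕ} (x : ℕ) (h : u ≤ v) : d.rkv u x ≤ d.rkv v x := by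
  unfold rkv; apply card_le_card; intro y; simp only [mem_filter]
  rintro ⟨a, b, e⟩; exact ⟨a, by omega, e⟩

lemma mem_of_rkv (A : Finset ℕ) (hA : A ⊆ d.Sp)
    (hup : ∀ a ∈ A, ∀ y ∈ d.Sp, d.t a < d.t y → y ∈ A) {v x : ℕ} (hx : x ∈ d.Sp) (hv : x < v)
    (h : d.rkv v x ≤ (A.filter (fun y => y < v)).card) : x ∈ A := by
  by_contra hxA
  have : (insert x (A.filter (fun y => y < v))).card ≤ d.rkv v x := by
    unfold rkv; apply card_le_card; intro y
    simp only [mem_insert, mem_filter]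
    rintro (e | ⟨a, b⟩)
    · subst e; exact ⟨hx, hv, le_rfl⟩
    · refine ⟨hA a, b, ?_⟩
      by_contra e
      exact hxA (hup y a x hx (by omega))
  rw [card_insert_of_notMem (by simp [hxA])] at this
  omega

lemma lx_mono {x y : ℕ} (h : d.t x ≤ d.t y) : d.lx x ≤ d.lx y := by
  unfold lx
  have : (d.T.filter (fun u => d.alive u x)).card ≤ (d.T.filter (fun u => d.alive u y)).card := by
    apply card_le_card; intro u; simp only [mem_filter, alive]
    rintro ⟨a, b | b⟩
    · exact ⟨a, Or.inl b⟩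
    · exact ⟨a, Or.inr (by omega)⟩
  omega

lemma cp_btw {u v : ℕ} (h : u ≤ v) :
    d.cp v + (d.Q.filter (fun y => u ≤ y ∧ y < v)).card = d.cp u := by
  unfold cp
  rw [← card_union_of_disjoint]
  · congr 1; ext y; simp only [mem_union, mem_filter]
    constructor
    · rintro (⟨a, b⟩ | ⟨a, b⟩)
      · exact ⟨a, by omega⟩
      · exact ⟨a, b.1⟩
    · rintro ⟨a, b⟩
      by_cases e : v ≤ y
      · exact Or.inl ⟨a, e⟩
      · exact Or.inr ⟨a, b, by omega⟩
  · rw [disjoint_left]; intro y; simp only [mem_filter]; omega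

lemma cp_lt {u v : ℕ} (hu : u ∈ d.Q) (h : u < v) : d.cp v < d.cp u := by
  have h1 := d.cp_btw h.le
  have : 0 < (d.Q.filter (fun y => u ≤ y ∧ y < v)).card := card_pos.2 ⟨u, by simp [hu, h]⟩
  omega

lemma cp_pos {v : ℕ} (hv : v ∈ d.Q) : 1 ≤ d.cp v := card_pos.2 ⟨v, by simp [hv]⟩

lemma cp_le (v : ℕ) : d.cp v ≤ d.Q.card := card_filter_le _ _

lemma cp_inj : Set.InjOn d.cp d.Q := by
  intro u hu v hv h
  rcases lt_trichotomy u v with e | e | e
  · have := d.cp_lt hu e; omega
  · exact e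
  · have := d.cp_lt hv e; omega

lemma Gx_le (x : ℕ) : d.Gx x ≤ d.lx x - d.inn x := by
  unfold Gx
  have : ((Icc 1 d.K).filter (fun l => d.inn x < l ∧ l ≤ d.lx x)).card ≤
      (Ioc (d.inn x) (d.lx x)).card := by
    apply card_le_card; intro l; simp only [mem_filter, mem_Ioc]; tauto
  simpa using this

variable {d}
namespace Good
variable (g : d.Good)
include g

lemma Al_up (l : ℕ) : d.Al l ⊆ d.Sp ∧ ∀ a ∈ d.Al l, ∀ y ∈ d.Sp, d.t a < d.t y → y ∈ d.Al l := by
  refine ⟨fun a ha => g.hUs (mem_filter.1 ha).1, fun a ha y hy h => ?_⟩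
  simp only [Al, mem_filter] at ha ⊢
  refine ⟨?_, ha.2.trans (d.lx_mono h.le)⟩
  by_contra e
  have := g.hUs2 a ha.1 y hy e; omega

lemma Q_L {v : ℕ} (hv : v ∈ d.Q) : v ∈ d.LL ∧ d.U0 < d.pp v ∧ d.pp v ≤ d.K ∧ v ∉ d.V := by
  rcases d.mem_Q.1 hv with h | h
  · have h1 := d.mem_W.1 h; have := d.mem_Loc.1 h1.1; tauto
  · have h1 := d.mem_NL.1 h
    exact ⟨h1.1, h1.2.1, h1.2.2.1, fun e => by have := d.mem_Loc.1 (g.hV e); omega⟩

lemma cp_pp {v : ℕ} (hv : v ∈ d.Q) :
    d.cp v + (d.V.filter (fun u => v ≤ u)).card + d.pp v = d.K + 1 := by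
  have h0 := g.Q_L hv
  have h1 := g.card_pp (d.pp v - 1) d.K (by omega)
  have h2 : d.LL.filter (fun u => d.pp v - 1 < d.pp u ∧ d.pp u ≤ d.K) =
      d.Q.filter (fun u => v ≤ u) ∪ d.V.filter (fun u => v ≤ u) := by
    ext u
    simp only [mem_filter, mem_union]
    constructor
    · rintro ⟨a, b, e⟩
      have h3 : v ≤ u := by
        by_contra f
        have := d.pp_lt h0.1 (not_le.1 f); omega
      by_cases h4 : u ∈ d.V
      · exact Or.inr ⟨h4, h3⟩
      · left; refine ⟨?_, h3⟩
        simp only [mem_Q, mem_W, mem_Loc, mem_NL]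
        by_cases h5 : d.pp u + d.bo ≤ d.K + d.U0
        · right; exact ⟨a, by omega, e, h5⟩
        · left; exact ⟨⟨a, by omega, e, by omega⟩, h4⟩
    · rintro (⟨a, b⟩ | ⟨a, b⟩)
      · have := g.Q_L a; have := d.pp_mono b; exact ⟨by tauto, by omega, by tauto⟩
      · have := d.mem_Loc.1 (g.hV a); have := d.pp_mono b; exact ⟨by tauto, by omega, by tauto⟩
  rw [h2, card_union_of_disjoint] at h1
  · unfold cp; omega
  · rw [disjoint_left]; intro u; simp only [mem_filter]; rintro ⟨a, -⟩ ⟨b, -⟩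
    exact (g.Q_L a).2.2.2 b

lemma cp_NL {v : ℕ} (hv : v ∈ d.NL) : d.cp v + d.V.card + d.pp v = d.K + 1 := by
  have h1 := g.cp_pp (d.mem_Q.2 (Or.inr hv))
  have : d.V.filter (fun u => v ≤ u) = d.V := by
    apply filter_true_of_mem; intro u hu
    have := d.mem_Loc.1 (g.hV hu); have := d.mem_NL.1 hv
    exact (d.lt_pp (by omega)).le
  rw [this] at h1; exact h1

lemma cp_W {v : ℕ} (hv : v ∈ d.W) : d.cp v ≤ d.W.card := by
  unfold cp; apply card_le_card; intro u
  simp only [mem_filter, mem_Q]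
  rintro ⟨a | a, b⟩
  · exact a
  · have := d.mem_Loc.1 (d.mem_W.1 hv).1; have := d.mem_NL.1 a; have := d.pp_mono b; omega

lemma W_π {v : ℕ} (hv : v ∈ d.W) : d.π ≤ v := by
  have h1 := d.mem_Loc.1 (d.mem_W.1 hv).1
  have := g.Jπ_iff h1.1; have := g.hU; omega

lemma full_used {v : ℕ} (hv : v ∈ d.Q) : d.cp v ≤ (d.Us.filter (fun x => x < v)).card := by
  have h0 := g.Q_L hv
  have h1 := g.K_le h0.1 h0.2.1
  have h2 : d.Zs.card ≤ (d.Us.filter (fun x => x < v)).card + (d.Sp \ d.Us).card := by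
    apply card_le2; intro x hx
    have := d.mem_Zs.1 hx
    simp only [mem_filter, mem_sdiff, mem_Sp]
    by_cases e : x ∈ d.Us
    · left; exact ⟨e, by omega⟩
    · right; exact ⟨Or.inl hx, e⟩
  have := card_sdiff_add_card_eq_card g.hUs
  have := g.hUs1; have := g.cZ; have := g.cQ; have := d.cp_le v
  omega

lemma excl_used {v u : ℕ} (hv : v ∈ d.Q) (h : d.excl v u) :
    d.cp v ≤ (d.Us.filter (fun x => x < v ∧ d.alive u x)).card := by
  have hup : ∀ x y, d.alive u x → d.t x < d.t y → d.alive u y := by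
    unfold alive; rintro x y (a | a) b
    · exact Or.inl a
    · exact Or.inr (by omega)
  unfold excl at h
  have hS : ∀ x ∈ d.SS, x ∈ d.Sp ∨ (x ∈ d.N ∧ x ∉ d.Np) := by
    intro x; simp only [mem_SS, mem_Sp, mem_Zs, mem_N]
    intro hx
    by_cases e : x < d.K
    · tauto
    · have : d.K ≤ x := by omega
      tauto
  have h1 : d.cp v ≤ (d.Sp.filter (fun x => x < v ∧ d.alive u x)).card := by
    rcases d.mem_Q.1 hv with hW | hN
    · by_cases e : ∃ y ∈ d.N, y ∉ d.Np ∧ d.alive u y
      · obtain ⟨y, a, b, e⟩ := e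
        have h2 : d.Np.card ≤ (d.Sp.filter (fun x => x < v ∧ d.alive u x)).card := by
          apply card_le_card; intro x hx
          have := d.mem_N.1 (g.hNp hx); have := g.W_π hW
          simp only [mem_filter, mem_Sp]
          exact ⟨Or.inr hx, by omega, hup y x e (g.hNp2 x hx y a b)⟩
        have := g.cp_W hW; have := g.cW; have := g.hNp1; omega
      · have h2 : (d.SS.filter (fun x => x < v ∧ d.alive u x)).card ≤
            (d.Sp.filter (fun x => x < v ∧ d.alive u x)).card := by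
          apply card_le_card; intro x; simp only [mem_filter]
          rintro ⟨a, b⟩
          rcases hS x a with f | f
          · exact ⟨f, b⟩
          · exact absurd ⟨x, f.1, f.2, b.2⟩ e
        have := g.cp_pp hv; omega
    · have h2 : (d.SS.filter (fun x => x < v ∧ d.alive u x)).card ≤
          (d.Sp.filter (fun x => x < v ∧ d.alive u x)).card + (d.N \ d.Np).card := by
        apply card_le2; intro x; simp only [mem_filter, mem_sdiff]
        rintro ⟨a, b⟩
        rcases hS x a with f | f <;> tauto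
      have := card_sdiff_add_card_eq_card g.hNp
      have := g.cp_NL hN; have := g.hNp1; unfold bo at this; omega
  by_cases e : ∃ y ∈ d.Sp, y ∉ d.Us ∧ d.alive u y
  · obtain ⟨y, a, b, e⟩ := e
    refine (g.full_used hv).trans (card_le_card ?_)
    intro x; simp only [mem_filter]
    rintro ⟨f, h2⟩
    exact ⟨f, h2, hup y x e (g.hUs2 x f y a b)⟩
  · refine h1.trans (card_le_card ?_)
    intro x; simp only [mem_filter]
    rintro ⟨a, b⟩
    refine ⟨?_, b⟩
    by_contra f
    exact e ⟨x, a, f, b.2⟩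

lemma lam_ge {v : ℕ} (hv : v ∈ d.Q) : d.φ + d.lamR v ≤ d.lam v := by
  have hinj := rk_injOn d.T d.key d.kinj.injOn
  have h1 : ((d.T.filter (fun u => d.excl v u)).image
      (fun u => d.φ + rk d.T d.key u + 1)).card = d.lamR v := by
    unfold lamR
    apply card_image_of_injOn
    intro a ha b hb h
    simp only [coe_filter] at ha hb
    exact hinj ha.1 hb.1 (by simp only at h; omega)
  have h2 : (Icc 1 d.φ).card + ((d.T.filter (fun u => d.excl v u)).image
      (fun u => d.φ + rk d.T d.key u + 1)).card ≤ d.lam v := by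
    unfold lam
    have := g.hT1
    apply le_card2
    · intro l; simp only [mem_filter, mem_Icc]
      rintro ⟨a, b⟩
      refine ⟨⟨a, by omega⟩, (g.full_used hv).trans (card_le_card ?_)⟩
      intro x; simp only [Al, mem_filter, lx]
      rintro ⟨e, f⟩; exact ⟨⟨e, by omega⟩, f⟩
    · intro l hl
      obtain ⟨u, hu, rfl⟩ := mem_image.1 hl
      simp only [mem_filter] at hu
      have h3 := rk_lt_card d.T d.key hu.1
      simp only [mem_filter, mem_Icc]
      refine ⟨⟨by omega, by omega⟩, (g.excl_used hv hu.2).trans (card_le_card ?_)⟩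
      intro x; simp only [Al, mem_filter, lx]
      rintro ⟨e, f, h4⟩
      refine ⟨⟨e, ?_⟩, f⟩
      have : (insert u (d.T.filter (fun y => d.key y < d.key u))).card ≤
          (d.T.filter (fun u => d.alive u x)).card := by
        apply card_le_card; intro y
        simp only [mem_insert, mem_filter]
        rintro (a | ⟨a, b⟩)
        · subst a; exact ⟨hu.1, h4⟩
        · refine ⟨a, ?_⟩
          by_cases h5 : d.lg y
          · have h6 := d.lg_of_lt h5 b
            have h7 := d.t_lt_ll h5 b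
            rcases h4 with h8 | h8
            · exact absurd h6 h8
            · exact Or.inr (by omega)
          · exact Or.inl h5
      rw [card_insert_of_notMem (by simp)] at this
      unfold rk; omega
    · intro l hl hl2
      obtain ⟨u, hu, rfl⟩ := mem_image.1 hl2
      simp only [mem_Icc] at hl; omega
  simp only [Nat.card_Icc] at h2
  omega

lemma Sp_n {x : ℕ} (hx : x ∈ d.Sp) : x < d.n := by
  have := g.Sp_S hx; have := g.hπn; omega

lemma glayer (l : ℕ) (hl : 1 ≤ l) :
    (d.PB.filter (fun v => d.cp v ≤ ((d.Al l).filter (fun x => x < v)).card)).card ≤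
      ((d.Al l).filter (fun x => d.inn x < l)).card +
      ((d.PB \ d.D).filter (fun v => d.ee v l)).card +
      ((d.PB ∩ d.D).filter (fun v => l ≤ d.above v)).card +
      (d.Sp.filter (fun x => d.rkv d.n x ≤ l ∧ d.rkv d.n x ≤ d.PB.card ∧ l ≤ d.inn x)).card := by
  set A := d.Al l with hA
  have hup := g.Al_up l
  rw [← hA] at hup
  set Λ := d.PB.filter (fun v => d.cp v ≤ (A.filter (fun x => x < v)).card) with hΛ
  have hΛm : ∀ v ∈ Λ, v ∈ d.PB ∧ v ∈ d.Q ∧ d.cp v ≤ (A.filter (fun x => x < v)).card := by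
    intro v hv; simp only [hΛ, mem_filter] at hv; exact ⟨hv.1, (g.PB_L hv.1).2.2.2, hv.2⟩
  set Λ1 := Λ.filter (fun v => rk Λ (fun y => y) v < l) with hΛ1
  set Λ2 := Λ.filter (fun v => ¬ rk Λ (fun y => y) v < l) with hΛ2
  have hs : Λ1.card + Λ2.card = Λ.card := card_filter_add_card_filter_not _
  have h1 : Λ1.card = min l Λ.card := card_rk_lt Λ (fun y => y) (fun _ _ _ _ h => h) l
  have h2 : Λ.card ≤ d.PB.card := card_filter_le _ _
  have h3 : Λ.card ≤ A.card := by
    have : Λ.card ≤ (Icc 1 A.card).card := by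
      apply card_le_card_of_injOn d.cp
      · intro v hv
        have h4 := hΛm v hv
        have := d.cp_pos h4.2.1
        have := card_filter_le A (fun x => x < v)
        simp only [coe_Icc, Set.mem_Icc]; omega
      · exact d.cp_inj.mono (fun v hv => (hΛm v hv).2.1)
    simpa using this
  have hAn : A.filter (fun y => y < d.n) = A := filter_true_of_mem (fun y hy => g.Sp_n (hup.1 hy))
  have hSn : d.Sp.filter (fun y => y < d.n) = d.Sp := filter_true_of_mem (fun y hy => g.Sp_n hy)
  have h4 : Λ1.card ≤ (A.filter (fun x => d.inn x < l ∧ d.rkv d.n x ≤ l)).card +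
      (d.Sp.filter (fun x => d.rkv d.n x ≤ l ∧ d.rkv d.n x ≤ d.PB.card ∧ l ≤ d.inn x)).card := by
    have h5 := card_le_card hup.1
    rw [← d.card_rkv_le d.n Λ1.card (by rw [hSn]; omega)]
    apply card_le2; intro x
    simp only [mem_filter]
    rintro ⟨a, b, e⟩
    have : x ∈ A := d.mem_of_rkv A hup.1 hup.2 a b (by rw [hAn]; omega)
    by_cases f : d.inn x < l
    · left; exact ⟨this, f, by omega⟩
    · right; exact ⟨a, by omega, by omega, by omega⟩
  have h5 : ∀ v ∈ Λ2, l ≤ d.above v ∧ ∃ x ∈ A, x < v ∧ d.rkv v x = d.cp v + l := by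
    intro v hv
    have hv0 := mem_filter.1 hv
    have h6 := hΛm v hv0.1
    have hr : l ≤ (Λ.filter (fun y => y < v)).card := not_lt.1 hv0.2
    constructor
    · refine hr.trans (card_le_card ?_)
      intro u; simp only [mem_filter]; rintro ⟨a, b⟩; exact ⟨(hΛm u a).1, b⟩
    · have hne : (Λ.filter (fun y => y < v)).Nonempty := card_pos.1 (by omega)
      have hu := min'_mem _ hne
      set u := (Λ.filter (fun y => y < v)).min' hne with hudef
      have hu1 := mem_filter.1 hu
      have hu2 := hΛm u hu1.1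
      have h7 := d.cp_btw hu1.2.le
      have h8 : (Λ.filter (fun y => y < v)).card ≤
          (d.Q.filter (fun y => u ≤ y ∧ y < v)).card := by
        apply card_le_card; intro y hy
        have := mem_filter.1 hy
        simp only [mem_filter]
        exact ⟨(hΛm y this.1).2.1, min'_le _ y hy, this.2⟩
      have h9 : (A.filter (fun x => x < u)).card ≤ (A.filter (fun x => x < v)).card := by
        apply card_le_card; intro y; simp only [mem_filter]; rintro ⟨a, b⟩; exact ⟨a, by omega⟩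
      have h10 : (A.filter (fun x => x < v)).card ≤ (d.Sp.filter (fun x => x < v)).card :=
        card_le_card (filter_subset_filter _ hup.1)
      obtain ⟨x, a, b, e⟩ := d.exists_rkv v (d.cp v + l) (by omega) (by omega)
      exact ⟨x, d.mem_of_rkv A hup.1 hup.2 a b (by omega), b, e⟩
  have h6 : (Λ2.filter (fun v => v ∉ d.D ∧ ¬ d.ee v l)).card ≤
      (A.filter (fun x => d.inn x < l ∧ ¬ d.rkv d.n x ≤ l)).card := by
    apply card_le_card_of_forall_subsingleton (fun v x => d.rkv v x = d.cp v + l)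
    · intro v hv
      have hv' := mem_filter.1 hv
      obtain ⟨-, x, a, b, e⟩ := h5 v hv'.1
      refine ⟨x, ?_, e⟩
      simp only [mem_filter]
      have h7 := hΛm v (mem_filter.1 hv'.1).1
      have h8 := d.cp_pos h7.2.1
      have h9 := d.rkv_mono x (d.mem_LL.1 (g.PB_L h7.1).1).1.le
      refine ⟨a, ?_, by omega⟩
      by_contra f
      exact hv'.2.2 ⟨x, hup.1 a, b, e, by omega⟩
    · intro x _ u hu v hv
      have hu1 := hΛm u (mem_filter.1 (mem_filter.1 hu.1).1).1
      have hv1 := hΛm v (mem_filter.1 (mem_filter.1 hv.1).1).1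
      have hu2 := hu.2
      have hv2 := hv.2
      rcases lt_trichotomy u v with e | e | e
      · have := d.cp_lt hu1.2.1 e; have := d.rkv_mono x e.le; omega
      · exact e
      · have := d.cp_lt hv1.2.1 e; have := d.rkv_mono x e.le; omega
  have h7 : Λ2.card ≤ (Λ2.filter (fun v => v ∉ d.D ∧ ¬ d.ee v l)).card +
      ((d.PB \ d.D).filter (fun v => d.ee v l)).card +
      ((d.PB ∩ d.D).filter (fun v => l ≤ d.above v)).card := by
    apply card_le3; intro v hv
    have h8 := (hΛm v (mem_filter.1 hv).1).1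
    have h9 := (h5 v hv).1
    by_cases e1 : v ∈ d.D
    · exact Or.inr (Or.inr (mem_filter.2 ⟨mem_inter.2 ⟨h8, e1⟩, h9⟩))
    · by_cases e2 : d.ee v l
      · exact Or.inr (Or.inl (mem_filter.2 ⟨mem_sdiff.2 ⟨h8, e1⟩, e2⟩))
      · exact Or.inl (mem_filter.2 ⟨hv, e1, e2⟩)
  have h8 : (A.filter (fun x => d.inn x < l ∧ d.rkv d.n x ≤ l)).card +
      (A.filter (fun x => d.inn x < l ∧ ¬ d.rkv d.n x ≤ l)).card ≤
      (A.filter (fun x => d.inn x < l)).card := by
    apply le_card2
    · intro x; simp only [mem_filter]; tauto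
    · intro x; simp only [mem_filter]; tauto
    · intro x; simp only [mem_filter]; tauto
  omega

end Good
end Dat

end Pool.Agent.P.MP_5402c6_co
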