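import Pool.Agent.P.MP_5402c6_co.Cert3

/-! Summing the layers. -/

namespace Pool.Agent.P.MP_5402c6_co

open Finset

namespace Dat
variable (d : Dat)

noncomputable def ho (v x : ℕ) : ℕ := (d.Sp.filter (fun y => x < y ∧ y < v ∧ d.t x < d.t y)).card
noncomputable def hoS (v x : ℕ) : ℕ := (d.SS.filter (fun y => x < y ∧ y < v ∧ d.t x < d.t y)).card
noncomputable def hi (x : ℕ) : ℕ := (d.Sp.filter (fun y => y < x ∧ d.t x < d.t y)).card

lemma rkv_ge {v x : ℕ} (hx : x ∈ d.Sp) (hv : x < v) : 1 + d.hi x + d.ho v x ≤ d.rkv v x := by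
  have : ({x} : Finset ℕ).card + d.hi x + d.ho v x ≤ d.rkv v x := by
    unfold hi ho rkv
    apply le_card3
    · intro y; simp only [mem_singleton, mem_filter]; rintro rfl; exact ⟨hx, hv, le_rfl⟩
    · intro y; simp only [mem_filter]; rintro ⟨a, b, e⟩; exact ⟨a, by omega, e.le⟩
    · intro y; simp only [mem_filter]; rintro ⟨a, b, e, f⟩; exact ⟨a, e, f.le⟩
    · intro y; simp only [mem_singleton, mem_filter]; omega
    · intro y; simp only [mem_singleton, mem_filter]; omega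
    · intro y; simp only [mem_filter]; omega
  simpa using this

variable {d}
namespace Good
variable (g : d.Good)
include g

omit g in
lemma SS_cases {x : ℕ} (hx : x ∈ d.SS) : x ∈ d.Sp ∨ (x ∈ d.N ∧ x ∉ d.Np) := by
  simp only [mem_SS, mem_Sp, mem_Zs, mem_N] at hx ⊢
  by_cases e : x < d.K
  · tauto
  · have : d.K ≤ x := by omega
    tauto

lemma inn_le {x : ℕ} (hx : x ∈ d.Sp) : d.inn x ≤ d.hi x + d.pp x := by
  have h1 := g.Sp_S hx
  have := g.hπn
  unfold Cfg.inn hi pp Cfg.p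
  apply card_le2; intro y
  simp only [mem_filter, mem_range, Cfg.mem_L]
  rintro ⟨a, b⟩
  by_cases e : d.lg y
  · right; exact ⟨⟨by omega, Or.inr e⟩, a.le⟩
  · left
    have h2 := d.t_lt_ss e b
    refine ⟨?_, a, h2⟩
    rcases SS_cases (d.mem_SS.2 ⟨by omega, e⟩ : y ∈ d.SS) with h | h
    · exact h
    · rcases d.mem_Sp.1 hx with h3 | h3
      · have := d.mem_Zs.1 h3; have := d.mem_N.1 h.1; omega
      · have := g.hNp2 x h3 y h.1 h.2; omega

lemma unb {v x : ℕ} (hx : x ∈ d.Sp) (hv : v ∈ d.LL)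
    (h : d.hoS v x + d.pp v ≤ d.K + d.pp x) : ¬ d.blocked x v := by
  intro hb
  have h1 := g.Sp_S hx
  have h2 := d.p_btw d.π hv hb.1
  have h3 : d.btw x v ≤ d.hoS v x + ((d.L d.π).filter (fun u => x < u ∧ u < v)).card := by
    unfold Cfg.btw hoS
    apply card_le2; intro y
    have := (d.mem_LL.1 hv).1
    simp only [mem_filter, mem_Ioo, Cfg.mem_L, mem_SS]
    rintro ⟨a, b⟩
    by_cases e : d.π ≤ y ∨ d.lg y
    · right; exact ⟨⟨by omega, e⟩, a⟩
    · left
      push Not at e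
      exact ⟨e, a.1, a.2, d.t_lt_ss e.2 b⟩
  have := hb.2.2
  unfold pp at h; omega

lemma hoS_le (v x : ℕ) : d.hoS v x ≤ d.ho v x + d.V.card := by
  have h1 : d.hoS v x ≤ d.ho v x + (d.N \ d.Np).card := by
    unfold hoS ho
    apply card_le2; intro y; simp only [mem_filter, mem_sdiff]
    rintro ⟨a, b⟩
    rcases SS_cases a with h | h <;> tauto
  have := card_sdiff_add_card_eq_card g.hNp
  have := g.hNp1; unfold bo at this; omega

lemma hoS_cases {v x : ℕ} (hx : x ∈ d.Sp) (hv : d.π ≤ v) : d.hoS v x ≤ d.ho v x ∨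
    (0 < d.V.card ∧ d.Np.card ≤ d.ho v x ∧ d.pp x ≤ d.U0) := by
  by_cases e : ∃ y ∈ d.N, y ∉ d.Np ∧ d.t x < d.t y
  · right
    obtain ⟨y, a, b, e⟩ := e
    have h1 : x ∈ d.Zs := by
      rcases d.mem_Sp.1 hx with h | h
      · exact h
      · have := g.hNp2 x h y a b; omega
    have h2 := d.mem_Zs.1 h1
    refine ⟨?_, ?_, d.p_le_J' g.hKπ h2.1⟩
    · have h3 : (insert y d.Np).card ≤ d.N.card := by
        apply card_le_card; intro u hu
        rcases mem_insert.1 hu with h | h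
        · rw [h]; exact a
        · exact g.hNp h
      rw [card_insert_of_notMem b] at h3
      have := g.hNp1; unfold bo at this; omega
    · unfold ho; apply card_le_card; intro u hu
      have := d.mem_N.1 (g.hNp hu); have := g.hNp2 u hu y a b
      simp only [mem_filter, mem_Sp]
      exact ⟨Or.inr hu, by omega, by omega, by omega⟩
  · left
    unfold hoS ho; apply card_le_card; intro y; simp only [mem_filter]
    rintro ⟨a, b⟩
    rcases SS_cases a with h | h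
    · exact ⟨h, b⟩
    · exact absurd ⟨y, h.1, h.2, b.2.2⟩ e

lemma unb_Q {v x : ℕ} (hx : x ∈ d.Sp) (hv : v ∈ d.Q) (hxv : x < v)
    (h : d.rkv v x ≤ d.cp v + d.inn x) : ¬ d.blocked x v := by
  have h1 := d.rkv_ge hx hxv
  have h2 := g.inn_le hx
  apply g.unb hx (g.Q_L hv).1
  rcases d.mem_Q.1 hv with hW | hN
  · have := g.cp_pp hv
    rcases g.hoS_cases hx (g.W_π hW) with h3 | h3
    · omega
    · have := g.cp_W hW; have := g.cW; have := g.hNp1; have := card_pos.2 ⟨v, hW⟩; omega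
  · have := g.cp_NL hN; have := g.hoS_le v x; omega

lemma Aa_Q {v : ℕ} (hv : v ∈ d.Q) : d.nv v + d.cp v + d.Ev v ≤ d.Aa v := by
  have h1 : d.cp v ≤ (d.Sp.filter (fun y => y < v)).card :=
    (g.full_used hv).trans (card_le_card (filter_subset_filter _ g.hUs))
  rw [← d.card_rkv_le v (d.cp v) h1]
  unfold nv Ev Aa
  apply le_card3
  · intro x; simp only [mem_filter, Cfg.blocked]; rintro ⟨a, b⟩; exact ⟨a, by omega⟩
  · intro x; simp only [mem_filter]; rintro ⟨a, b, e⟩; exact ⟨a, g.unb_Q a hv b (by omega)⟩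
  · intro x; simp only [mem_filter]; rintro ⟨a, b, e, f⟩; exact ⟨a, g.unb_Q a hv b f⟩
  · intro x; simp only [mem_filter]; omega
  · intro x; simp only [mem_filter]; omega
  · intro x; simp only [mem_filter]; omega

lemma M_π {v : ℕ} (hv : v ∈ d.M) : d.π ≤ v := by
  have h1 := d.mem_M.1 hv
  have := g.Jπ_iff h1.1; have := g.hU; omega

lemma Aa_M {m : ℕ} (hm : m ∈ d.M) :
    (d.Sp.filter (fun x => d.rkv d.n x + d.pp m ≤ d.inn x + d.K + 1)).card ≤ d.Aa m := by
  unfold Aa; apply card_le_card; intro x; simp only [mem_filter]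
  rintro ⟨hx, h⟩
  refine ⟨hx, ?_⟩
  have h0 := d.mem_M.1 hm
  have hπ := g.M_π hm
  have h3 : x < m := by have := g.Sp_S hx; omega
  have h1 := d.rkv_ge hx h3
  have h4 := d.rkv_mono x (d.mem_LL.1 h0.1).1.le
  have h2 := g.inn_le hx
  apply g.unb hx h0.1
  rcases g.hoS_cases hx hπ with h5 | h5
  · omega
  · have := g.hj; have := g.hNp1; omega

lemma Fcharge {x : ℕ} (hx : x ∈ d.Sp) :
    ((Icc 1 d.K).filter (fun l => d.rkv d.n x ≤ l ∧ d.rkv d.n x ≤ d.PB.card ∧ l ≤ d.inn x)).card ≤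
      (d.M.filter (fun m => d.rkv d.n x ≤ d.PB.card ∧
        d.rkv d.n x + d.pp m ≤ d.inn x + d.K + 1)).card + (d.Jh.filter (fun v => v < x)).card := by
  by_cases e : d.rkv d.n x ≤ d.PB.card
  · have h1 : ((Icc 1 d.K).filter (fun l => d.rkv d.n x ≤ l ∧ d.rkv d.n x ≤ d.PB.card ∧
        l ≤ d.inn x)).card ≤ (Icc (d.rkv d.n x) (d.inn x)).card := by
      apply card_le_card; intro l; simp only [mem_filter, mem_Icc]; tauto
    rw [Nat.card_Icc] at h1
    have h2 := g.card_pp d.K (min (d.K + d.U0) (d.inn x + d.K + 1 - d.rkv d.n x)) (by omega)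
    have h3 : (d.LL.filter (fun v => d.K < d.pp v ∧
        d.pp v ≤ min (d.K + d.U0) (d.inn x + d.K + 1 - d.rkv d.n x))).card ≤
        (d.M.filter (fun m => d.rkv d.n x ≤ d.PB.card ∧
        d.rkv d.n x + d.pp m ≤ d.inn x + d.K + 1)).card := by
      apply card_le_card; intro m; simp only [mem_filter, mem_M]
      rintro ⟨a, b, f⟩; exact ⟨⟨a, b, by omega⟩, e, by omega⟩
    have h4 := d.rkv_ge hx (g.Sp_n hx)
    have h5 := g.inn_le hx
    have h6 : d.pp x ≤ d.U0 + (d.Jh.filter (fun v => v < x)).card := by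
      unfold pp Cfg.p U0
      have h7 := g.Sp_S hx
      apply card_le2; intro y; simp only [mem_filter, Cfg.mem_L, mem_J0, mem_Jh]
      rintro ⟨⟨a, b | b⟩, f⟩
      · omega
      · have : y ≠ x := by rintro rfl; exact h7.2 b
        by_cases h8 : y < d.K
        · left; exact ⟨h8, b⟩
        · right; exact ⟨⟨by omega, by omega, b⟩, by omega⟩
    omega
  · simp [e]

lemma Ev_ge (v : ℕ) : ((Icc 1 d.K).filter (fun l => d.ee v l)).card ≤ d.Ev v := by
  unfold Ev
  apply card_le_card_of_forall_subsingleton (fun l x => d.rkv v x = d.cp v + l)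
  · intro l hl
    simp only [mem_filter, mem_Icc] at hl
    obtain ⟨x, a, b, e, f⟩ := hl.2
    exact ⟨x, by simp only [mem_filter]; exact ⟨a, b, by omega, by omega⟩, e⟩
  · intro x _ a ha b hb
    have := ha.2; have := hb.2; omega

lemma PB_lt_M {u m : ℕ} (hu : u ∈ d.PB) (hm : m ∈ d.M) : u < m := by
  have := g.PB_L hu; have := d.mem_M.1 hm; exact d.lt_pp (by omega)

lemma Au_split : d.Au = (d.Au ∩ d.Q) ∪ (d.M \ d.D) ∧ Disjoint (d.Au ∩ d.Q) (d.M \ d.D) := by
  constructor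
  · ext v
    simp only [mem_union, mem_inter, mem_sdiff]
    constructor
    · intro hv
      rcases d.mem_Au.1 hv with h | h
      · have h1 := d.mem_H.1 h
        rcases d.mem_P.1 h1.1 with h2 | h2 | h2
        · exact Or.inl ⟨hv, d.mem_Q.2 (Or.inl h2)⟩
        · exact Or.inl ⟨hv, d.mem_Q.2 (Or.inr (d.mem_Y.1 h2).1)⟩
        · right; rw [mem_D]; tauto
      · exact Or.inl ⟨hv, d.mem_Q.2 (Or.inr (g.hR h.1))⟩
    · rintro (h | ⟨h1, h2⟩)
      · exact h.1
      · have : v ∈ d.P := d.mem_P.2 (by tauto)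
        rw [mem_D] at h2
        exact d.mem_Au.2 (Or.inl (d.mem_H.2 (by tauto)))
  · rw [disjoint_left]; intro v h1 h2
    have := g.Q_L (mem_inter.1 h1).2; have := d.mem_M.1 (mem_sdiff.1 h2).1; omega

lemma gamma : ∑ v ∈ d.Au ∩ d.Q, (d.cp v : ℤ) - ∑ v ∈ d.D, (d.above v : ℤ) ≤
    ∑ v ∈ d.Au, (d.Aa v : ℤ) - ∑ v ∈ d.PB, (d.lam v : ℤ) + ∑ x ∈ d.Us, (d.Gx x : ℤ) := by
  have h0 := sum_le_sum (s := Icc 1 d.K) (fun l hl => Int.ofNat_le.2 (g.glayer l (mem_Icc.1 hl).1))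
  push_cast at h0
  rw [sum_add_distrib, sum_add_distrib, sum_add_distrib] at h0
  have h1 := sum_card_swap (Icc 1 d.K) d.PB
    (fun l v => d.cp v ≤ ((d.Al l).filter (fun x => x < v)).card)
  have h2 : ∑ l ∈ Icc 1 d.K, (((d.Al l).filter (fun x => d.inn x < l)).card : ℤ) =
      ∑ x ∈ d.Us, (d.Gx x : ℤ) := by
    unfold Gx
    rw [← sum_card_swap (Icc 1 d.K) d.Us (fun l x => d.inn x < l ∧ l ≤ d.lx x)]
    refine sum_congr rfl (fun l _ => ?_)
    unfold Al; rw [filter_filter]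
    congr 2; apply filter_congr; intro x _; tauto
  have h3 : ∑ l ∈ Icc 1 d.K, (((d.PB \ d.D).filter (fun v => d.ee v l)).card : ℤ) ≤
      ∑ v ∈ d.Au ∩ d.Q, (d.Ev v : ℤ) := by
    rw [sum_card_swap (Icc 1 d.K) (d.PB \ d.D) (fun l v => d.ee v l)]
    refine (sum_le_sum (fun v _ => Int.ofNat_le.2 (g.Ev_ge v))).trans ?_
    apply sum_le_sum_of_subset_of_nonneg
    · intro v hv
      have h4 := mem_sdiff.1 hv
      refine mem_inter.2 ⟨?_, (g.PB_L h4.1).2.2.2⟩
      have h5 := h4.2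
      rw [mem_D] at h5
      rcases d.mem_PB.1 h4.1 with h | h | h
      · have : v ∈ d.P := d.mem_P.2 (by tauto)
        exact d.mem_Au.2 (Or.inl (d.mem_H.2 (by tauto)))
      · have : v ∈ d.P := d.mem_P.2 (by tauto)
        exact d.mem_Au.2 (Or.inl (d.mem_H.2 (by tauto)))
      · exact g.Jh_Au (d.mem_Om.1 h).2.1
    · intro v _ _; positivity
  have h4 : ∑ l ∈ Icc 1 d.K, (((d.PB ∩ d.D).filter (fun v => l ≤ d.above v)).card : ℤ) ≤
      ∑ v ∈ d.PB ∩ d.D, (d.above v : ℤ) := by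
    rw [sum_card_swap (Icc 1 d.K) (d.PB ∩ d.D) (fun l v => l ≤ d.above v)]
    refine sum_le_sum (fun v _ => Int.ofNat_le.2 ?_)
    have : ((Icc 1 d.K).filter (fun l => l ≤ d.above v)).card ≤ (Icc 1 (d.above v)).card := by
      apply card_le_card; intro l; simp only [mem_filter, mem_Icc]; tauto
    simpa using this
  have h5 : ∑ l ∈ Icc 1 d.K, ((d.Sp.filter (fun x => d.rkv d.n x ≤ l ∧
      d.rkv d.n x ≤ d.PB.card ∧ l ≤ d.inn x)).card : ℤ) ≤
      ∑ m ∈ d.M \ d.D, (d.Aa m : ℤ) + ∑ m ∈ d.M ∩ d.D, (d.above m : ℤ) +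
      ∑ v ∈ d.Au ∩ d.Q, (d.nv v : ℤ) := by
    rw [sum_card_swap (Icc 1 d.K) d.Sp
      (fun l x => d.rkv d.n x ≤ l ∧ d.rkv d.n x ≤ d.PB.card ∧ l ≤ d.inn x)]
    have h6 := sum_le_sum (s := d.Sp) (fun x hx => Int.ofNat_le.2 (g.Fcharge hx))
    push_cast at h6
    rw [sum_add_distrib, sum_card_swap d.Sp d.M (fun x m => d.rkv d.n x ≤ d.PB.card ∧
        d.rkv d.n x + d.pp m ≤ d.inn x + d.K + 1), sum_card_swap d.Sp d.Jh (fun x v => v < x),
        ← sum_inter_add_sum_sdiff d.M d.D] at h6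
    have h7 : ∑ v ∈ d.Jh, ((d.Sp.filter (fun x => v < x)).card : ℤ) ≤
        ∑ v ∈ d.Au ∩ d.Q, (d.nv v : ℤ) := by
      apply sum_le_sum_of_subset_of_nonneg
      · intro v hv; exact mem_inter.2 ⟨g.Jh_Au hv, d.mem_Q.2 (Or.inr (g.Jh_NL hv))⟩
      · intro v _ _; positivity
    have h8 : ∑ m ∈ d.M \ d.D, ((d.Sp.filter (fun x => d.rkv d.n x ≤ d.PB.card ∧
        d.rkv d.n x + d.pp m ≤ d.inn x + d.K + 1)).card : ℤ) ≤ ∑ m ∈ d.M \ d.D, (d.Aa m : ℤ) := by
      refine sum_le_sum (fun m hm => Int.ofNat_le.2 (le_trans (card_le_card ?_)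
        (g.Aa_M (mem_sdiff.1 hm).1)))
      intro x; simp only [mem_filter]; tauto
    have h9 : ∑ m ∈ d.M ∩ d.D, ((d.Sp.filter (fun x => d.rkv d.n x ≤ d.PB.card ∧
        d.rkv d.n x + d.pp m ≤ d.inn x + d.K + 1)).card : ℤ) ≤
        ∑ m ∈ d.M ∩ d.D, (d.above m : ℤ) := by
      refine sum_le_sum (fun m hm => Int.ofNat_le.2 ?_)
      have e1 : d.above m = d.PB.card := by
        unfold above; congr 1
        exact filter_true_of_mem (fun u hu => g.PB_lt_M hu (mem_inter.1 hm).1)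
      rw [e1]
      have e2 : (d.Sp.filter (fun x => d.rkv d.n x ≤ d.PB.card ∧
          d.rkv d.n x + d.pp m ≤ d.inn x + d.K + 1)).card ≤ (Icc 1 d.PB.card).card := by
        apply card_le_card_of_injOn (d.rkv d.n)
        · intro x hx
          simp only [coe_filter, Set.mem_ofPred_eq] at hx
          have := d.rkv_ge hx.1 (g.Sp_n hx.1)
          simp only [coe_Icc, Set.mem_Icc]; omega
        · intro x hx y hy h
          simp only [coe_filter, Set.mem_ofPred_eq] at hx hy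
          rw [d.rkv_eq hx.1 (g.Sp_n hx.1), d.rkv_eq hy.1 (g.Sp_n hy.1)] at h
          exact rk_injOn (β := ℕᵒᵈ) (d.Sp.filter (fun y => y < d.n))
            (fun y => OrderDual.toDual (d.t y)) (d.tdual_inj _) (by simp [hx.1, g.Sp_n hx.1])
            (by simp [hy.1, g.Sp_n hy.1]) (by omega)
      simpa using e2
    linarith
  have h6 : ∑ v ∈ d.Au, (d.Aa v : ℤ) =
      ∑ v ∈ d.Au ∩ d.Q, (d.Aa v : ℤ) + ∑ v ∈ d.M \ d.D, (d.Aa v : ℤ) := by
    rw [← sum_union g.Au_split.2, ← g.Au_split.1]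
  have h7 := sum_le_sum (s := d.Au ∩ d.Q) (fun v hv => Int.ofNat_le.2 (g.Aa_Q (mem_inter.1 hv).2))
  push_cast at h7
  rw [sum_add_distrib, sum_add_distrib] at h7
  have h8 : ∑ v ∈ d.PB ∩ d.D, (d.above v : ℤ) + ∑ m ∈ d.M ∩ d.D, (d.above m : ℤ) ≤
      ∑ v ∈ d.D, (d.above v : ℤ) := by
    rw [← sum_union]
    · apply sum_le_sum_of_subset_of_nonneg
      · intro v; simp only [mem_union, mem_inter]; tauto
      · intro v _ _; positivity
    · rw [disjoint_left]; intro v h1 h2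
      have := g.PB_lt_M (mem_inter.1 h1).1 (mem_inter.1 h2).1; omega
  unfold lam
  linarith

end Good
end Dat

end Pool.Agent.P.MP_5402c6_co
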