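import Pool.Agent.P.MP_5402c6_co.Cert4

/-! Assembling the main certificate. -/

namespace Pool.Agent.P.MP_5402c6_co

open Finset

namespace Dat
variable (d : Dat)

noncomputable def dbl (v : ℕ) : ℕ := ((d.D ∩ d.Q).filter (fun u => u < v)).card
noncomputable def incP (v : ℕ) : ℕ := (d.P.filter (fun u => v < u ∧ d.key v < d.key u)).card
noncomputable def decP (v : ℕ) : ℕ := (d.P.filter (fun u => u < v ∧ d.key v < d.key u)).card
noncomputable def J0R : Finset ℕ := d.J0.filter (fun z => d.Low z)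
noncomputable def mu : ℕ := if d.J0R = ∅ then 0 else min d.U0 d.bo

variable {d}
namespace Good
variable (g : d.Good)
include g

lemma outC_le {v : ℕ} (hv : v ∈ d.P) :
    d.outC v ≤ d.incP v + (if v ∈ d.Y then d.V.card else 0) := by
  have hv1 := g.P_L hv
  have key : ∀ u ∈ d.CC, v < u → d.key v < d.key u → u ∈ d.P ∨ (v ∈ d.Y ∧ u ∈ d.V) := by
    intro u hu h1 h2
    have h3 := d.mem_CC.1 hu
    have h4 := d.pp_lt h3.1 h1
    rcases mid_cases h3.1 (by omega) h3.2 with h | h | h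
    · exact Or.inl h
    · right
      refine ⟨?_, h⟩
      have h5 := d.mem_Loc.1 (g.hV h)
      rcases d.mem_P.1 hv with e | e | e
      · have := d.mem_W.1 e; have := g.hV2 u h v this.1 this.2; omega
      · exact e
      · have := d.mem_M.1 e; omega
    · have h5 := d.mem_NL.1 (g.hR h)
      have h6 : v ∈ d.NL := d.mem_NL.2 ⟨hv1.1, hv1.2.1, by omega, by omega⟩
      have := g.hR2 u h v h6 hv1.2.2.2.2; omega
  unfold outC incP
  by_cases e : v ∈ d.Y
  · rw [if_pos e]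
    apply card_le2; intro u; simp only [mem_filter]
    rintro ⟨a, b, f⟩
    have := key u a b f; tauto
  · rw [if_neg e, add_zero]
    apply card_le_card; intro u; simp only [mem_filter]
    rintro ⟨a, b, f⟩
    have := key u a b f; tauto

lemma uF_H {v : ℕ} (hv : v ∈ d.H) :
    d.uF v ≤ d.decP v + (if v ∈ d.M then d.V.card else 0) := by
  have hv0 := d.mem_H.1 hv
  have hv1 := g.P_L hv0.1
  have key : ∀ u ∈ d.LL, d.U0 < d.pp u → u < v → d.key v < d.key u →
      u ∈ d.P ∨ (v ∈ d.M ∧ u ∈ d.V) := by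
    intro u hu h0 h1 h2
    have h4 := d.pp_lt hv1.1 h1
    rcases mid_cases hu h0 (by omega) with h | h | h
    · exact Or.inl h
    · right
      refine ⟨?_, h⟩
      have h5 := d.mem_Loc.1 (g.hV h)
      rcases d.mem_P.1 hv0.1 with e | e | e
      · have := d.mem_W.1 e; have := g.hV2 u h v this.1 this.2; omega
      · have := d.mem_NL.1 (d.mem_Y.1 e).1; omega
      · exact e
    · exact absurd ⟨u, h, h2⟩ hv0.2.2
  unfold uF decP
  by_cases e : v ∈ d.M
  · rw [if_pos e]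
    apply card_le2; intro u; simp only [mem_filter]
    rintro ⟨a, b, f, h⟩
    have := key u a b f h; tauto
  · rw [if_neg e, add_zero]
    apply card_le_card; intro u; simp only [mem_filter]
    rintro ⟨a, b, f, h⟩
    have := key u a b f h; tauto

lemma uF_R {v : ℕ} (hv : v ∈ d.Jh) : d.uF v + d.U0 + 1 ≤ d.pp v := by
  have h1 := g.Jh_L hv
  have h2 := g.hU
  have h3 := g.card_pp d.U0 (d.pp v - 1) (by omega)
  have : d.uF v ≤ (d.LL.filter (fun u => d.U0 < d.pp u ∧ d.pp u ≤ d.pp v - 1)).card := by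
    unfold uF; apply card_le_card; intro u; simp only [mem_filter]
    rintro ⟨a, b, e, -⟩
    have := d.pp_lt h1.1 e
    exact ⟨a, b, by omega⟩
  omega

lemma above_le {v : ℕ} (hv : v ∈ d.D) : d.above v ≤ d.decP v + d.dbl v + d.Om.card := by
  unfold above decP dbl
  apply card_le3; intro u; simp only [mem_filter, mem_inter]
  rintro ⟨a, b⟩
  have hQ := (g.PB_L a).2.2.2
  by_cases e : u ∈ d.Om
  · tauto
  have hP : u ∈ d.P := by rw [mem_PB] at a; rw [mem_P]; tauto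
  by_cases e2 : u ∈ d.D
  · tauto
  · left
    rw [mem_D] at e2
    exact ⟨hP, b, g.H_above_D (d.mem_H.2 (by tauto)) hv⟩

omit g in
lemma sum_P (f : ℕ → ℤ) : ∑ v ∈ d.P, f v = ∑ v ∈ d.D, f v + ∑ v ∈ d.H, f v := by
  rw [← sum_filter_add_sum_filter_not d.P (fun v => ¬ d.lg v ∨ d.Low v)]
  congr 2
  apply filter_congr; intro v _; tauto

lemma sum_Au (f : ℕ → ℤ) : ∑ v ∈ d.Au, f v = ∑ v ∈ d.H, f v + ∑ v ∈ d.R ∩ d.Jh, f v := by
  unfold Au; apply sum_union
  rw [disjoint_left]; intro v h1 h2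
  exact (g.P_L (d.mem_H.1 h1).1).2.2.2.2 (mem_inter.1 h2).1

lemma Ch : 2 * (∑ v ∈ d.P, (d.outC v : ℤ) + ∑ v ∈ d.Au, (d.uF v : ℤ) +
    ∑ v ∈ d.D, (d.above v : ℤ)) ≤ (d.P.card : ℤ) * (d.P.card - 1) +
    2 * (d.V.card * (d.Y.card + d.U0)) + 2 * ∑ v ∈ d.R ∩ d.Jh, ((d.pp v : ℤ) - d.U0 - 1) +
    2 * (d.Om.card * d.D.card) + 2 * ∑ v ∈ d.D, (d.dbl v : ℤ) := by
  have h1 := sum_le_sum (s := d.P) (fun v hv => Int.ofNat_le.2 (g.outC_le hv))
  have h2 := sum_le_sum (s := d.H) (fun v hv => Int.ofNat_le.2 (g.uF_H hv))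
  have h3 := sum_le_sum (s := d.D) (fun v hv => Int.ofNat_le.2 (g.above_le hv))
  have h4 : ∑ v ∈ d.R ∩ d.Jh, (d.uF v : ℤ) ≤ ∑ v ∈ d.R ∩ d.Jh, ((d.pp v : ℤ) - d.U0 - 1) :=
    sum_le_sum (fun v hv => by have := g.uF_R (mem_inter.1 hv).2; omega)
  push_cast at h1 h2 h3
  rw [sum_add_distrib] at h1 h2
  rw [sum_add_distrib, sum_add_distrib, sum_const] at h3
  rw [← sum_filter, sum_const] at h1 h2
  have h5 : (d.P.filter (fun v => v ∈ d.Y)).card ≤ d.Y.card :=
    card_le_card (fun v hv => (mem_filter.1 hv).2)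
  have h6 : (d.H.filter (fun v => v ∈ d.M)).card ≤ d.M.card :=
    card_le_card (fun v hv => (mem_filter.1 hv).2)
  rw [g.cM] at h6
  have h7 : ∑ v ∈ d.P, ((d.incP v : ℤ) + d.decP v) ≤
      ∑ v ∈ d.P, ((d.P.filter (fun u => d.key v < d.key u)).card : ℤ) := by
    refine sum_le_sum (fun v _ => ?_)
    have : d.incP v + d.decP v ≤ (d.P.filter (fun u => d.key v < d.key u)).card := by
      unfold incP decP
      apply le_card2
      · intro u; simp only [mem_filter]; tauto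
      · intro u; simp only [mem_filter]; tauto
      · intro u; simp only [mem_filter]; omega
    omega
  have h8 := sum_above d.P d.key d.kinj.injOn
  rw [sum_add_distrib, sum_P (fun v => (d.decP v : ℤ))] at h7
  rw [g.sum_Au]
  simp only [nsmul_eq_mul] at h1 h2 h3
  have h9 : ((d.P.filter (fun v => v ∈ d.Y)).card : ℤ) * d.V.card ≤ d.Y.card * d.V.card :=
    mul_le_mul_of_nonneg_right (by exact_mod_cast h5) (by positivity)
  have h10 : ((d.H.filter (fun v => v ∈ d.M)).card : ℤ) * d.V.card ≤ d.U0 * d.V.card :=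
    mul_le_mul_of_nonneg_right (by exact_mod_cast h6) (by positivity)
  nlinarith

lemma DY_empty (h : d.J0R ≠ ∅) {v : ℕ} (hv : v ∈ d.D) : v ∉ d.Y := by
  intro hY
  obtain ⟨z, hz⟩ := nonempty_iff_ne_empty.2 h
  have hz1 := mem_filter.1 hz
  obtain ⟨q, hq, hk⟩ := hz1.2
  have h1 := d.mem_Y.1 hY
  have h2 := g.hR2 q hq v h1.1 h1.2
  have h3 := d.lg_of_lt (d.mem_J0.1 hz1.1).2 (hk.trans h2)
  rcases (d.mem_D.1 hv).2 with e | ⟨q', hq', e⟩
  · exact e h3
  · have := g.hR2 q' hq' v h1.1 h1.2; omega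

lemma DQ_cp {v : ℕ} (hv : v ∈ d.D ∩ d.Q) : d.cp v + d.mu ≤ d.Np.card := by
  have h0 := mem_inter.1 hv
  have h1 := d.mem_D.1 h0.1
  have h2 := g.hNp1
  have hW : v ∈ d.W → d.cp v + d.mu ≤ d.Np.card := by
    intro hW
    have := g.cp_W hW; have := g.cW; have := card_pos.2 ⟨v, hW⟩
    unfold mu; split_ifs <;> omega
  rcases d.mem_P.1 h1.1 with e | e | e
  · exact hW e
  · have h3 : d.J0R = ∅ := by
      by_contra h; exact g.DY_empty h h0.1 e
    have h4 := d.mem_Y.1 e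
    have h5 := g.cp_NL h4.1
    unfold mu; rw [if_pos h3]
    rcases h1.2 with f | ⟨q, hq, f⟩
    · rcases g.hforce v h4.1 h4.2 with f2 | f2
      · exact absurd f2 f
      · omega
    · have := g.hR2 q hq v h4.1 h4.2; omega
  · have := d.mem_M.1 e; have := g.Q_L h0.2; omega

lemma mu_le : d.mu ≤ d.Np.card := by
  have := g.hNp1; have := g.hj
  unfold mu; split_ifs <;> omega

lemma gain_Q {v : ℕ} (hv : v ∈ d.D ∩ d.Q) : d.dbl v + d.cp v + d.mu ≤ d.Np.card := by
  have h1 := g.DQ_cp hv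
  have : d.dbl v ≤ (Ioc (d.cp v) (d.Np.card - d.mu)).card := by
    unfold dbl
    apply card_le_card_of_injOn d.cp
    · intro u hu
      have h2 := mem_filter.1 (mem_coe.1 hu)
      have := g.DQ_cp h2.1
      have := d.cp_lt (mem_inter.1 h2.1).2 h2.2
      simp only [coe_Ioc, Set.mem_Ioc]; omega
    · exact d.cp_inj.mono (fun u hu => (mem_inter.1 (mem_filter.1 (mem_coe.1 hu)).1).2)
  rw [Nat.card_Ioc] at this; omega

lemma gain_all (v : ℕ) : d.dbl v + d.mu ≤ d.Np.card := by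
  have h1 := g.mu_le
  have : d.dbl v ≤ (Ioc 0 (d.Np.card - d.mu)).card := by
    unfold dbl
    apply card_le_card_of_injOn d.cp
    · intro u hu
      have h2 := mem_filter.1 (mem_coe.1 hu)
      have := g.DQ_cp h2.1
      have := d.cp_pos (mem_inter.1 h2.1).2
      simp only [coe_Ioc, Set.mem_Ioc]; omega
    · exact d.cp_inj.mono (fun u hu => (mem_inter.1 (mem_filter.1 (mem_coe.1 hu)).1).2)
  rw [Nat.card_Ioc] at this; omega

lemma gains : ∑ v ∈ d.D, (d.dbl v : ℤ) + ∑ v ∈ d.D ∩ d.Q, (d.cp v : ℤ) + d.D.card * d.mu ≤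
    d.D.card * d.Np.card := by
  have h1 : ∑ v ∈ d.D, ((d.dbl v : ℤ) + (if v ∈ d.Q then (d.cp v : ℤ) else 0) + d.mu) ≤
      ∑ v ∈ d.D, (d.Np.card : ℤ) := by
    refine sum_le_sum (fun v hv => ?_)
    split_ifs with e
    · have := g.gain_Q (mem_inter.2 ⟨hv, e⟩); omega
    · have := g.gain_all v; omega
  rw [sum_add_distrib, sum_add_distrib, sum_const, sum_const, ← sum_filter, filter_mem_eq_inter] at h1
  simpa using h1

lemma bilin : 0 ≤ (d.J0R.card : ℤ) * (d.bb - d.R.card - d.D.card) + d.D.card * d.mu := by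
  by_cases h : d.J0R = ∅
  · simp [h, mu]
  have h1 : d.R.card + d.U0 ≤ d.bb + min d.U0 d.bo := by
    rcases g.hJ0R with e | e
    · obtain ⟨z, hz⟩ := nonempty_iff_ne_empty.2 h
      have := mem_filter.1 hz
      exact absurd this.2 (e z this.1)
    · exact e
  have h2 : d.J0R.card ≤ d.U0 := card_filter_le _ _
  have h3 : d.D.card ≤ d.W.card + d.M.card := by
    apply card_le2; intro v hv
    have := g.DY_empty h hv
    have := d.mem_P.1 (d.mem_D.1 hv).1
    tauto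
  have h4 := g.cW
  rw [g.cM] at h3
  unfold mu; rw [if_neg h]
  rcases le_total d.U0 d.bo with e | e
  · rw [min_eq_left e] at h1 ⊢
    have a1 : (0 : ℤ) ≤ d.bb - d.R.card := by omega
    have a2 : (0 : ℤ) ≤ d.U0 - d.J0R.card := by omega
    nlinarith [mul_nonneg (Int.natCast_nonneg d.J0R.card) a1,
      mul_nonneg (Int.natCast_nonneg d.D.card) a2]
  · rw [min_eq_right e] at h1 ⊢
    have a1 : (0 : ℤ) ≤ d.bb - d.R.card - (d.U0 - d.bo) := by omega
    have a2 : (0 : ℤ) ≤ d.U0 - d.J0R.card := by omega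
    have a3 : (0 : ℤ) ≤ d.U0 - d.D.card := by omega
    rcases le_total (d.J0R.card : ℤ) d.bo with f | f
    · have a4 : (0 : ℤ) ≤ d.bb - d.R.card := by omega
      nlinarith [mul_nonneg (Int.natCast_nonneg d.J0R.card) a4,
        mul_nonneg (Int.natCast_nonneg d.D.card) (sub_nonneg.2 f)]
    · nlinarith [mul_nonneg (Int.natCast_nonneg d.J0R.card) a1,
        mul_nonneg a3 (sub_nonneg.2 f), mul_nonneg (Int.natCast_nonneg d.bo) a2]

lemma sum_cp : 2 * ∑ v ∈ d.Q, (d.cp v : ℤ) = (d.Q.card : ℤ) * (d.Q.card + 1) := by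
  have h1 := sum_above d.Q (fun v => v) (fun _ _ _ _ h => h)
  have h2 : ∀ v ∈ d.Q, (d.cp v : ℤ) = ((d.Q.filter (fun u => v < u)).card : ℤ) + 1 := by
    intro v hv
    have : d.cp v = (insert v (d.Q.filter (fun u => v < u))).card := by
      unfold cp; congr 1; ext u; simp only [mem_filter, mem_insert]
      constructor
      · rintro ⟨a, b⟩
        rcases b.lt_or_eq with e | e
        · exact Or.inr ⟨a, e⟩
        · exact Or.inl e.symm
      · rintro (e | e)
        · subst e; exact ⟨hv, le_rfl⟩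
        · exact ⟨e.1, e.2.le⟩
    rw [this, card_insert_of_notMem (by simp)]; push_cast; ring
  rw [sum_congr rfl h2, sum_add_distrib]
  simp only [sum_const, nsmul_eq_mul, mul_one]
  linarith

lemma Q_split : ∑ v ∈ d.Q, (d.cp v : ℤ) ≤ ∑ v ∈ d.Au ∩ d.Q, (d.cp v : ℤ) +
    ∑ v ∈ d.D ∩ d.Q, (d.cp v : ℤ) + ∑ v ∈ d.R \ d.Jh, (d.cp v : ℤ) := by
  have h1 : d.Q ⊆ (d.Au ∩ d.Q) ∪ (d.D ∩ d.Q) ∪ (d.R \ d.Jh) := by
    intro v hv
    have h2 := g.Q_L hv
    simp only [mem_union, mem_inter, mem_sdiff]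
    rcases mid_cases h2.1 h2.2.1 (by omega) with h | h | h
    · by_cases e : v ∈ d.D
      · tauto
      · rw [mem_D] at e
        have : v ∈ d.Au := d.mem_Au.2 (Or.inl (d.mem_H.2 (by tauto)))
        tauto
    · exact absurd h h2.2.2.2
    · by_cases e : v ∈ d.Jh
      · have := g.Jh_Au e; tauto
      · tauto
  have hu : ∀ a b : Finset ℕ, ∑ v ∈ a ∪ b, (d.cp v : ℤ) ≤
      ∑ v ∈ a, (d.cp v : ℤ) + ∑ v ∈ b, (d.cp v : ℤ) := by
    intro a b
    rw [← sum_union_inter]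
    have : 0 ≤ ∑ v ∈ a ∩ b, (d.cp v : ℤ) := sum_nonneg (fun _ _ => by positivity)
    linarith
  have h3 := sum_le_sum_of_subset_of_nonneg (f := fun v => (d.cp v : ℤ)) h1
    (fun _ _ _ => by positivity)
  have h4 := hu ((d.Au ∩ d.Q) ∪ (d.D ∩ d.Q)) (d.R \ d.Jh)
  have h5 := hu (d.Au ∩ d.Q) (d.D ∩ d.Q)
  linarith

lemma kappa1 : 2 * ∑ v ∈ d.R ∩ d.Jh, ((d.pp v : ℤ) - d.U0 - 1) ≤
    2 * ((d.R ∩ d.Jh).card : ℤ) * (d.Jh.card - 1) -
      ((d.R ∩ d.Jh).card : ℤ) * ((d.R ∩ d.Jh).card - 1) := by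
  apply sum_le_of_inj
  · intro u hu v hv h
    have h1 := g.Jh_L (mem_inter.1 hu).2
    have h2 := g.Jh_L (mem_inter.1 hv).2
    simp only at h
    rcases lt_trichotomy u v with e | e | e
    · have := d.pp_lt h2.1 e; omega
    · exact e
    · have := d.pp_lt h1.1 e; omega
  · intro v hv
    have := g.Jh_L (mem_inter.1 hv).2; omega

lemma kappa2 : 2 * ∑ v ∈ d.R \ d.Jh, (d.cp v : ℤ) ≤
    2 * ((d.R \ d.Jh).card : ℤ) * (d.K - d.V.card - d.U0 - d.Jh.card) -
      ((d.R \ d.Jh).card : ℤ) * ((d.R \ d.Jh).card - 1) := by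
  apply sum_le_of_inj
  · intro u hu v hv h
    exact d.cp_inj (d.mem_Q.2 (Or.inr (g.hR (mem_sdiff.1 hu).1)))
      (d.mem_Q.2 (Or.inr (g.hR (mem_sdiff.1 hv).1))) (by simpa using h)
  · intro v hv
    have h1 := mem_sdiff.1 hv
    have h2 := g.hR h1.1
    have h3 := d.mem_NL.1 h2
    have h4 := g.π_le h3.1 h3.2.1 h1.2
    have h5 := g.Jπ_iff h3.1
    have := g.cp_NL h2; omega

lemma sumG : ∑ v ∈ d.J0, d.G v + ∑ v ∈ d.W ∪ d.Y, d.G v + ∑ v ∈ d.M, d.G v +
    ∑ v ∈ d.Om, d.G v ≤ ∑ v ∈ d.LL, d.G v := by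
  have hOm : ∀ v ∈ d.Om, v ∈ d.LL ∧ d.U0 < d.pp v ∧ v ∉ d.P := by
    intro v hv
    have h1 := d.mem_Om.1 hv
    have h2 := g.Jh_L h1.2.1
    exact ⟨h2.1, h2.2.1, fun h => (g.P_L h).2.2.2.2 h1.1⟩
  have e1 : ∑ v ∈ d.P, d.G v = ∑ v ∈ d.W ∪ d.Y, d.G v + ∑ v ∈ d.M, d.G v := by
    unfold P; apply sum_union
    rw [disjoint_left]; intro v; simp only [mem_union, mem_W, mem_Loc, mem_NL, mem_Y, mem_M]; omega
  have e2 : ∑ v ∈ d.J0 ∪ d.P ∪ d.Om, d.G v =
      ∑ v ∈ d.J0, d.G v + ∑ v ∈ d.P, d.G v + ∑ v ∈ d.Om, d.G v := by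
    rw [sum_union, sum_union]
    · rw [disjoint_left]; intro v h1 h2; have := g.J0_L h1; have := g.P_L h2; omega
    · rw [disjoint_left]; intro v h1 h2
      have := hOm v h2
      rcases mem_union.1 h1 with h | h
      · have := g.J0_L h; omega
      · tauto
  have e3 : ∑ v ∈ d.J0 ∪ d.P ∪ d.Om, d.G v ≤ ∑ v ∈ d.LL, d.G v := by
    apply sum_le_sum_of_subset_of_nonneg
    · intro v hv
      simp only [mem_union] at hv
      rcases hv with (h | h) | h
      · exact (g.J0_L h).1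
      · exact (g.P_L h).1
      · exact (hOm v h).1
    · intro v hv h; simp only [mem_union, not_or] at h
      exact g.rest_term hv h.1.2 h.2 h.1.1
  linarith

lemma sumB : ∑ v ∈ d.J0, d.B v + ∑ v ∈ d.Au, d.B v + ∑ v ∈ d.Us, d.B v ≤
    ∑ v ∈ range d.n \ d.T, d.B v := by
  rw [← sum_union, ← sum_union]
  · apply sum_le_sum_of_subset_of_nonneg
    · intro v hv
      simp only [mem_union] at hv
      simp only [mem_sdiff, mem_range]
      rcases hv with (h | h) | h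
      · exact ⟨(d.mem_LL.1 (g.J0_L h).1).1, g.J0_notT h⟩
      · exact ⟨(d.mem_LL.1 (g.Au_L h).1).1, fun e => (g.T_L e).2.2.2 h⟩
      · have h1 := g.Sp_S (g.hUs h)
        exact ⟨g.Sp_n (g.hUs h), fun e => by have := g.T_L e; omega⟩
    · intro v _ _; exact d.B_nonneg v
  · rw [disjoint_left]; intro v h1 h2
    have h3 := g.Sp_S (g.hUs h2)
    rcases mem_union.1 h1 with h | h
    · exact h3.2 (d.mem_J0.1 h).2
    · exact h3.2 (g.Au_L h).2.2.2.1
  · rw [disjoint_left]; intro v h1 h2; have := g.J0_L h1; have := g.Au_L h2; omega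

lemma sumJ0 : 2 * (d.U0 : ℤ) * (2 * d.K - d.V.card - d.bb) - d.U0 * (d.U0 - 1) +
    2 * (d.J0R.card * (d.bb - d.R.card - d.D.card)) ≤
    2 * (∑ z ∈ d.J0, (d.Nn z : ℤ) + ∑ z ∈ d.J0, d.G z + ∑ z ∈ d.J0, (d.SA z : ℤ) +
      ∑ z ∈ d.J0, d.B z) := by
  have h1 : ∀ z ∈ d.J0, (2 * d.K - d.V.card - d.bb : ℤ) -
      ((d.J0.filter (fun u => d.key z < d.key u)).card : ℤ) +
      (if d.Low z then (d.bb - d.R.card - d.D.card : ℤ) else 0) ≤
      d.Nn z + d.G z + d.SA z + d.B z := by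
    intro z hz
    have h2 := d.mem_J0.1 hz
    have h3 : (d.K : ℤ) - d.u0 z ≤ d.B z := d.B_inner h2.1 h2.2
    have h4 : d.o0 z + d.u0 z ≤ (d.J0.filter (fun u => d.key z < d.key u)).card := by
      unfold o0 u0
      apply le_card2
      · intro u; simp only [mem_filter]; tauto
      · intro u; simp only [mem_filter]; tauto
      · intro u; simp only [mem_filter]; omega
    rw [g.Nn_J0 hz]
    split_ifs with e
    · have := g.SzR hz e; omega
    · have := g.SzY hz e; omega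
  have h2 := sum_le_sum h1
  rw [sum_add_distrib, sum_sub_distrib, ← sum_filter, sum_const, sum_const, sum_add_distrib,
    sum_add_distrib, sum_add_distrib] at h2
  have h3 := sum_above d.J0 d.key d.kinj.injOn
  simp only [nsmul_eq_mul] at h2
  unfold U0 J0R
  linarith

/-- the main certificate -/
theorem main : (d.K : ℤ) * (d.K + 1) + 2 * (d.K * (4 * d.K - d.n + 1) +
      d.V.card * (d.bo - d.U0 - (4 * d.K - d.n) - 1 - d.V.card)) - d.φ * (d.φ + 1) +
      2 * d.R.card * (d.n - 3 * d.K - d.bo) - d.R.card * (d.R.card + 1) -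
      2 * (d.R ∩ d.Jh).card * (d.Jh.card - 1) + (d.R ∩ d.Jh).card * ((d.R ∩ d.Jh).card - 1) -
      2 * (d.R \ d.Jh).card * (d.K - d.U0 - d.bo - d.Jh.card) +
      (d.R \ d.Jh).card * ((d.R \ d.Jh).card - 1) ≤ 2 * d.SAB := by
  have h0 := g.dec1
  have hPB : ∀ f : ℕ → ℤ, ∑ v ∈ d.PB, f v = ∑ v ∈ d.W ∪ d.Y, f v + ∑ v ∈ d.Om, f v := by
    intro f; unfold PB; apply sum_union
    rw [disjoint_left]; intro v h1 h2
    have hP : v ∈ d.P := by rw [mem_P]; rcases mem_union.1 h1 with h | h <;> tauto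
    exact (g.P_L hP).2.2.2.2 (d.mem_Om.1 h2).1
  rw [sum_union (by
    rw [disjoint_left]; intro v h1 h2; have := g.J0_L h2; have := g.PB_L h1; omega), hPB] at h0
  have h1 : ∑ v ∈ d.W ∪ d.Y, ((d.K : ℤ) - d.bb + d.φ - d.outC v - d.lam v) ≤
      ∑ v ∈ d.W ∪ d.Y, ((d.Nn v : ℤ) + d.G v) := by
    refine sum_le_sum (fun v hv => ?_)
    have hPB : v ∈ d.PB := by rw [mem_PB]; rcases mem_union.1 hv with h | h <;> tauto
    have := g.Bterm hv; have := d.Nn_ge v; have := g.lam_ge (g.PB_L hPB).2.2.2; omega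
  have h2 : ∑ v ∈ d.Om, ((d.D.card : ℤ) - d.lam v) ≤ ∑ v ∈ d.Om, ((d.Nn v : ℤ) + d.G v) := by
    refine sum_le_sum (fun v hv => ?_)
    have hPB : v ∈ d.PB := by rw [mem_PB]; tauto
    have := g.Omterm hv; have := d.Nn_ge v; have := g.lam_ge (g.PB_L hPB).2.2.2; omega
  have h3 : ∑ v ∈ d.M, ((d.φ : ℤ) - d.outC v) ≤ ∑ v ∈ d.M, d.G v :=
    sum_le_sum (fun v hv => g.Mterm hv)
  have h4 : ∑ v ∈ d.Au, ((d.sh v : ℤ) - d.uF v + d.oc v + d.Aa v - d.Np.card) ≤
      ∑ v ∈ d.Au, d.B v := by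
    refine sum_le_sum (fun v hv => ?_)
    have := g.A1 hv; have := g.A2 hv; have := g.cSp; have := g.cZ; omega
  have h5 : ∑ x ∈ d.Us, ((d.Gx x : ℤ) - d.om x) ≤ ∑ x ∈ d.Us, d.B x := by
    refine sum_le_sum (fun x hx => ?_)
    have := g.Cterm (d.mem_SS.2 (g.Sp_S (g.hUs hx))); have := d.Gx_le x
    have := d.B_nonneg x; omega
  have h6 := sum_card_swap d.Au d.J0 (fun v z => d.key z < d.key v ∧ ¬ d.blocked z v)
  have h7 := sum_card_swap d.Au d.Us (fun v x => d.t x < d.t v ∧ d.blocked x v)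
  have h8 : ∑ v ∈ d.P, (d.outC v : ℤ) =
      ∑ v ∈ d.W ∪ d.Y, (d.outC v : ℤ) + ∑ v ∈ d.M, (d.outC v : ℤ) := by
    unfold P; apply sum_union
    rw [disjoint_left]; intro v; simp only [mem_union, mem_W, mem_Loc, mem_NL, mem_Y, mem_M]; omega
  have h9 := g.gamma
  rw [hPB] at h9
  have h10 := g.Ch
  have h11 := g.gains
  have h12 := g.bilin
  have h13 := g.sum_cp
  have h14 := g.Q_split
  have h15 := g.kappa1
  have h16 := g.kappa2
  have h17 := g.sumG
  have h18 := g.sumB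
  have h19 := g.sumJ0
  simp only [sum_add_distrib, sum_sub_distrib, sum_const, nsmul_eq_mul] at h1 h2 h3 h4 h5
  have c1 : (d.W ∪ d.Y).card = d.W.card + d.Y.card := by
    apply card_union_of_disjoint
    rw [disjoint_left]; intro v; simp only [mem_W, mem_Loc, mem_NL, mem_Y]; omega
  have c2 : d.Au.card = d.H.card + (d.R ∩ d.Jh).card := by
    have := g.sum_Au (fun _ => 1); simp at this; omega
  have c3 : (d.R \ d.Jh).card + (d.R ∩ d.Jh).card = d.R.card := card_sdiff_add_card_inter _ _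
  have c4 := cDH (d := d)
  have c5 := g.cP'
  have c6 := g.cP
  have c7 := g.cQ
  have c8 := g.cM
  have c9 := g.hNp1
  have c10 := g.hT1
  have c11 := g.hn
  have c12 : (d.V.card : ℤ) * (d.Y.card + d.U0) = d.V.card * (d.K - d.bo + d.U0 - d.R.card) := by
    rcases g.hj with h | h
    · simp [h]
    · congr 1; have := g.cY; have := g.cNL; omega
  have e1 : ((d.W ∪ d.Y).card : ℤ) = d.K - d.V.card - d.R.card - d.U0 := by omega
  have e2 : (d.Au.card : ℤ) = d.K - d.V.card - (d.R \ d.Jh).card - d.D.card := by omega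
  have e3 : (d.P.card : ℤ) = d.K - d.V.card - d.R.card := by omega
  have e4 : (d.Q.card : ℤ) = d.K - d.V.card - d.U0 := by omega
  have e5 : (d.Np.card : ℤ) = d.bo - d.V.card := by omega
  have e6 : (d.T.card : ℤ) = d.K - d.φ := by omega
  have e7 : (d.n : ℤ) = 3 * d.K + d.bo + d.bb - d.φ := by omega
  have e8 : (d.M.card : ℤ) = d.U0 := by omega
  rw [c12, e3] at h10
  rw [e1] at h1
  rw [e2, e5] at h4
  rw [e4] at h13
  rw [e5] at h11
  rw [e6] at h0
  rw [e8] at h3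
  rw [e7]
  unfold sh oc at h4
  unfold om at h5
  unfold SA at h19
  linarith

end Good
end Dat

end Pool.Agent.P.MP_5402c6_co
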