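import Pool.Agent.P.MP_5402c6_co.Upper

/-! The extremal configurations. -/

namespace Pool.Agent.P.MP_5402c6_co

open Finset

structure Par where
  K : ℕ
  a : ℕ
  b : ℕ
  m : ℕ
  v : ℕ
  h : ℕ
  hab : a + b = K
  hh : a = 2 * h ∨ a + 1 = 2 * h
  hv : v ≤ K

namespace Par
variable (q : Par)

def n : ℕ := 3 * q.K + q.b + q.m

def t (x : ℕ) : ℕ :=
  if x < q.K then q.K + q.m + x
  else if x < q.K + q.b then 3 * q.K + q.m + q.v + q.b - 1 - x
  else if x < q.K + q.b + q.h then q.a + 2 * (q.K + q.b) - 1 - 2 * x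
  else if x < 2 * q.K then 2 * x - q.a - 2 * (q.K + q.b)
  else if x < 2 * q.K + q.b + q.m then x - q.K - q.b
  else if x < 2 * q.K + q.b + q.m + q.v then x - q.b
  else x

lemma ts (x : ℕ) : (x < q.K ∧ q.t x = q.K + q.m + x) ∨
    (q.K ≤ x ∧ x < q.K + q.b ∧ q.t x + x + 1 = 3 * q.K + q.m + q.v + q.b) ∨
    (q.K + q.b ≤ x ∧ x < q.K + q.b + q.h ∧ q.t x + 2 * x + 1 = q.a + 2 * (q.K + q.b)) ∨
    (q.K + q.b + q.h ≤ x ∧ x < 2 * q.K ∧ q.t x + q.a + 2 * (q.K + q.b) = 2 * x) ∨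
    (2 * q.K ≤ x ∧ q.K + q.b ≤ x ∧ x < 2 * q.K + q.b + q.m ∧ q.t x + q.K + q.b = x) ∨
    (2 * q.K + q.b + q.m ≤ x ∧ x < 2 * q.K + q.b + q.m + q.v ∧ q.t x + q.b = x) ∨
    (2 * q.K + q.b + q.m + q.v ≤ x ∧ q.t x = x) := by
  have := q.hab; have := q.hh
  unfold t; split_ifs <;> omega

def key (x : ℕ) : ℕ := if q.K + q.b ≤ x then q.t x + q.n else q.t x

lemma ks (x : ℕ) : (q.K + q.b ≤ x ∧ q.key x = q.t x + (3 * q.K + q.b + q.m)) ∨
    (x < q.K + q.b ∧ q.key x = q.t x) := by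
  unfold key n; split_ifs <;> omega

def cfg : Cfg where
  n := q.n
  K := q.K
  lg x := q.K + q.b ≤ x
  t := q.t
  key := q.key
  tinj := by
    intro x y h
    have := q.hab; have := q.hh; have := q.hv; have := q.ts x; have := q.ts y
    omega
  h1 := by
    intro x y hx hy
    have := q.hab; have := q.hh; have := q.hv; have := q.ts x; have := q.ks x; have := q.ks y
    omega
  h2 := by
    intro x y h
    have := q.ks x; have := q.ks y
    omega

lemma klt (x y : ℕ) : q.cfg.key x < q.cfg.key y ↔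
    (x < q.K + q.b ∧ q.K + q.b ≤ y) ∨ ((x < q.K + q.b ↔ y < q.K + q.b) ∧ q.t x < q.t y) := by
  show q.key x < q.key y ↔ _
  have := q.hab; have := q.hh; have := q.hv; have := q.ts x; have := q.ts y
  have := q.ks x; have := q.ks y
  omega

lemma btw_ge (w y i j : ℕ) (h : ∀ z, i ≤ z → z < j → w < z ∧ z < y ∧ q.cfg.key w < q.cfg.key z) :
    j - i ≤ q.cfg.btw w y := by
  rw [← Nat.card_Ico]; unfold Cfg.btw; apply card_le_card; intro z
  simp only [mem_Ico, mem_filter, mem_Ioo]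
  rintro ⟨a, b⟩; have := h z a b; tauto

lemma inn_ge (x i j : ℕ) (h : ∀ z, i ≤ z → z < j → z < x ∧ q.cfg.key x < q.cfg.key z) :
    j - i ≤ q.cfg.inn x := by
  rw [← Nat.card_Ico]; unfold Cfg.inn; apply card_le_card; intro z
  simp only [mem_Ico, mem_filter, mem_range]
  rintro ⟨a, b⟩; exact h z a b

lemma out_ge (x i j : ℕ) (h : ∀ z, i ≤ z → z < j → x < z ∧ z < q.n ∧ q.cfg.key x < q.cfg.key z) :
    j - i ≤ q.cfg.out x := by
  rw [← Nat.card_Ico]; unfold Cfg.out; apply card_le_card; intro z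
  simp only [mem_Ico, mem_filter, mem_Ioo]
  rintro ⟨a, b⟩; have := h z a b; tauto

lemma nw_ge (x i j : ℕ) (h : ∀ z, i ≤ z → z < j → z ∈ q.cfg.nw x) :
    j - i ≤ (q.cfg.nw x).card := by
  rw [← Nat.card_Ico]; apply card_le_card; intro z
  simp only [mem_Ico]
  rintro ⟨a, b⟩; exact h z a b

lemma cA_le (τ x i : ℕ) (h : ∀ z, z < x → (q.K + q.b ≤ z ∨ τ < q.t z) → i ≤ z) :
    q.cfg.cA τ x ≤ x - i := by
  rw [← Nat.card_Ico]; unfold Cfg.cA; apply card_le_card; intro z
  simp only [mem_Ico, mem_filter, mem_range]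
  rintro ⟨a, b⟩; exact ⟨h z a b, a⟩

lemma cB_le (τ x y i : ℕ) (h : ∀ z, x < z → z < y → q.K + q.b ≤ z → τ < q.t z → i ≤ z) :
    q.cfg.cB τ x y ≤ y - i := by
  rw [← Nat.card_Ico]; unfold Cfg.cB; apply card_le_card; intro z
  simp only [mem_Ico, mem_filter, mem_Ioo]
  rintro ⟨a, b⟩; exact ⟨h z a.1 a.2 b.1 b.2, a.2⟩

lemma A_le {x : ℕ} (hx : x < q.n) : q.cfg.A x ≤ ((x + 1 + q.K - q.n : ℕ) : ℤ) := by
  have h1 := q.out_ge x (max (x + 1) (2 * q.K + q.b + q.m)) q.n (by
    intro z a b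
    have := q.hab; have := q.hh; have := q.hv; have := q.ts x; have := q.ts z
    rw [klt]; omega)
  have e : q.cfg.K = q.K := rfl
  unfold Cfg.A n at *; omega

lemma mem_s {x y : ℕ} (hx : x < q.K + q.b) (h1 : y < q.n) (h2 : 2 * q.K + q.b ≤ y)
    (h3 : q.t x < q.t y) (h4 : q.cfg.cA (q.t x) x + q.cfg.cB (q.t x) x y < q.K) :
    y ∈ q.cfg.nw x := by
  refine (q.cfg.mem_nw_s (by show ¬ q.K + q.b ≤ x; omega)).2
    ⟨h1, by show q.K + q.b ≤ y; omega, h3, ⟨by omega, by rw [klt]; omega, ?_⟩, h4⟩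
  have := q.btw_ge x y (q.K + q.b) (2 * q.K + q.b) (by intro z a b; rw [klt]; omega)
  show q.K ≤ _; omega

lemma mem_l {x w : ℕ} (hx : q.K + q.b ≤ x) (h1 : x < q.n) (h2 : w < x)
    (h3 : q.K + q.b ≤ w ∨ q.t x < q.t w) (h5 : q.cfg.key w < q.cfg.key x)
    (h6 : q.K ≤ q.cfg.btw w x) (h4 : q.cfg.cA (q.t x) w + q.cfg.cB (q.t x) w x < q.K) :
    w ∈ q.cfg.nw x :=
  (q.cfg.mem_nw_l hx).2 ⟨h2.trans h1, h3, ⟨h2, h5, h6⟩, h4⟩

lemma B_Z {x : ℕ} (hx : x < q.K) : q.cfg.B x ≤ 0 := by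
  have := q.hab; have := q.hh; have := q.hv; have := q.ts x
  have h1 := q.nw_ge x (2 * q.K + q.b + q.m) q.n (by
    intro y a b
    have := q.ts y
    refine q.mem_s (by omega) b (by omega) (by omega) ?_
    have := q.cA_le (q.t x) x x (by intro z c d; have := q.ts z; omega)
    have := q.cB_le (q.t x) x y (2 * q.K + q.b + q.m) (by intro z c d e f; have := q.ts z; omega)
    unfold n at b; omega)
  have e : q.cfg.K = q.K := rfl
  unfold Cfg.B n at *; omega

lemma B_N {j : ℕ} (hj : j < q.b) : q.cfg.B (q.K + j) ≤ ((min q.v (q.v - j) : ℕ) : ℤ) := by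
  have := q.hab; have := q.hh; have := q.hv; have := q.ts (q.K + j)
  have h1 := q.nw_ge (q.K + j) (2 * q.K + q.b + q.m + q.v)
    (min q.n (3 * q.K + q.b + q.m + q.v - j)) (by
    intro y a b
    have := q.ts y
    refine q.mem_s (by omega) (by omega) (by omega) (by omega) ?_
    have := q.cA_le (q.t (q.K + j)) (q.K + j) q.K (by intro z c d; have := q.ts z; omega)
    have := q.cB_le (q.t (q.K + j)) (q.K + j) y (2 * q.K + q.b + q.m + q.v)
      (by intro z c d e f; have := q.ts z; omega)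
    omega)
  have h2 := q.inn_ge (q.K + j) q.K (q.K + j) (by intro z c d; have := q.ts z; rw [klt]; omega)
  have e : q.cfg.K = q.K := rfl
  unfold Cfg.B n at *; omega

lemma B_F {p : ℕ} (hp : p < q.K) :
    q.cfg.B (q.K + q.b + p) ≤ if p < q.h then (q.a : ℤ) - 2 * p else 0 := by
  have := q.hab; have := q.hh; have := q.hv; have := q.ts (q.K + q.b + p)
  have h1 := q.nw_ge (q.K + q.b + p) 0 (min (q.b + p) (q.K - q.cfg.inn (q.K + q.b + p))) (by
    intro w a b
    have := q.ts w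
    refine q.mem_l (by omega) (by unfold n; omega) (by omega) (by omega) (by rw [klt]; omega) ?_ ?_
    · have := q.btw_ge w (q.K + q.b + p) (w + 1) (q.K + q.b + p)
        (by intro z c d; have := q.ts z; rw [klt]; omega)
      omega
    · have := q.cA_le (q.t (q.K + q.b + p)) w 0 (by intro z c d; omega)
      have : q.cfg.cB (q.t (q.K + q.b + p)) w (q.K + q.b + p) ≤ q.cfg.inn (q.K + q.b + p) := by
        unfold Cfg.cB Cfg.inn; apply card_le_card; intro z
        simp only [mem_filter, mem_Ioo, mem_range]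
        rintro ⟨c, d, e⟩
        have d' : q.K + q.b ≤ z := d
        have e' : q.t (q.K + q.b + p) < q.t z := e
        rw [klt]; omega
      omega)
  have h2 := q.inn_ge (q.K + q.b + p) (q.K + q.b) (q.K + q.b + min p (q.a - p))
    (by intro z c d; have := q.ts z; rw [klt]; omega)
  have e : q.cfg.K = q.K := rfl
  unfold Cfg.B at *; split_ifs <;> omega

lemma B_M {i : ℕ} (hi : i < q.m) : q.cfg.B (q.K + q.b + q.K + i) ≤ 0 := by
  have := q.hab; have := q.hh; have := q.hv; have := q.ts (q.K + q.b + q.K + i)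
  have h1 := q.nw_ge (q.K + q.b + q.K + i) 0 q.K (by
    intro w a b
    have := q.ts w
    refine q.mem_l (by omega) (by unfold n; omega) (by omega) (by omega) (by rw [klt]; omega) ?_ ?_
    · have := q.btw_ge w (q.K + q.b + q.K + i) (q.K + q.b) (q.K + q.b + q.K)
        (by intro z c d; rw [klt]; omega)
      omega
    · have := q.cA_le (q.t (q.K + q.b + q.K + i)) w 0 (by intro z c d; omega)
      have := q.cB_le (q.t (q.K + q.b + q.K + i)) w (q.K + q.b + q.K + i) (q.K + q.b + q.K + i)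
        (by intro z c d e f; have := q.ts z; omega)
      omega)
  have e : q.cfg.K = q.K := rfl
  unfold Cfg.B at *; omega

lemma B_T {i : ℕ} (hi : i < q.K) : q.cfg.B (q.K + q.b + q.K + q.m + i) ≤
    ((min q.h (q.a - q.m - i) + min (q.a - q.h) (q.a - q.m - i) +
      (if i < q.v then 0 else min q.b (q.K - q.m - i)) : ℕ) : ℤ) := by
  have := q.hab; have := q.hh; have := q.hv
  set x := q.K + q.b + q.K + q.m + i with hx
  have := q.ts x
  obtain ⟨s, hs⟩ : ∃ s, s = if i < q.v then q.K else q.K + q.b := ⟨_, rfl⟩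
  have hs' : (i < q.v ∧ s = q.K) ∨ (q.v ≤ i ∧ s = q.K + q.b) := by split_ifs at hs <;> omega
  have key : ∀ w, s ≤ w → w < s + q.K → q.K ≤ q.cfg.btw w x → w ∈ q.cfg.nw x := by
    intro w a b hb
    have := q.ts w
    refine q.mem_l (by omega) (by unfold n; omega) (by omega) (by omega) (by rw [klt]; omega) hb ?_
    have := q.cA_le (q.t x) w s (by intro z c d; have := q.ts z; omega)
    have := q.cB_le (q.t x) w x x (by intro z c d e f; have := q.ts z; omega)
    omega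
  have h1 : (Ico s (q.K + q.b)).card +
      (Ico (q.K + q.b + min q.h (q.a - q.m - i)) (q.K + q.b + q.h)).card +
      (Ico (q.K + q.b + q.h) (min (s + q.K) (q.K + q.b + q.m + i))).card ≤ (q.cfg.nw x).card := by
    apply le_card3
    · intro w hw
      have hw1 := mem_Ico.1 hw
      apply key w hw1.1 (by omega)
      have := q.btw_ge w x (q.K + q.b) (q.K + q.b + q.K) (by intro z c d; rw [klt]; omega)
      omega
    · intro w hw
      have hw1 := mem_Ico.1 hw
      apply key w (by omega) (by omega)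
      have := q.ts w
      have := q.btw_ge w x (3 * q.K + q.b - w) x
        (by intro z c d; have := q.ts z; rw [klt]; omega)
      omega
    · intro w hw
      have hw1 := mem_Ico.1 hw
      apply key w (by omega) (by omega)
      have := q.ts w
      have := q.btw_ge w x (w + 1) x (by intro z c d; have := q.ts z; rw [klt]; omega)
      omega
    · intro w; simp only [mem_Ico]; omega
    · intro w; simp only [mem_Ico]; omega
    · intro w; simp only [mem_Ico]; omega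
  simp only [Nat.card_Ico] at h1
  have e : q.cfg.K = q.K := rfl
  unfold Cfg.B at *; split_ifs <;> omega

end Par

lemma sum_min (c N : ℕ) : ∀ m : ℕ, 2 * ∑ i ∈ range N, ((min c (m - i) : ℕ) : ℤ) ≤
    (m : ℤ) * (m + 1) - ((m - c : ℕ) : ℤ) * (((m - c : ℕ) : ℤ) + 1) := by
  induction N with
  | zero =>
    intro m
    have h : ((m - c : ℕ) : ℤ) ≤ m := by omega
    have h0 : (0 : ℤ) ≤ ((m - c : ℕ) : ℤ) := by omega
    simp only [range_zero, sum_empty]; nlinarith
  | succ N ih =>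
    intro m
    rcases m with _ | m
    · simp
    · rw [sum_range_succ']
      have h1 := ih m
      have h2 : ∀ i, m + 1 - (i + 1) = m - i := fun i => by omega
      simp only [h2]
      by_cases h : c ≤ m
      · have e1 : ((m + 1 - c : ℕ) : ℤ) = ((m - c : ℕ) : ℤ) + 1 := by omega
        have e2 : ((min c (m + 1 - 0) : ℕ) : ℤ) = m - ((m - c : ℕ) : ℤ) := by omega
        rw [e1, e2]; push_cast at h1 ⊢; linarith
      · have e1 : ((m + 1 - c : ℕ) : ℤ) = 0 := by omega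
        have e3 : ((m - c : ℕ) : ℤ) = 0 := by omega
        have e2 : ((min c (m + 1 - 0) : ℕ) : ℤ) = m + 1 := by omega
        rw [e3] at h1
        rw [e1, e2]; push_cast at h1 ⊢; linarith

lemma sum_lin (h : ℕ) (a : ℤ) : ∑ p ∈ range h, (a - 2 * (p : ℤ)) = h * (a + 1 - h) := by
  induction h with
  | zero => simp
  | succ m ih => rw [sum_range_succ, ih]; push_cast; ring

/-- triangular numbers with truncation -/
def tr (m c : ℕ) : ℤ := (m : ℤ) * (m + 1) - ((m - c : ℕ) : ℤ) * (((m - c : ℕ) : ℤ) + 1)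

namespace Par
variable (q : Par)

theorem SAB_le : 2 * q.cfg.SAB ≤ (q.K : ℤ) * (q.K + 1) + tr q.v q.v + 2 * (q.h * (q.a + 1 - q.h)) +
    tr (q.a - q.m) q.h + tr (q.a - q.m) (q.a - q.h) + tr (q.K - q.m - q.v) q.b := by
  have hA : 2 * ∑ x ∈ range q.n, q.cfg.A x ≤ (q.K : ℤ) * (q.K + 1) := by
    have h1 := sum_le_sum (fun x hx => q.A_le (x := x) (mem_range.1 hx))
    have h2 : ∑ x ∈ range q.n, ((x + 1 + q.K - q.n : ℕ) : ℤ) =
        ∑ x ∈ range q.n, ((min q.K (q.K - x) : ℕ) : ℤ) := by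
      rw [← sum_range_reflect]
      refine sum_congr rfl (fun x hx => ?_)
      have := mem_range.1 hx; omega
    have h3 := sum_min q.K q.n q.K
    simp only [Nat.sub_self, Nat.cast_zero, zero_mul, sub_zero] at h3
    linarith
  have hn : q.n = q.K + q.b + q.K + q.m + q.K := by unfold n; omega
  have h1 : ∑ x ∈ range q.K, q.cfg.B x ≤ 0 := sum_nonpos (fun x hx => q.B_Z (mem_range.1 hx))
  have h2 := sum_le_sum (s := range q.b) (fun x hx => q.B_N (j := x) (mem_range.1 hx))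
  have h3 := sum_le_sum (s := range q.K) (fun x hx => q.B_F (p := x) (mem_range.1 hx))
  have h4 : ∑ x ∈ range q.m, q.cfg.B (q.K + q.b + q.K + x) ≤ 0 :=
    sum_nonpos (fun x hx => q.B_M (mem_range.1 hx))
  have h5 := sum_le_sum (s := range q.K) (fun x hx => q.B_T (i := x) (mem_range.1 hx))
  have h6 : (range q.K).filter (fun p => p < q.h) = range q.h := by
    ext p; simp only [mem_filter, mem_range]; have := q.hab; have := q.hh; omega
  rw [← sum_filter, h6, sum_lin] at h3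
  have h7 : ∑ i ∈ range q.K, ((if i < q.v then 0 else min q.b (q.K - q.m - i) : ℕ) : ℤ) ≤
      ∑ i ∈ range q.K, ((min q.b (q.K - q.m - q.v - i) : ℕ) : ℤ) := by
    have e1 : ∑ i ∈ range q.K, ((if i < q.v then 0 else min q.b (q.K - q.m - i) : ℕ) : ℤ) ≤
        ∑ i ∈ range (q.v + q.K), ((if i < q.v then 0 else min q.b (q.K - q.m - i) : ℕ) : ℤ) := by
      apply sum_le_sum_of_subset_of_nonneg
      · intro x; simp only [mem_range]; omega
      · intro _ _ _; positivity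
    rw [sum_range_add] at e1
    have e2 : ∑ i ∈ range q.v, ((if i < q.v then 0 else min q.b (q.K - q.m - i) : ℕ) : ℤ) = 0 :=
      sum_eq_zero (fun i hi => by rw [if_pos (mem_range.1 hi)]; rfl)
    rw [e2, zero_add] at e1
    refine e1.trans (le_of_eq (sum_congr rfl (fun i _ => ?_)))
    rw [if_neg (by omega), Nat.sub_add_eq]
  have h8 := sum_min q.v q.b q.v
  have h9 := sum_min q.h q.K (q.a - q.m)
  have h10 := sum_min (q.a - q.h) q.K (q.a - q.m)
  have h11 := sum_min q.b q.K (q.K - q.m - q.v)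
  simp only [Nat.cast_add, sum_add_distrib] at h5
  have hB : ∑ x ∈ range q.n, q.cfg.B x = ∑ x ∈ range q.K, q.cfg.B x +
      ∑ x ∈ range q.b, q.cfg.B (q.K + x) + ∑ x ∈ range q.K, q.cfg.B (q.K + q.b + x) +
      ∑ x ∈ range q.m, q.cfg.B (q.K + q.b + q.K + x) +
      ∑ x ∈ range q.K, q.cfg.B (q.K + q.b + q.K + q.m + x) := by
    rw [hn, sum_range_add, sum_range_add, sum_range_add, sum_range_add]
  have hS : q.cfg.SAB = ∑ x ∈ range q.n, q.cfg.A x + ∑ x ∈ range q.n, q.cfg.B x := by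
    unfold Cfg.SAB; rw [sum_add_distrib]; rfl
  unfold tr
  linarith

end Par

lemma tr_le (m c : ℕ) : tr m c ≤ (m : ℤ) * (m + 1) := by
  unfold tr
  have h0 : (0 : ℤ) ≤ ((m - c : ℕ) : ℤ) := by omega
  nlinarith

lemma tr_eq (m c : ℕ) (h : c ≤ m + 1) : tr m c = (m : ℤ) * (m + 1) - (m - c) * (m - c + 1) := by
  unfold tr
  rcases h.lt_or_eq with e | e
  · have : ((m - c : ℕ) : ℤ) = m - c := by omega
    rw [this]
  · have e1 : ((m - c : ℕ) : ℤ) = 0 := by omega
    have e2 : (c : ℤ) = m + 1 := by omega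
    rw [e1, e2]; ring

lemma quad_val (a a' h v : ℤ) (h1 : a = 2 * h ∨ a + 1 = 2 * h) (h2 : a' = 2 * v ∨ a' = 2 * v + 1)
    (h3 : a = a' ∨ a = a' + 1) :
    4 * (v * (v + 1) + 2 * (h * (a + 1 - h)) + (a' - v) * (a' - v + 1)) ≤ (a + a' + 2) ^ 2 := by
  rcases h2 with h2 | h2 <;> rcases h3 with h3 | h3
  · have e : h = v := by omega
    rw [h3, h2, e]; nlinarith
  · have e : h = v + 1 := by omega
    rw [h3, h2, e]; nlinarith
  · have e : h = v + 1 := by omega
    rw [h3, h2, e]; nlinarith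
  · have e : h = v + 1 := by omega
    rw [h3, h2, e]; nlinarith

lemma floor8' (D : ℕ) (S K a : ℤ) (h : 4 * (2 * S - K * (K + 1) - 2 * a) ≤ (D : ℤ) ^ 2) :
    2 * S ≤ K * (K + 1) + 2 * (a + ((D ^ 2 / 8 : ℕ) : ℤ)) := by
  obtain ⟨m, hm⟩ := Int.even_mul_succ_self K
  rw [hm] at h ⊢
  have h1 : ((D ^ 2 : ℕ) : ℤ) = (D : ℤ) ^ 2 := by push_cast; ring
  rw [← h1] at h
  generalize D ^ 2 = q at *
  omega

theorem exists_cfg (K n : ℕ) (hn : 3 * K < n) : ∃ c : Cfg, c.K = K ∧ c.n = n ∧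
    2 * c.SAB ≤ (K : ℤ) * (K + 1) + 2 * dv K n := by
  by_cases hq : 11 * K + 2 ≤ 3 * n ∨ 4 * K ≤ n
  · obtain ⟨b, hb⟩ : ∃ b, b = min K ((n - 3 * K) / 2) := ⟨_, rfl⟩
    obtain ⟨m, hm⟩ : ∃ m, m = n - 3 * K - b := ⟨_, rfl⟩
    let q : Par := ⟨K, K - b, b, m, (K - m) / 2, (K - b + 1) / 2, by omega, by omega, by omega⟩
    refine ⟨q.cfg, rfl, by show 3 * K + b + m = n; omega, ?_⟩
    have h1 : 2 * q.cfg.SAB ≤ (K : ℤ) * (K + 1) + tr ((K - m) / 2) ((K - m) / 2) +
      2 * (((K - b + 1) / 2 : ℕ) * ((K - b : ℕ) + 1 - ((K - b + 1) / 2 : ℕ))) +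
      tr (K - b - m) ((K - b + 1) / 2) + tr (K - b - m) (K - b - (K - b + 1) / 2) +
      tr (K - m - (K - m) / 2) b := q.SAB_le
    have h2 := tr_le ((K - m) / 2) ((K - m) / 2)
    have h3 := tr_le (K - b - m) ((K - b + 1) / 2)
    have h4 := tr_le (K - b - m) (K - b - (K - b + 1) / 2)
    have h5 := tr_le (K - m - (K - m) / 2) b
    have h6 := quad_val ((K - b : ℕ) : ℤ) ((K - m : ℕ) : ℤ) (((K - b + 1) / 2 : ℕ) : ℤ)
      (((K - m) / 2 : ℕ) : ℤ) (by omega) (by omega) (by omega)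
    have e1 : ((K - m - (K - m) / 2 : ℕ) : ℤ) = ((K - m : ℕ) : ℤ) - (((K - m) / 2 : ℕ) : ℤ) := by
      omega
    rw [e1] at h5
    unfold dv
    split_ifs with h
    · have := floor8' (3 * n - (11 * K + 2)) q.cfg.SAB K (K * ((4 * K - n : ℕ) + 1)) (by
        obtain ⟨e, he⟩ : ∃ e : ℤ, e = ((K - b - m : ℕ) : ℤ) := ⟨_, rfl⟩
        have e2 : ((4 * K - n : ℕ) : ℤ) = e := by omega
        have e3 : ((3 * n - (11 * K + 2) : ℕ) : ℤ) = K - 3 * e - 2 := by omega
        have e4 : ((K - b : ℕ) : ℤ) + ((K - m : ℕ) : ℤ) + 2 = K + e + 2 := by omega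
        rw [e4] at h6
        rw [← he] at h3 h4
        rw [e2, e3]
        linarith)
      exact_mod_cast this
    · by_cases h7 : n ≤ 5 * K
      · have := floor8' (5 * K + 2 - n) q.cfg.SAB K 0 (by
          have e2 : ((K - b - m : ℕ) : ℤ) = 0 := by omega
          have e4 : ((K - b : ℕ) : ℤ) + ((K - m : ℕ) : ℤ) + 2 = ((5 * K + 2 - n : ℕ) : ℤ) := by
            omega
          rw [e4] at h6
          rw [e2] at h3 h4
          linarith)
        simpa using this
      · have e2 : ((K - b - m : ℕ) : ℤ) = 0 := by omega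
        have e3 : ((K - m : ℕ) : ℤ) = 0 := by omega
        have e4 : (((K - m) / 2 : ℕ) : ℤ) = 0 := by omega
        have e5 : (((K - b + 1) / 2 : ℕ) : ℤ) = 0 := by omega
        rw [e2] at h3 h4
        rw [e3, e4] at h5
        rw [e4] at h2
        rw [e5] at h1
        have : (0 : ℤ) ≤ (((5 * K + 2 - n) ^ 2 / 8 : ℕ) : ℤ) := by positivity
        linarith
  · obtain ⟨e, he⟩ : ∃ e, e = 4 * K - n := ⟨_, rfl⟩
    obtain ⟨b, hb⟩ : ∃ b, b = K - (2 * e + 2) := ⟨_, rfl⟩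
    obtain ⟨m, hm⟩ : ∃ m, m = n - 3 * K - b := ⟨_, rfl⟩
    obtain ⟨a, ha⟩ : ∃ a, a = K - b := ⟨_, rfl⟩
    obtain ⟨h, hh⟩ : ∃ h, h = (a + 1) / 2 := ⟨_, rfl⟩
    let q : Par := ⟨K, a, b, m, b - 1, h, by omega, by omega, by omega⟩
    refine ⟨q.cfg, rfl, by show 3 * K + b + m = n; omega, ?_⟩
    have h1 : 2 * q.cfg.SAB ≤ (K : ℤ) * (K + 1) + tr (b - 1) (b - 1) + 2 * (h * (a + 1 - h)) +
      tr (a - m) h + tr (a - m) (a - h) + tr (K - m - (b - 1)) b := q.SAB_le
    have e1 : a - m = e := by omega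
    rw [e1, tr_eq e h (by omega), tr_eq e (a - h) (by omega)] at h1
    have h2 : tr (b - 1) (b - 1) + tr (K - m - (b - 1)) b ≤ 2 * (b * (e + 1)) := by
      rw [tr_eq _ _ (by omega), tr_eq _ _ (by omega)]
      rcases Nat.eq_zero_or_pos b with f | f
      · rw [f]; simp
      · have e2 : ((b - 1 : ℕ) : ℤ) = b - 1 := by omega
        have e3 : ((K - m - (b - 1) : ℕ) : ℤ) = e + 1 := by omega
        rw [e2, e3]; linarith
    unfold dv
    rw [if_pos (by omega), ← he]
    have e2 : 3 * n - (11 * K + 2) = 0 := by omega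
    have e3 : ((a - h : ℕ) : ℤ) = a - h := by omega
    have e4 : (K : ℤ) = a + b := by omega
    rw [e2]
    rw [e3] at h1
    push_cast
    have e5 : (a : ℤ) = 2 * h ∨ (a : ℤ) = 2 * h - 1 := by omega
    have e6 : (K : ℤ) * (e + 1) = a * (e + 1) + b * (e + 1) := by rw [e4]; ring
    rcases e5 with f | f <;> rw [f] at h1 e6 <;> linarith

end Pool.Agent.P.MP_5402c6_co
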