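import Pool.Agent.P.MP_5402c6_co.CaseB

/-! Short arcs with many long arcs inside may be treated as long arcs. -/

namespace Pool.Agent.P.MP_5402c6_co

open Finset

namespace Cfg
variable (c : Cfg)

def cv (v : ℕ) : Prop := ¬ c.lg v ∧ c.K ≤ c.ii v
noncomputable instance (x : ℕ) : Decidable (c.cv x) := Classical.dec _
def big : ℕ := ∑ v ∈ range c.n, (c.key v + c.t v) + 1

lemma lt_big {v : ℕ} (hv : v < c.n) : c.key v < c.big ∧ c.t v < c.big := by
  have := single_le_sum (f := fun v => c.key v + c.t v) (fun _ _ => Nat.zero_le _)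
    (mem_range.2 hv)
  unfold big; omega

noncomputable def tt (v : ℕ) : ℕ := if c.cv v then c.t v else c.t v + c.big
noncomputable def kk (v : ℕ) : ℕ :=
  if c.cv v then c.key v + c.big else if c.lg v then c.key v + 2 * c.big else c.key v

lemma tt_cv {v : ℕ} (h : c.cv v) : c.tt v = c.t v := if_pos h
lemma tt_not {v : ℕ} (h : ¬ c.cv v) : c.tt v = c.t v + c.big := if_neg h
lemma kk_cv {v : ℕ} (h : c.cv v) : c.kk v = c.key v + c.big := if_pos h
lemma kk_lg {v : ℕ} (h : c.lg v) : c.kk v = c.key v + 2 * c.big := by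
  unfold kk; rw [if_neg (fun e => e.1 h), if_pos h]
lemma kk_sh {v : ℕ} (h : ¬ c.cv v) (h2 : ¬ c.lg v) : c.kk v = c.key v := by
  unfold kk; rw [if_neg h, if_neg h2]

noncomputable def conv (hl : ∀ v, c.n ≤ v → c.lg v) : Cfg where
  n := c.n
  K := c.K
  lg v := c.lg v ∨ c.cv v
  t := c.tt
  key := c.kk
  tinj := by
    have hb : ∀ v, c.cv v → c.t v < c.big := fun v hv =>
      (c.lt_big (by by_contra e; exact hv.1 (hl v (by omega)))).2
    intro x y h
    by_cases hx : c.cv x <;> by_cases hy : c.cv y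
    · rw [c.tt_cv hx, c.tt_cv hy] at h; exact c.tinj h
    · rw [c.tt_cv hx, c.tt_not hy] at h; have := hb x hx; omega
    · rw [c.tt_not hx, c.tt_cv hy] at h; have := hb y hy; omega
    · rw [c.tt_not hx, c.tt_not hy] at h; exact c.tinj (by omega)
  h1 := by
    intro x y hx hy
    push Not at hx
    have := (c.lt_big (v := x) (by by_contra e; exact hx.1 (hl x (by omega)))).1
    rw [c.kk_sh hx.2 hx.1]
    rcases hy with h | h
    · rw [c.kk_lg h]; omega
    · rw [c.kk_cv h]; omega
  h2 := by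
    have hb : ∀ v, ¬ c.lg v → c.key v < c.big ∧ c.t v < c.big := fun v hv =>
      c.lt_big (by by_contra e; exact hv (hl v (by omega)))
    intro x y h
    by_cases hx : c.lg x
    · have hx2 : ¬ c.cv x := fun e => e.1 hx
      by_cases hy : c.lg y
      · have hy2 : ¬ c.cv y := fun e => e.1 hy
        rw [c.kk_lg hx, c.kk_lg hy, c.tt_not hx2, c.tt_not hy2]
        have := c.h2 x y (by tauto); omega
      · have hy2 : c.cv y := by tauto
        rw [c.kk_lg hx, c.kk_cv hy2, c.tt_not hx2, c.tt_cv hy2]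
        have := hb y hy; omega
    · by_cases hx2 : c.cv x
      · by_cases hy : c.lg y
        · have hy2 : ¬ c.cv y := fun e => e.1 hy
          rw [c.kk_lg hy, c.kk_cv hx2, c.tt_not hy2, c.tt_cv hx2]
          have := hb x hx; omega
        · have hy2 : c.cv y := by tauto
          rw [c.kk_cv hx2, c.kk_cv hy2, c.tt_cv hx2, c.tt_cv hy2]
          have := c.h2 x y (by tauto); omega
      · have hy : ¬ c.lg y := by tauto
        have hy2 : ¬ c.cv y := by tauto
        rw [c.kk_sh hx2 hx, c.kk_sh hy2 hy, c.tt_not hx2, c.tt_not hy2]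
        have := c.h2 x y (by tauto); omega

section
variable (hl : ∀ v, c.n ≤ v → c.lg v)
include hl

lemma kk_lt {x y : ℕ} (h : c.key x < c.key y) (h2 : x < y ∨ ¬ c.cv x) : c.kk x < c.kk y := by
  have hb : ∀ v, ¬ c.lg v → c.key v < c.big ∧ c.t v < c.big := fun v hv =>
    c.lt_big (by by_contra e; exact hv (hl v (by omega)))
  by_cases hx : c.lg x
  · rw [c.kk_lg hx, c.kk_lg (c.lg_of_lt hx h)]; omega
  have := hb x hx
  by_cases hy : c.lg y
  · rw [c.kk_lg hy]; unfold kk; split_ifs <;> omega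
  by_cases hx2 : c.cv x
  · have h3 : x < y := by tauto
    have h4 : c.cv y := ⟨hy, hx2.2.trans (c.ii_mono h3.le)⟩
    rw [c.kk_cv hx2, c.kk_cv h4]; omega
  · rw [c.kk_sh hx2 hx]; unfold kk; split_ifs <;> omega

lemma conv_blocked {w y : ℕ} (h : c.blocked w y) : (c.conv hl).blocked w y := by
  refine ⟨h.1, c.kk_lt hl h.2.1 (Or.inl h.1), h.2.2.trans ?_⟩
  unfold btw; apply card_le_card; intro v; simp only [mem_filter, mem_Ioo]
  rintro ⟨a, b⟩; exact ⟨a, c.kk_lt hl b (Or.inl a.1)⟩

lemma conv_org {x w y : ℕ} (hx : ¬ c.cv x) (h : c.org (c.t x) w y) :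
    ¬ c.cv w ∧ (c.conv hl).org (c.tt x) w y := by
  have hb : ∀ v, c.cv v → c.t v < c.big := fun v hv =>
    (c.lt_big (by by_contra e; exact hv.1 (hl v (by omega)))).2
  unfold org at h
  have h1 : c.ii w ≤ c.cA (c.t x) w := by
    unfold ii cA; apply card_le_card; intro v; simp only [mem_filter, mem_range, mem_J]; tauto
  have h2 : ∀ v, v ≤ w → ¬ c.cv v := fun v hv e => by
    have := c.ii_mono hv; have := e.2; omega
  refine ⟨h2 w le_rfl, ?_⟩
  have h3 : (c.conv hl).cA (c.tt x) w ≤ c.cA (c.t x) w := by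
    unfold cA; apply card_le_card; intro v; simp only [mem_filter, mem_range]
    rintro ⟨a, b⟩
    have h4 := h2 v a.le
    refine ⟨a, ?_⟩
    rcases b with (b | b) | b
    · exact Or.inl b
    · exact absurd b h4
    · right
      have b' : c.tt x < c.tt v := b
      rw [c.tt_not hx, c.tt_not h4] at b'; omega
  have h4 : (c.conv hl).cB (c.tt x) w y ≤ c.cB (c.t x) w y := by
    unfold cB; apply card_le_card; intro v; simp only [mem_filter]
    rintro ⟨a, b, e⟩
    have e' : c.tt x < c.tt v := e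
    by_cases h5 : c.cv v
    · rw [c.tt_not hx, c.tt_cv h5] at e'; have := hb v h5; omega
    · rw [c.tt_not hx, c.tt_not h5] at e'
      rcases b with b | b
      · exact ⟨a, b, by omega⟩
      · exact absurd b h5
  show (c.conv hl).cA (c.tt x) w + (c.conv hl).cB (c.tt x) w y < c.K
  omega

lemma conv_A (x : ℕ) : (c.conv hl).A x ≤ c.A x := by
  have : c.out x ≤ (c.conv hl).out x := by
    unfold out; apply card_le_card; intro v; simp only [mem_filter, mem_Ioo]
    rintro ⟨a, b⟩; exact ⟨a, c.kk_lt hl b (Or.inl a.1)⟩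
  have e : (c.conv hl).K = c.K := rfl
  unfold A; omega

lemma conv_B (x : ℕ) : (c.conv hl).B x ≤ c.B x := by
  have e : (c.conv hl).K = c.K := rfl
  by_cases hx : c.cv x
  · have h1 : c.ii x ≤ (c.conv hl).inn x := by
      unfold ii inn; apply card_le_card; intro v; simp only [mem_filter, mem_range, mem_J]
      rintro ⟨a, b⟩
      refine ⟨a, ?_⟩
      show c.kk x < c.kk v
      have := (c.lt_big (v := x) (by by_contra e; exact hx.1 (hl x (by omega)))).1
      rw [c.kk_cv hx, c.kk_lg b]; omega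
    have := hx.2
    have := c.B_nonneg x
    unfold B at *; omega
  · have h1 : c.inn x ≤ (c.conv hl).inn x := by
      unfold inn; apply card_le_card; intro v; simp only [mem_filter, mem_range]
      rintro ⟨a, b⟩; exact ⟨a, c.kk_lt hl b (Or.inr hx)⟩
    have h2 : (c.nw x).card ≤ ((c.conv hl).nw x).card := by
      apply card_le_card; intro y hy
      by_cases h3 : c.lg x
      · have h4 := (c.mem_nw_l h3).1 hy
        have h5 := c.conv_org hl hx h4.2.2.2
        refine ((c.conv hl).mem_nw_l (Or.inl h3)).2 ⟨h4.1, ?_, c.conv_blocked hl h4.2.2.1, h5.2⟩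
        rcases h4.2.1 with a | a
        · exact Or.inl (Or.inl a)
        · right
          show c.tt x < c.tt y
          rw [c.tt_not hx, c.tt_not h5.1]; omega
      · have h4 := (c.mem_nw_s h3).1 hy
        have h5 := c.conv_org hl hx h4.2.2.2.2
        have h6 : ¬ (c.conv hl).lg x := by
          rintro (a | a)
          · exact h3 a
          · exact hx a
        refine ((c.conv hl).mem_nw_s h6).2 ⟨h4.1, Or.inl h4.2.1, ?_,
          c.conv_blocked hl h4.2.2.2.1, h5.2⟩
        show c.tt x < c.tt y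
        rw [c.tt_not hx, c.tt_not (fun e => e.1 h4.2.1)]; omega
    unfold B; omega

lemma conv_ii {x : ℕ} (h : c.ii x < c.K) : (c.conv hl).ii x = c.ii x := by
  unfold ii; congr 1; ext v; simp only [mem_J]
  constructor
  · rintro ⟨a, b | b⟩
    · exact ⟨a, b⟩
    · have := c.ii_mono a.le; have := b.2; omega
  · rintro ⟨a, b⟩; exact ⟨a, Or.inl b⟩

theorem caseB (π ν : ℕ) (hn : c.n = 3 * c.K + ν) (h1 : c.K ≤ π) (h2 : π ≤ c.n)
    (h3 : c.U0 + c.Uh π < c.K) (h4 : ν ≤ c.bo π) :
    (c.K : ℤ) * (c.K + 1) + 2 * (c.K * (c.K - ν + 1)) ≤ 2 * c.SAB := by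
  have e1 : (c.conv hl).K = c.K := rfl
  have e2 : (c.conv hl).n = c.n := rfl
  have a1 : (c.conv hl).SAB ≤ c.SAB :=
    sum_le_sum (fun x _ => add_le_add (c.conv_A hl x) (c.conv_B hl x))
  have a2 := (c.conv hl).caseB_core (by
    intro x hx
    have h5 := ((c.conv hl).mem_S.1 hx).2
    have h6 : c.ii x < c.K := by
      by_contra e
      exact h5 (by by_cases f : c.lg x; exacts [Or.inl f, Or.inr ⟨f, by omega⟩])
    rw [c.conv_ii hl h6]; exact h6) ν hn (by
    have b1 : (c.S π).card ≤ ((c.conv hl).S c.n).card := by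
      apply card_le_card; intro x hx
      have h5 := c.mem_S.1 hx
      refine (c.conv hl).mem_S.2 ⟨by omega, ?_⟩
      rintro (a | a)
      · exact h5.2 a
      · have := c.ii_mono h5.1.le
        have := c.J_split h1
        have := a.2
        unfold ii at *; omega
    have b2 : c.U0 ≤ (c.conv hl).U0 := by
      unfold U0; apply card_le_card; intro x; simp only [mem_J]
      rintro ⟨a, b⟩; exact ⟨a, Or.inl b⟩
    have b3 := c.S_split h1
    have b4 := c.card_SJ c.K
    rw [e1, e2]
    unfold U0 at *; omega)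
  have a3 := (c.conv hl).E_NE
  have a4 := (c.conv hl).E_eq
  rw [e1, e2] at a4
  rw [e2] at a2 a3
  have e3 : (c.n : ℤ) = 3 * c.K + ν := by omega
  rw [e3] at a3 a4
  linarith

end

end Cfg

end Pool.Agent.P.MP_5402c6_co
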