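import Mathlib

/-! Semi-arc visibility graphs in the complex plane. -/

namespace Pool.Agent.P.MP_5402c6_co

/-- the points `ρ e^{iθ}` with `θ₁ ≤ θ ≤ θ₂` -/
def side (ρ θ₁ θ₂ : ℝ) : Set ℂ :=
  {z | ∃ θ ∈ Set.Icc θ₁ θ₂, z = (ρ : ℂ) * Complex.exp ((θ : ℂ) * Complex.I)}

/-- the region swept by the radial segments from `ρ₁ e^{iθ}` to `ρ₂ e^{iθ}`, `θ₁ ≤ θ ≤ θ₂`;
the radii are signed, opposite signs give a cone through the origin -/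
def cone (ρ₁ ρ₂ θ₁ θ₂ : ℝ) : Set ℂ :=
  {z | ∃ ρ ∈ Set.uIcc ρ₁ ρ₂, z ∈ side ρ θ₁ θ₂}

/-- some cone of positive area has its circular sides in `A a` and `A b` and meets at most `k`
other members of the family -/
def Visible {n : ℕ} (k : ℕ) (A : Fin n → Set ℂ) (a b : Fin n) : Prop :=
  ∃ ρ₁ ρ₂ θ₁ θ₂ : ℝ, ρ₁ ≠ ρ₂ ∧ θ₁ < θ₂ ∧ side ρ₁ θ₁ θ₂ ⊆ A a ∧ side ρ₂ θ₁ θ₂ ⊆ A b ∧
    {c | c ≠ a ∧ c ≠ b ∧ (A c ∩ cone ρ₁ ρ₂ θ₁ θ₂).Nonempty}.ncard ≤ k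

/-- `G` is a semi-arc `k`-visibility graph -/
def IsSemiArc {n : ℕ} (k : ℕ) (G : SimpleGraph (Fin n)) : Prop :=
  ∃ r α : Fin n → ℝ, (∀ v, 0 < r v ∧ 0 ≤ α v ∧ α v < 2 * Real.pi) ∧
    (∀ a b, a ≠ b → Disjoint (side (r a) 0 (α a)) (side (r b) 0 (α b))) ∧
    ∀ a b, G.Adj a b ↔ a ≠ b ∧ Visible k (fun v => side (r v) 0 (α v)) a b

end Pool.Agent.P.MP_5402c6_co
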