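import Pool.Agent.P.MP_5402c6_co.Cert5

/-! Existence of the data of the main certificate. -/

namespace Pool.Agent.P.MP_5402c6_co

open Finset

namespace Cfg
variable (c : Cfg)

def dat (π bb φ : ℕ) (V R Np Us T : Finset ℕ) : Dat :=
  { toCfg := c, π := π, V := V, R := R, Np := Np, Us := Us, T := T, bb := bb, φ := φ }

noncomputable def U0 : ℕ := (c.J c.K).card
noncomputable def Uh (π : ℕ) : ℕ := ((c.J π).filter (fun v => c.K ≤ v)).card
noncomputable def bo (π : ℕ) : ℕ := ((c.S π).filter (fun v => c.K ≤ v)).card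

lemma S_split {π : ℕ} (h : c.K ≤ π) : (c.S π).card = (c.S c.K).card + c.bo π := by
  unfold bo
  rw [← card_filter_add_card_filter_not (s := c.S π) (fun v => c.K ≤ v), add_comm]
  congr 2
  ext v; simp only [mem_filter, mem_S]
  constructor
  · rintro ⟨a, b⟩; exact ⟨by omega, a.2⟩
  · rintro ⟨a, b⟩; exact ⟨⟨by omega, b⟩, by omega⟩

lemma J_split {π : ℕ} (h : c.K ≤ π) : (c.J π).card = c.U0 + c.Uh π := by
  unfold Uh U0
  rw [← card_filter_add_card_filter_not (s := c.J π) (fun v => c.K ≤ v), add_comm]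
  congr 2
  ext v; simp only [mem_filter, mem_J]
  constructor
  · rintro ⟨a, b⟩; exact ⟨by omega, a.2⟩
  · rintro ⟨a, b⟩; exact ⟨⟨by omega, b⟩, by omega⟩

lemma U0_le : c.U0 ≤ c.K := by
  have := c.card_SJ c.K; unfold U0; omega

lemma Uh_bo {π : ℕ} (h : c.K ≤ π) : c.Uh π + c.bo π + c.K = π := by
  have := c.S_split h; have := c.J_split h; have := c.card_SJ π; have := c.card_SJ c.K
  unfold U0 at *; omega

lemma Uh_mono {π π' : ℕ} (h : π ≤ π') : c.Uh π ≤ c.Uh π' := by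
  unfold Uh; apply card_le_card; intro v; simp only [mem_filter, mem_J]
  rintro ⟨a, b⟩; exact ⟨⟨by omega, a.2⟩, b⟩

lemma bo_mono {π π' : ℕ} (h : π ≤ π') : c.bo π ≤ c.bo π' := by
  unfold bo; apply card_le_card; intro v; simp only [mem_filter, mem_S]
  rintro ⟨a, b⟩; exact ⟨⟨by omega, a.2⟩, b⟩

end Cfg

namespace Dat
variable (d : Dat)

structure Pre : Prop where
  hKπ : d.K ≤ d.π
  hπn : d.π ≤ d.n
  hU : d.U0 + d.Jh.card + d.bo ≤ d.K
  hn : d.n + d.φ = 3 * d.K + d.bo + d.bb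
  hφ : d.φ ≤ d.K

variable {d}
namespace Pre
variable (g : d.Pre)
include g

lemma cL : d.LL.card + d.φ = 2 * d.K + d.U0 + d.bb := by
  have h1 : d.LL.card + d.SS.card = d.n := d.card_LS g.hπn
  have h2 : d.SS.card = d.Zs.card + d.bo := d.S_split g.hKπ
  have h3 : d.Zs.card + d.U0 = d.K := d.card_SJ d.K
  have := g.hn
  omega

lemma card_pp (a b : ℕ) (hb : b ≤ d.K + d.U0) :
    (d.LL.filter (fun v => a < d.pp v ∧ d.pp v ≤ b)).card = b - a :=
  d.card_p d.π a b (by have := g.cL; have := g.hφ; unfold LL at *; omega)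

lemma cBey : d.Bey.card + d.φ = d.K + d.bb := by
  have h1 := d.card_p d.π (d.K + d.U0) d.LL.card le_rfl
  have h2 : d.Bey = (d.L d.π).filter (fun v => d.K + d.U0 < d.p d.π v ∧ d.p d.π v ≤ d.LL.card) := by
    apply filter_congr; intro v _
    have := d.p_le d.π v
    unfold pp LL; omega
  have := g.cL; have := g.hφ
  rw [h2]; omega

lemma cLoc : d.Loc.card = d.bo - d.U0 := by
  have h1 := g.card_pp (d.K + d.U0 - max d.bo d.U0) d.K (by omega)
  have := g.hU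
  have h2 : d.Loc = d.LL.filter (fun v => d.K + d.U0 - max d.bo d.U0 < d.pp v ∧ d.pp v ≤ d.K) := by
    apply filter_congr; intro v _; omega
  rw [h2]; omega

lemma cNL : d.NL.card + max d.bo d.U0 = d.K := by
  have := g.hU
  have h1 := g.card_pp d.U0 (d.K + d.U0 - max d.bo d.U0) (by omega)
  have h2 : d.NL = d.LL.filter (fun v => d.U0 < d.pp v ∧ d.pp v ≤ d.K + d.U0 - max d.bo d.U0) := by
    apply filter_congr; intro v _; omega
  rw [h2]; omega

lemma short_pp {v : ℕ} (hv : v ∈ d.LL) (h : ¬ d.lg v) : d.U0 + d.Jh.card < d.pp v := by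
  have h1 : (d.J d.π).card = d.U0 + d.Jh.card := d.J_split g.hKπ
  have h2 := d.p_le_J le_rfl g.hπn hv
  have h3 := (d.mem_LL.1 hv).2
  unfold pp
  by_contra e
  have := h2.1 (by omega)
  rcases h3 with h3 | h3
  · omega
  · exact h h3

end Pre
end Dat

namespace Cfg
variable (c : Cfg)

/-- the value of the main certificate -/
def val (K n U0 bo Uh φ j r1 r2 : ℤ) : ℤ :=
  K * (K + 1) + 2 * (K * (4 * K - n + 1) + j * (bo - U0 - (4 * K - n) - 1 - j)) - φ * (φ + 1) +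
    2 * (r1 * (n - 3 * K - bo - Uh) + r2 * (n - 4 * K + U0 + Uh - 1) - r1 * r2)

theorem exists_good (π bb φ j : ℕ) (R : Finset ℕ) (g : (c.dat π bb φ ∅ R ∅ ∅ ∅).Pre)
    (hbφ : bb = 0 ∨ φ = 0) (hR : R ⊆ (c.dat π bb φ ∅ R ∅ ∅ ∅).NL)
    (hR2 : ∀ v ∈ R, ∀ w ∈ (c.dat π bb φ ∅ R ∅ ∅ ∅).NL, w ∉ R → c.key v < c.key w)
    (hj : j = 0 ∨ j + φ + c.U0 ≤ c.bo π) (hr : R = ∅ ∨ φ = 0)
    (hforce : ∀ v ∈ (c.dat π bb φ ∅ R ∅ ∅ ∅).NL, v ∉ R → c.lg v ∨ c.K + 1 ≤ c.p π v + c.bo π)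
    (hJ0R : (∀ z ∈ c.J c.K, ¬ ∃ q ∈ R, c.key z < c.key q) ∨
      R.card + c.U0 ≤ bb + min c.U0 (c.bo π)) :
    val c.K c.n c.U0 (c.bo π) (c.Uh π) φ j (R ∩ (c.dat π bb φ ∅ R ∅ ∅ ∅).Jh).card
      (R \ (c.dat π bb φ ∅ R ∅ ∅ ∅).Jh).card ≤ 2 * c.SAB := by
  set d0 := c.dat π bb φ ∅ R ∅ ∅ ∅ with hd0
  have e1 : d0.U0 = c.U0 := rfl
  have e2 : d0.bo = c.bo π := rfl
  have e3 : d0.Jh.card = c.Uh π := rfl
  have e4 : d0.K = c.K := rfl
  have hU := g.hU
  obtain ⟨V, hV, hV1, hV2⟩ := exists_low d0.Loc c.key c.kinj.injOn (m := j)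
    (by rw [g.cLoc]; omega)
  obtain ⟨Np, hNp, hNp1, hNp2⟩ := exists_top d0.N c.t c.tinj.injOn (m := c.bo π - j)
    (by have : d0.N.card = c.bo π := rfl; omega)
  have hZ : d0.Zs.card + c.U0 = c.K := c.card_SJ c.K
  have hSp : d0.Zs.card ≤ (d0.Zs ∪ Np).card := card_le_card subset_union_left
  obtain ⟨Us, hUs, hUs1, hUs2⟩ := exists_top (d0.Zs ∪ Np) c.t c.tinj.injOn
    (m := (d0.Zs ∪ Np).card - j) (by omega)
  have hB := g.cBey
  have hφ := g.hφ
  have e5 : d0.φ = φ := rfl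
  have hpool : d0.Bey.card ≤ (c.dat π bb φ V R ∅ ∅ ∅).pool.card := by
    apply card_le_card; intro v hv
    exact (Dat.mem_pool _).2 (Or.inl hv)
  obtain ⟨T, hT, hT1, hT2⟩ := exists_top (c.dat π bb φ V R ∅ ∅ ∅).pool c.key c.kinj.injOn
    (m := c.K - φ) (by omega)
  have hg : (c.dat π bb φ V R Np Us T).Good :=
    { hKπ := g.hKπ, hπn := g.hπn, hU := g.hU, hn := g.hn, hbφ := hbφ, hV := hV, hV2 := hV2,
      hR := hR, hR2 := hR2,
      hj := by
        show V.card = 0 ∨ V.card + φ + c.U0 ≤ c.bo π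
        rw [hV1]; exact hj
      hr := hr, hforce := hforce, hJ0R := hJ0R, hNp := hNp,
      hNp1 := by
        show Np.card + V.card = c.bo π
        omega
      hNp2 := hNp2, hUs := hUs,
      hUs1 := by
        show Us.card + V.card = (d0.Zs ∪ Np).card
        omega
      hUs2 := hUs2, hT := hT,
      hT1 := by
        show T.card + φ = c.K
        omega
      hT2 := hT2 }
  have h : (c.K : ℤ) * (c.K + 1) + 2 * (c.K * (4 * c.K - c.n + 1) +
      V.card * (c.bo π - c.U0 - (4 * c.K - c.n) - 1 - V.card)) - φ * (φ + 1) +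
      2 * R.card * (c.n - 3 * c.K - c.bo π) - R.card * (R.card + 1) -
      2 * (R ∩ d0.Jh).card * (c.Uh π - 1) + (R ∩ d0.Jh).card * ((R ∩ d0.Jh).card - 1) -
      2 * (R \ d0.Jh).card * (c.K - c.U0 - c.bo π - c.Uh π) +
      (R \ d0.Jh).card * ((R \ d0.Jh).card - 1) ≤ 2 * c.SAB := hg.main
  have c3 : (R \ d0.Jh).card + (R ∩ d0.Jh).card = R.card := card_sdiff_add_card_inter _ _
  rw [hV1, ← c3] at h
  unfold val
  push_cast at h
  linarith

/-- the certificate when the cut lies before the middle -/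
theorem certA (π j r : ℕ) (h1 : c.K ≤ π) (h2 : π ≤ c.n) (hU : c.U0 + c.Uh π + c.bo π ≤ c.K)
    (hn : 3 * c.K + c.bo π ≤ c.n) (hj : j = 0 ∨ j + c.U0 ≤ c.bo π)
    (hr : r + max (c.bo π) c.U0 ≤ c.K)
    (hr2 : r = 0 ∨ r + c.U0 + 3 * c.K + c.bo π ≤ c.n + min c.U0 (c.bo π)) :
    (∃ r1 r2 : ℕ, r1 + r2 = r ∧ r1 ≤ c.Uh π ∧
      val c.K c.n c.U0 (c.bo π) (c.Uh π) 0 j r1 r2 ≤ 2 * c.SAB) ∨
    (c.U0 + c.Uh π + c.bo π < c.K ∧ ∃ r2 : ℕ, r < r2 ∧
      val c.K c.n c.U0 (c.bo π) (c.Uh π) 0 j 0 r2 ≤ 2 * c.SAB) := by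
  set bb := c.n - (3 * c.K + c.bo π) with hbb
  have pre : ∀ R, (c.dat π bb 0 ∅ R ∅ ∅ ∅).Pre := fun R =>
    { hKπ := h1, hπn := h2, hU := hU, hφ := Nat.zero_le _,
      hn := by
        show c.n + 0 = 3 * c.K + c.bo π + bb
        omega }
  set d0 := c.dat π bb 0 ∅ ∅ ∅ ∅ ∅ with hd0
  have hNL : d0.NL.card + max (c.bo π) c.U0 = c.K := (pre ∅).cNL
  obtain ⟨R, hR, hR1, hR2⟩ := exists_low d0.NL c.key c.kinj.injOn (m := r) (by omega)
  by_cases hf : ∀ v ∈ d0.NL, v ∉ R → c.lg v ∨ c.K + 1 ≤ c.p π v + c.bo π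
  · left
    have h := c.exists_good π bb 0 j R (pre R) (Or.inr rfl) hR hR2 (by simpa using hj)
      (Or.inr rfl) hf (by
        rcases hr2 with e | e
        · left; rw [e, card_eq_zero] at hR1; simp [hR1]
        · right; omega)
    refine ⟨(R ∩ d0.Jh).card, (R \ d0.Jh).card, ?_, card_le_card inter_subset_right, h⟩
    rw [add_comm, card_sdiff_add_card_inter, hR1]
  · right
    push Not at hf
    obtain ⟨v, hv, hvR, hvl, hvp⟩ := hf
    have h3 : c.U0 + c.Uh π < c.p π v := (pre ∅).short_pp (d0.mem_NL.1 hv).1 hvl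
    refine ⟨by omega, (d0.NL.filter (fun u => ¬ c.lg u)).card, ?_, ?_⟩
    · have : (insert v R).card ≤ (d0.NL.filter (fun u => ¬ c.lg u)).card := by
        apply card_le_card; intro u hu
        rcases mem_insert.1 hu with e | e
        · rw [e]; exact mem_filter.2 ⟨hv, hvl⟩
        · exact mem_filter.2 ⟨hR e, c.sh_of_lt hvl (hR2 u e v hv hvR)⟩
      rw [card_insert_of_notMem hvR] at this; omega
    · set R' := d0.NL.filter (fun u => ¬ c.lg u) with hR'
      have h := c.exists_good π bb 0 j R' (pre R') (Or.inr rfl) (filter_subset _ _) (by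
          intro u hu w hw hw2
          have : c.lg w := by
            by_contra e; exact hw2 (mem_filter.2 ⟨hw, e⟩)
          exact c.h1 u w (mem_filter.1 hu).2 this) (by simpa using hj) (Or.inr rfl) (by
          intro u hu hu2
          left; by_contra e; exact hu2 (mem_filter.2 ⟨hu, e⟩)) (by
          left; rintro z hz ⟨q, hq, hk⟩
          exact (mem_filter.1 hq).2 (c.lg_of_lt (c.mem_J.1 hz).2 hk))
      have hd : Disjoint R' d0.Jh := by
        rw [disjoint_left]; intro u hu hu2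
        exact (mem_filter.1 hu).2 (d0.mem_Jh.1 hu2).2.2
      have e1 : R' ∩ (c.dat π bb 0 ∅ R' ∅ ∅ ∅).Jh = ∅ := disjoint_iff_inter_eq_empty.1 hd
      have e2 : R' \ (c.dat π bb 0 ∅ R' ∅ ∅ ∅).Jh = R' := sdiff_eq_self_of_disjoint hd
      rw [e1, e2] at h
      simpa using h

/-- the certificate when the cut lies beyond the middle -/
theorem certC (π j φ : ℕ) (h1 : c.K ≤ π) (h2 : π ≤ c.n) (hU : c.U0 + c.Uh π + c.bo π = c.K)
    (hn : c.n + φ = 3 * c.K + c.bo π) (hφ : φ ≤ c.K) (hj : j = 0 ∨ j + φ + c.U0 ≤ c.bo π) :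
    val c.K c.n c.U0 (c.bo π) (c.Uh π) φ j 0 0 ≤ 2 * c.SAB := by
  have pre : (c.dat π 0 φ ∅ ∅ ∅ ∅ ∅).Pre :=
    { hKπ := h1, hπn := h2, hU := hU.le, hφ := hφ, hn := hn }
  have h := c.exists_good π 0 φ j ∅ pre (Or.inl rfl) (empty_subset _) (by simp) hj (Or.inl rfl)
    (by
      intro v hv _
      by_cases e : c.lg v
      · exact Or.inl e
      · have h3 : c.U0 + c.Uh π < c.p π v := pre.short_pp ((Dat.mem_NL _).1 hv).1 e
        right; omega) (by left; simp)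
  simpa using h

/-- the top `K` elements account for the outward defects -/
lemma sumA_ge (h : c.K ≤ c.n) : (c.K : ℤ) * (c.K + 1) ≤ 2 * ∑ x ∈ range c.n, c.A x := by
  obtain ⟨T, hT, hT1, hT2⟩ := exists_top (range c.n) c.key c.kinj.injOn (m := c.K) (by simpa)
  have h1 : ∑ x ∈ T, c.A x ≤ ∑ x ∈ range c.n, c.A x :=
    sum_le_sum_of_subset_of_nonneg hT (fun x _ _ => c.A_nonneg x)
  have h2 : ∑ x ∈ T, ((c.K : ℤ) - ((T.filter (fun v => c.key x < c.key v)).card : ℤ)) ≤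
      ∑ x ∈ T, c.A x := by
    refine sum_le_sum (fun x hx => ?_)
    have := c.A_ge x
    have : c.out x ≤ (T.filter (fun v => c.key x < c.key v)).card := by
      unfold out; apply card_le_card; intro v; simp only [mem_filter, mem_Ioo]
      rintro ⟨a, b⟩
      refine ⟨?_, b⟩
      by_contra e
      have := hT2 x hx v (mem_range.2 a.2) e; omega
    omega
  have h3 := sum_above T c.key c.kinj.injOn
  rw [sum_sub_distrib, sum_const, nsmul_eq_mul] at h2
  rw [hT1] at h2 h3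
  linarith

theorem certD (h : c.K ≤ c.n) :
    (c.K : ℤ) * (c.K + 1) + 2 * (c.U0 * c.K) - c.U0 * (c.U0 - 1) ≤ 2 * c.SAB := by
  have h1 := c.sumA_ge h
  have h2 : ∑ x ∈ c.J c.K, c.B x ≤ ∑ x ∈ range c.n, c.B x :=
    sum_le_sum_of_subset_of_nonneg (fun x hx => by
      have := c.mem_J.1 hx; exact mem_range.2 (by omega)) (fun x _ _ => c.B_nonneg x)
  have h3 : ∑ x ∈ c.J c.K, ((c.K : ℤ) - (((c.J c.K).filter (fun v => c.key x < c.key v)).card : ℤ))
      ≤ ∑ x ∈ c.J c.K, c.B x := by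
    refine sum_le_sum (fun x hx => ?_)
    have h4 := c.mem_J.1 hx
    have := c.B_inner h4.1 h4.2
    have : ((c.J c.K).filter (fun u => u < x ∧ c.key x < c.key u)).card ≤
        ((c.J c.K).filter (fun v => c.key x < c.key v)).card := by
      apply card_le_card; intro v; simp only [mem_filter]; tauto
    omega
  have h4 := sum_above (c.J c.K) c.key c.kinj.injOn
  rw [sum_sub_distrib, sum_const, nsmul_eq_mul] at h3
  unfold SAB U0
  rw [sum_add_distrib]
  linarith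

/-- the stopping point of the walk -/
lemma walk (e : ℕ) : ∃ π, c.K ≤ π ∧ c.U0 + c.Uh π + c.bo π ≤ c.K ∧
    ((c.K + 1 ≤ 2 * c.Uh π + c.U0 + c.bo π ∧ e + 1 ≤ c.U0 + c.Uh π) ∨
      c.U0 + c.Uh π + c.bo π = c.K) ∧
    (2 * c.Uh π + c.U0 + c.bo π ≤ c.K + 2 ∨ c.U0 + c.Uh π ≤ e + 1) := by
  have hU := c.U0_le
  have hex : ∃ m, (c.K + 1 ≤ 2 * c.Uh (c.K + m) + c.U0 + c.bo (c.K + m) ∧
      e + 1 ≤ c.U0 + c.Uh (c.K + m)) ∨ c.U0 + m = c.K := ⟨c.K - c.U0, Or.inr (by omega)⟩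
  have h1 := Nat.find_spec hex
  have h2 : Nat.find hex ≤ c.K - c.U0 := Nat.find_min' hex (Or.inr (by omega))
  have h3 := c.Uh_bo (π := c.K + Nat.find hex) (by omega)
  refine ⟨c.K + Nat.find hex, by omega, by omega, by omega, ?_⟩
  rcases Nat.eq_zero_or_pos (Nat.find hex) with h | h
  · omega
  · have h4 := Nat.find_min hex (m := Nat.find hex - 1) (by omega)
    have h5 := c.Uh_bo (π := c.K + (Nat.find hex - 1)) (by omega)
    have h6 := c.Uh_mono (π := c.K + (Nat.find hex - 1)) (π' := c.K + Nat.find hex) (by omega)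
    have h7 := c.bo_mono (π := c.K + (Nat.find hex - 1)) (π' := c.K + Nat.find hex) (by omega)
    omega

end Cfg

end Pool.Agent.P.MP_5402c6_co
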