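import Pool.Agent.P.MP_5402c6_co.Basic

/-! The combinatorial model of semi-arc representations. -/

namespace Pool.Agent.P.MP_5402c6_co

open Finset

/-- positions are naturals below `n`; `lg` marks long arcs, `t` is the angle modulo a half turn,
`key` is the order of the full angles -/
structure Cfg where
  n : ℕ
  K : ℕ
  lg : ℕ → Prop
  t : ℕ → ℕ
  key : ℕ → ℕ
  tinj : Function.Injective t
  h1 : ∀ x y, ¬ lg x → lg y → key x < key y
  h2 : ∀ x y, (lg x ↔ lg y) → (key x < key y ↔ t x < t y)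

namespace Cfg

variable (c : Cfg)

noncomputable instance : DecidablePred c.lg := Classical.decPred _

lemma kinj : Function.Injective c.key := by
  intro x y h
  by_cases hx : c.lg x <;> by_cases hy : c.lg y
  · rcases lt_trichotomy (c.t x) (c.t y) with h1 | h1 | h1
    · have := (c.h2 x y (by tauto)).2 h1; omega
    · exact c.tinj h1
    · have := (c.h2 y x (by tauto)).2 h1; omega
  · have := c.h1 y x hy hx; omega
  · have := c.h1 x y hx hy; omega
  · rcases lt_trichotomy (c.t x) (c.t y) with h1 | h1 | h1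
    · have := (c.h2 x y (by tauto)).2 h1; omega
    · exact c.tinj h1
    · have := (c.h2 y x (by tauto)).2 h1; omega

lemma lg_of_lt {x y : ℕ} (hx : c.lg x) (h : c.key x < c.key y) : c.lg y := by
  by_contra hy
  have := c.h1 y x hy hx; omega

lemma sh_of_lt {x y : ℕ} (hy : ¬ c.lg y) (h : c.key x < c.key y) : ¬ c.lg x :=
  fun hx => hy (c.lg_of_lt hx h)

lemma t_lt_ll {x y : ℕ} (hx : c.lg x) (h : c.key x < c.key y) : c.t x < c.t y :=
  (c.h2 x y (by have := c.lg_of_lt hx h; tauto)).1 h

lemma t_lt_ss {x y : ℕ} (hy : ¬ c.lg y) (h : c.key x < c.key y) : c.t x < c.t y :=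
  (c.h2 x y (by have := c.sh_of_lt hy h; tauto)).1 h

lemma key_lt_ll {x y : ℕ} (hx : c.lg x) (hy : c.lg y) (h : c.t x < c.t y) : c.key x < c.key y :=
  (c.h2 x y (by tauto)).2 h

lemma key_lt_ss {x y : ℕ} (hx : ¬ c.lg x) (hy : ¬ c.lg y) (h : c.t x < c.t y) :
    c.key x < c.key y := (c.h2 x y (by tauto)).2 h

lemma key_s_iff {x : ℕ} (hx : ¬ c.lg x) (y : ℕ) :
    c.key x < c.key y ↔ (c.lg y ∨ c.t x < c.t y) := by
  by_cases hy : c.lg y
  · simp [hy, c.h1 x y hx hy]
  · simp [hy, c.h2 x y (by tauto)]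

lemma key_l_iff {x : ℕ} (hx : c.lg x) (y : ℕ) :
    c.key x < c.key y ↔ (c.lg y ∧ c.t x < c.t y) :=
  ⟨fun h => ⟨c.lg_of_lt hx h, c.t_lt_ll hx h⟩, fun h => c.key_lt_ll hx h.1 h.2⟩

lemma key_ne {x y : ℕ} (h : x ≠ y) : c.key x ≠ c.key y := fun e => h (c.kinj e)
lemma t_ne {x y : ℕ} (h : x ≠ y) : c.t x ≠ c.t y := fun e => h (c.tinj e)

def inn (x : ℕ) : ℕ := ((range x).filter (fun y => c.key x < c.key y)).card
def out (x : ℕ) : ℕ := ((Ioo x c.n).filter (fun y => c.key x < c.key y)).card
def btw (w y : ℕ) : ℕ := ((Ioo w y).filter (fun v => c.key w < c.key v)).card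
def btwI (x y : ℕ) : ℕ := ((Ioo y x).filter (fun v => c.key x < c.key v)).card
def blocked (w y : ℕ) : Prop := w < y ∧ c.key w < c.key y ∧ c.K ≤ c.btw w y
noncomputable def cA (τ x : ℕ) : ℕ := ((range x).filter (fun v => c.lg v ∨ τ < c.t v)).card
noncomputable def cB (τ x y : ℕ) : ℕ := ((Ioo x y).filter (fun v => c.lg v ∧ τ < c.t v)).card
def org (τ x y : ℕ) : Prop := c.cA τ x + c.cB τ x y < c.K

noncomputable instance (w y : ℕ) : Decidable (c.blocked w y) := Classical.dec _
noncomputable instance (τ w y : ℕ) : Decidable (c.org τ w y) := Classical.dec _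

noncomputable def nw (x : ℕ) : Finset ℕ := (range c.n).filter (fun y =>
  (¬ c.lg x ∧ c.lg y ∧ c.t x < c.t y ∧ c.blocked x y ∧ c.org (c.t x) x y) ∨
  (c.lg x ∧ (c.lg y ∨ c.t x < c.t y) ∧ c.blocked y x ∧ c.org (c.t x) y x))

def A (x : ℕ) : ℤ := (c.K : ℤ) - (min c.K (c.out x) : ℕ)
noncomputable def B (x : ℕ) : ℤ := (c.K : ℤ) - (min c.K (c.inn x) : ℕ) - (c.nw x).card
noncomputable def SAB : ℤ := ∑ x ∈ range c.n, (c.A x + c.B x)

def same (x y : ℕ) : Prop :=
  ((Ioo x y).filter (fun v => min (c.key x) (c.key y) < c.key v)).card < c.K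
def adj (x y : ℕ) : Prop :=
  c.same x y ∨ (c.lg y ∧ c.org (if c.lg x then c.t y else min (c.t x) (c.t y)) x y)
noncomputable instance (w y : ℕ) : Decidable (c.adj w y) := Classical.dec _
noncomputable def E : ℕ :=
  ((range c.n ×ˢ range c.n).filter (fun p => p.1 < p.2 ∧ c.adj p.1 p.2)).card

lemma mem_nw_s {x y : ℕ} (hx : ¬ c.lg x) : y ∈ c.nw x ↔
    y < c.n ∧ c.lg y ∧ c.t x < c.t y ∧ c.blocked x y ∧ c.org (c.t x) x y := by
  simp [nw, hx]

lemma mem_nw_l {x y : ℕ} (hx : c.lg x) : y ∈ c.nw x ↔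
    y < c.n ∧ (c.lg y ∨ c.t x < c.t y) ∧ c.blocked y x ∧ c.org (c.t x) y x := by
  simp [nw, hx]

/-- outward window -/
def Wo (x : ℕ) : Finset ℕ := (Ioo x c.n).filter (fun y => c.key x < c.key y ∧ c.btw x y < c.K)
/-- inward window -/
def Wi (x : ℕ) : Finset ℕ := (range x).filter (fun y => c.key x < c.key y ∧ c.btwI x y < c.K)

lemma card_Wo (x : ℕ) : (c.Wo x).card = min c.K (c.out x) := by
  have := card_rk_lt ((Ioo x c.n).filter (fun y => c.key x < c.key y)) (fun v => v)
    (fun _ _ _ _ h => h) c.K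
  unfold out
  rw [← this]
  congr 1
  ext y
  simp only [Wo, mem_filter, mem_Ioo, rk, btw]
  have key : y < c.n → ((Ioo x y).filter (fun v => c.key x < c.key v)) =
      (((Ioo x c.n).filter (fun y => c.key x < c.key y)).filter (fun v => v < y)) := by
    intro hy
    ext v; simp only [mem_filter, mem_Ioo]; omega
  constructor
  · rintro ⟨h1, h2, h3⟩
    rw [key h1.2] at h3
    exact ⟨⟨h1, h2⟩, h3⟩
  · rintro ⟨⟨h1, h2⟩, h3⟩
    rw [key h1.2]
    exact ⟨h1, h2, h3⟩

lemma card_Wi (x : ℕ) : (c.Wi x).card = min c.K (c.inn x) := by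
  have := card_rk_lt (β := ℕᵒᵈ) ((range x).filter (fun y => c.key x < c.key y))
    (fun v => OrderDual.toDual v) (fun _ _ _ _ h => h) c.K
  unfold inn
  rw [← this]
  congr 1
  ext y
  simp only [Wi, mem_filter, mem_range, rk, btwI]
  have key : ((Ioo y x).filter (fun v => c.key x < c.key v)) =
      (((range x).filter (fun y => c.key x < c.key y)).filter
        (fun v => OrderDual.toDual v < OrderDual.toDual y)) := by
    ext v; simp only [mem_filter, mem_Ioo, mem_range, OrderDual.toDual_lt_toDual]; omega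
  rw [key]
  tauto

lemma A_eq (x : ℕ) : c.A x = c.K - (c.Wo x).card := by rw [card_Wo]; rfl

lemma A_nonneg (x : ℕ) : 0 ≤ c.A x := by unfold A; omega

lemma A_ge (x : ℕ) : (c.K : ℤ) - c.out x ≤ c.A x := by unfold A; omega

lemma B_ge (x : ℕ) : (c.K : ℤ) - c.inn x - (c.nw x).card ≤ c.B x := by unfold B; omega

lemma btw_mono (w : ℕ) {y z : ℕ} (h : y ≤ z) : c.btw w y ≤ c.btw w z := by
  unfold btw
  apply card_le_card
  intro v; simp only [mem_filter, mem_Ioo]; omega

/-- an inner, lower element is blocked too -/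
lemma blocked_of_lower {v w y : ℕ} (h : c.blocked w y) (hv : v < w) (hk : c.key v < c.key w) :
    c.blocked v y := by
  refine ⟨hv.trans h.1, hk.trans h.2.1, h.2.2.trans ?_⟩
  unfold btw
  apply card_le_card
  intro u; simp only [mem_filter, mem_Ioo]; omega

lemma btw_le (w y : ℕ) : c.btw w y ≤ y - w - 1 := by
  unfold btw
  exact (card_filter_le _ _).trans (by simp)

lemma cA_short {x : ℕ} (hx : ¬ c.lg x) : c.cA (c.t x) x = c.inn x := by
  unfold cA inn
  congr 1
  ext v; simp only [mem_filter, c.key_s_iff hx]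

/-- slot lemma for a long element -/
lemma slot_long {u w : ℕ} (hu : c.lg u) (hw : w ∈ c.nw u) (hmax : ∀ y ∈ c.nw u, y ≤ w)
    (D : Finset ℕ) (hD : ∀ d ∈ D, d ∉ c.nw u ∧
      ((d < w ∧ (c.lg d ∨ c.t u < c.t d)) ∨ (w < d ∧ d < u ∧ c.lg d ∧ c.t u < c.t d))) :
    (c.nw u).card + D.card ≤ c.K := by
  have h0 := ((c.mem_nw_l hu).1 hw).2.2.2
  unfold org cA cB at h0
  have h1 : ((c.nw u).erase w).card + D.card ≤
      ((range w).filter (fun v => c.lg v ∨ c.t u < c.t v)).card +
      ((Ioo w u).filter (fun v => c.lg v ∧ c.t u < c.t v)).card := by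
    apply card22
    · intro x hx hxD
      exact (hD x hxD).1 (mem_of_mem_erase hx)
    · intro x hx
      left
      have h1 := mem_erase.1 hx
      have h2 := (c.mem_nw_l hu).1 h1.2
      have h3 := hmax x h1.2
      simp only [mem_filter, mem_range]
      exact ⟨by omega, h2.2.1⟩
    · intro x hx
      rcases (hD x hx).2 with h | h
      · left; simp only [mem_filter, mem_range]; exact h
      · right; simp only [mem_filter, mem_Ioo]; tauto
  rw [card_erase_of_mem hw] at h1
  have := card_pos.2 ⟨w, hw⟩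
  omega

/-- slot lemma for a short element -/
lemma slot_short {x y : ℕ} (hx : ¬ c.lg x) (hy : c.org (c.t x) x y) (D : Finset ℕ)
    (hD : ∀ d ∈ D, x < d ∧ d ≤ y ∧ c.lg d ∧ c.t x < c.t d) : c.inn x + D.card ≤ c.K := by
  unfold org at hy
  rw [c.cA_short hx] at hy
  unfold cB at hy
  have h1 : (D.erase y).card ≤ ((Ioo x y).filter (fun v => c.lg v ∧ c.t x < c.t v)).card := by
    apply card_le_card
    intro d hd
    have h1 := mem_erase.1 hd
    have := hD d h1.2
    simp only [mem_filter, mem_Ioo]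
    refine ⟨⟨this.1, by omega⟩, this.2.2⟩
  have h2 := pred_card_le_card_erase (s := D) (a := y)
  omega

lemma nw_slot (x : ℕ) (h : (c.nw x).Nonempty) : c.inn x + (c.nw x).card ≤ c.K := by
  by_cases hx : c.lg x
  · have := c.slot_long hx (max'_mem _ h) (fun y hy => le_max' _ y hy)
      ((range x).filter (fun y => c.key x < c.key y)) (by
        intro d hd
        simp only [mem_filter, mem_range] at hd
        have h3 := (c.key_l_iff hx d).1 hd.2
        have hw := (c.mem_nw_l hx).1 (max'_mem _ h)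
        refine ⟨fun hn => ?_, ?_⟩
        · have := ((c.mem_nw_l hx).1 hn).2.2.1.2.1; omega
        · have : d ≠ (c.nw x).max' h := by
            intro e; have := hw.2.2.1.2.1; rw [← e] at this; omega
          rcases lt_or_gt_of_ne this with h5 | h5
          · left; exact ⟨h5, Or.inl h3.1⟩
          · right; exact ⟨h5, hd.1, h3⟩)
    unfold inn; omega
  · have hw := (c.mem_nw_s hx).1 (max'_mem _ h)
    exact c.slot_short hx hw.2.2.2.2 _ (fun d hd => by
      have h1 := (c.mem_nw_s hx).1 hd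
      exact ⟨h1.2.2.2.1.1, le_max' _ d hd, h1.2.1, h1.2.2.1⟩)

lemma nw_le (x : ℕ) : (c.nw x).card ≤ c.K := by
  rcases (c.nw x).eq_empty_or_nonempty with h | h
  · simp [h]
  · have := c.nw_slot x h; omega

lemma B_nonneg (x : ℕ) : 0 ≤ c.B x := by
  unfold B
  rcases (c.nw x).eq_empty_or_nonempty with h | h
  · rw [h]; simp
  · have := c.nw_slot x h; omega

/-- `x` charges `y` -/
def ch (x y : ℕ) : Prop := y ∈ c.Wo x ∨ y ∈ c.Wi x ∨ y ∈ c.nw x
noncomputable instance (w y : ℕ) : Decidable (c.ch w y) := Classical.dec _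

lemma card_ch {x : ℕ} (hx : x < c.n) : ((range c.n).filter (fun y => c.ch x y)).card =
    min c.K (c.out x) + min c.K (c.inn x) + (c.nw x).card := by
  rw [← card_Wo, ← card_Wi]
  have hd1 : Disjoint (c.Wo x) (c.Wi x) := by
    rw [disjoint_left]; intro y h1 h2
    simp only [Wo, Wi, mem_filter, mem_Ioo, mem_range] at h1 h2; omega
  have hd2 : Disjoint (c.Wo x ∪ c.Wi x) (c.nw x) := by
    rw [disjoint_left]; intro y h1 h2
    simp only [Wo, Wi, nw, blocked, mem_union, mem_filter, mem_Ioo, mem_range] at h1 h2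
    omega
  rw [← card_union_of_disjoint hd1, ← card_union_of_disjoint hd2]
  congr 1
  ext y
  simp only [mem_filter, mem_range, ch, mem_union]
  constructor
  · tauto
  · intro h
    refine ⟨?_, by tauto⟩
    rcases h with (h | h) | h
    · simp only [Wo, mem_filter, mem_Ioo] at h; omega
    · simp only [Wi, mem_filter, mem_range] at h; omega
    · simp only [nw, mem_filter, mem_range] at h; omega

lemma same_iff_lt {x y : ℕ} (h : c.key x < c.key y) : c.same x y ↔ c.btw x y < c.K := by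
  unfold same btw; rw [min_eq_left h.le]

lemma same_iff_gt {x y : ℕ} (h : c.key y < c.key x) : c.same x y ↔ c.btwI y x < c.K := by
  unfold same btwI; rw [min_eq_right h.le]

lemma adj_iff {x y : ℕ} (hxy : x < y) (hy : y < c.n) : c.adj x y ↔ (c.ch x y ∨ c.ch y x) := by
  have hk := c.key_ne hxy.ne
  have ht := c.t_ne hxy.ne
  unfold adj ch
  simp only [Wo, Wi, nw, blocked, mem_filter, mem_Ioo, mem_range]
  rcases lt_or_gt_of_ne hk with h | h
  · rw [c.same_iff_lt h]
    by_cases hb : c.btw x y < c.K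
    · simp [hb, h, hxy, hy]
    · have hb' : c.K ≤ c.btw x y := by omega
      have e1 : ¬ y < x := by omega
      have e2 : ¬ c.key y < c.key x := by omega
      have e3 : x < c.n := by omega
      by_cases hx : c.lg x
      · have hly := c.lg_of_lt hx h
        simp [hb, hb', h, hxy, hy, hx, hly, e1, e2, e3]
      · rcases lt_or_gt_of_ne ht with h4 | h4
        · have e4 : ¬ c.t y < c.t x := by omega
          simp [hb, hb', h, hxy, hy, hx, e1, e2, e3, h4, e4, min_eq_left h4.le]
        · have e4 : ¬ c.t x < c.t y := by omega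
          simp [hb, hb', h, hxy, hy, hx, e1, e2, e3, h4, e4, min_eq_right h4.le]
  · rw [c.same_iff_gt h]
    have e1 : ¬ y < x := by omega
    have e2 : ¬ c.key x < c.key y := by omega
    simp only [e1, e2, h, hxy, false_and, and_false, or_false, false_or, true_and]
    constructor
    · rintro (h1 | ⟨h1, h2⟩)
      · exact h1
      · have hx := c.lg_of_lt h1 h
        simp only [hx, if_true] at h2
        unfold org at h2
        have : c.btwI y x = c.cB (c.t y) x y := by
          unfold btwI cB; congr 1; ext v; simp only [mem_filter, c.key_l_iff h1]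
        omega
    · intro h1; exact Or.inl h1

lemma not_ch_both {x y : ℕ} (hxy : x < y) : ¬ (c.ch x y ∧ c.ch y x) := by
  unfold ch
  simp only [Wo, Wi, nw, blocked, mem_filter, mem_Ioo, mem_range]
  rintro ⟨h1 | h1 | ⟨-, h1 | h1⟩, h2 | h2 | ⟨-, h2 | h2⟩⟩ <;>
    first
    | omega
    | (obtain ⟨a1, a2, a3, a4, a5⟩ := h1; obtain ⟨b1, b2, b3, b4⟩ := h2
       first | omega | (rcases b2 with b2 | b2 <;> first | omega | contradiction))

lemma not_ch_self (x : ℕ) : ¬ c.ch x x := by
  unfold ch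
  simp [Wo, Wi, nw, blocked]

theorem E_eq : (c.E : ℤ) + c.SAB = 2 * c.K * c.n := by
  have h1 : (c.E : ℤ) = ∑ x ∈ range c.n, ∑ y ∈ range c.n,
      (if x < y ∧ c.adj x y then (1 : ℤ) else 0) := by
    unfold E
    rw [card_filter, sum_product]; push_cast; rfl
  have h2 : ∑ x ∈ range c.n, ∑ y ∈ range c.n, (if x < y ∧ c.adj x y then (1 : ℤ) else 0) =
      ∑ x ∈ range c.n, ∑ y ∈ range c.n, (if x < y ∧ c.ch x y then (1 : ℤ) else 0) +
      ∑ x ∈ range c.n, ∑ y ∈ range c.n, (if x < y ∧ c.ch y x then (1 : ℤ) else 0) := by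
    rw [← sum_add_distrib]
    refine sum_congr rfl (fun x _ => ?_)
    rw [← sum_add_distrib]
    refine sum_congr rfl (fun y hy => ?_)
    by_cases hxy : x < y
    · have h3 := c.adj_iff hxy (mem_range.1 hy)
      have h4 := c.not_ch_both hxy
      by_cases h5 : c.ch x y <;> by_cases h6 : c.ch y x <;> simp_all
    · simp [hxy]
  have h3 : ∑ x ∈ range c.n, ∑ y ∈ range c.n, (if x < y ∧ c.ch y x then (1 : ℤ) else 0) =
      ∑ x ∈ range c.n, ∑ y ∈ range c.n, (if y < x ∧ c.ch x y then (1 : ℤ) else 0) := sum_comm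
  have h4 : ∑ x ∈ range c.n, ∑ y ∈ range c.n, (if x < y ∧ c.ch x y then (1 : ℤ) else 0) +
      ∑ x ∈ range c.n, ∑ y ∈ range c.n, (if y < x ∧ c.ch x y then (1 : ℤ) else 0) =
      ∑ x ∈ range c.n, (((range c.n).filter (fun y => c.ch x y)).card : ℤ) := by
    rw [← sum_add_distrib]
    refine sum_congr rfl (fun x _ => ?_)
    rw [← sum_add_distrib, card_filter]
    push_cast
    refine sum_congr rfl (fun y _ => ?_)
    rcases lt_trichotomy x y with h | h | h
    · have : ¬ y < x := by omega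
      simp [h, this]
    · subst h; simp [c.not_ch_self x]
    · have : ¬ x < y := by omega
      simp [h, this]
  rw [h1, h2, h3, h4]
  unfold SAB
  rw [← sum_add_distrib]
  have : ∀ x ∈ range c.n, ((((range c.n).filter (fun y => c.ch x y)).card : ℤ) +
      (c.A x + c.B x)) = 2 * c.K := by
    intro x hx
    rw [c.card_ch (mem_range.1 hx)]
    unfold A B; push_cast; ring
  rw [sum_congr rfl this]
  simp; ring

end Cfg

end Pool.Agent.P.MP_5402c6_co
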