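import Pool.Agent.P.MP_5402c6_co.Defs
import Pool.Agent.P.MP_5402c6_co.Model

/-! From arcs in the plane to the combinatorial model. -/

namespace Pool.Agent.P.MP_5402c6_co

open Finset Real

noncomputable def pt (s θ : ℝ) : ℂ := (s : ℂ) * Complex.exp ((θ : ℂ) * Complex.I)

lemma mem_side {z : ℂ} {ρ a b : ℝ} : z ∈ side ρ a b ↔ ∃ θ, a ≤ θ ∧ θ ≤ b ∧ z = pt ρ θ := by
  simp [side, pt, and_assoc]

lemma pt_neg (s θ : ℝ) : pt (-s) θ = pt s (θ + π) := by
  unfold pt
  push_cast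
  rw [add_mul, Complex.exp_add, Complex.exp_pi_mul_I]; ring

lemma norm_pt (s θ : ℝ) : ‖pt s θ‖ = |s| := by
  unfold pt; rw [norm_mul, Complex.norm_exp_ofReal_mul_I]; simp

lemma pt_inj {s r θ φ : ℝ} (hs : 0 ≤ s) (hr : 0 < r) (h1 : 0 ≤ θ) (h2 : θ < 2 * π) (h3 : 0 ≤ φ)
    (h4 : φ < 2 * π) (h : pt s θ = pt r φ) : s = r ∧ θ = φ := by
  have e : s = r := by
    have := congrArg norm h
    rwa [norm_pt, norm_pt, abs_of_nonneg hs, abs_of_pos hr] at this
  refine ⟨e, ?_⟩
  subst e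
  unfold pt at h
  have h5 := mul_left_cancel₀ (by exact_mod_cast hr.ne') h
  obtain ⟨m, hm⟩ := Complex.exp_eq_exp_iff_exists_int.1 h5
  have h6 : θ = φ + m * (2 * π) := by
    have := congrArg Complex.im hm
    simpa using this
  have hp := pi_pos
  have h7 : (m : ℝ) < 1 := by nlinarith
  have h8 : (-1 : ℝ) < m := by nlinarith
  have h9 : m = 0 := by
    have a : m < 1 := by exact_mod_cast h7
    have b : -1 < m := by exact_mod_cast h8
    omega
  rw [h6, h9]; simp

lemma mem_pos {s r θ α : ℝ} (hs : 0 ≤ s) (hr : 0 < r) (h1 : 0 ≤ θ) (h2 : θ < 2 * π)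
    (hα : α < 2 * π) (h : pt s θ ∈ side r 0 α) : s = r ∧ θ ≤ α := by
  obtain ⟨φ, a, b, e⟩ := mem_side.1 h
  have := pt_inj hs hr h1 h2 a (by linarith) e
  exact ⟨this.1, by linarith [this.2]⟩

lemma mem_neg {s r θ α : ℝ} (hs : s ≤ 0) (hr : 0 < r) (h1 : 0 ≤ θ) (h2 : θ < π)
    (hα : α < 2 * π) (h : pt s θ ∈ side r 0 α) : -s = r ∧ θ + π ≤ α := by
  have e : pt s θ = pt (-s) (θ + π) := by rw [← pt_neg, neg_neg]
  rw [e] at h
  exact mem_pos (by linarith) hr (by linarith [pi_pos]) (by linarith) hα h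

lemma pos_mem {r θ α : ℝ} (h1 : 0 ≤ θ) (h2 : θ ≤ α) : pt r θ ∈ side r 0 α :=
  mem_side.2 ⟨θ, h1, h2, rfl⟩

lemma neg_mem {r θ α : ℝ} (h1 : 0 ≤ θ) (h2 : θ + π ≤ α) : pt (-r) θ ∈ side r 0 α := by
  rw [pt_neg]; exact pos_mem (by linarith [pi_pos]) h2

lemma normalize_angle (θ : ℝ) : ∃ τ ε : ℝ, 0 ≤ τ ∧ τ < π ∧ (ε = 1 ∨ ε = -1) ∧
    ∀ s, pt s θ = pt (ε * s) τ := by
  have h1 := toIcoMod_mem_Ico' pi_pos θ
  have h2 := toIcoMod_add_toIcoDiv_zsmul pi_pos 0 θ
  set τ := toIcoMod pi_pos 0 θ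
  set m := toIcoDiv pi_pos 0 θ
  have h3 : Complex.exp ((θ : ℂ) * Complex.I) = (-1) ^ m * Complex.exp ((τ : ℂ) * Complex.I) := by
    rw [← h2, zsmul_eq_mul]
    push_cast
    rw [add_mul, Complex.exp_add, mul_assoc, Complex.exp_int_mul, Complex.exp_pi_mul_I, mul_comm]
  rcases Int.even_or_odd m with e | e
  · refine ⟨τ, 1, h1.1, h1.2, Or.inl rfl, fun s => ?_⟩
    unfold pt; rw [h3, e.neg_one_zpow]; simp
  · refine ⟨τ, -1, h1.1, h1.2, Or.inr rfl, fun s => ?_⟩
    unfold pt; rw [h3, e.neg_one_zpow]; simp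

/-- a cone contains a radial segment -/
lemma vis_ray {n k : ℕ} {A : Fin n → Set ℂ} {a b : Fin n} (h : Visible k A a b) :
    ∃ τ s₁ s₂ : ℝ, 0 ≤ τ ∧ τ < π ∧ pt s₁ τ ∈ A a ∧ pt s₂ τ ∈ A b ∧
      {c | c ≠ a ∧ c ≠ b ∧ ∃ s ∈ Set.uIcc s₁ s₂, pt s τ ∈ A c}.ncard ≤ k := by
  obtain ⟨ρ₁, ρ₂, θ₁, θ₂, -, h2, h3, h4, h5⟩ := h
  obtain ⟨τ, ε, a1, a2, a3, a4⟩ := normalize_angle θ₁
  refine ⟨τ, ε * ρ₁, ε * ρ₂, a1, a2, ?_, ?_, le_trans (Set.ncard_le_ncard ?_) h5⟩
  · rw [← a4]; exact h3 (mem_side.2 ⟨θ₁, le_rfl, h2.le, rfl⟩)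
  · rw [← a4]; exact h4 (mem_side.2 ⟨θ₁, le_rfl, h2.le, rfl⟩)
  · rintro c ⟨b1, b2, s, b3, b4⟩
    refine ⟨b1, b2, pt s τ, b4, ε * s, ?_, mem_side.2 ⟨θ₁, le_rfl, h2.le, ?_⟩⟩
    · rw [Set.mem_uIcc] at b3 ⊢
      rcases a3 with e | e <;> rw [e] at b3 ⊢ <;> rcases b3 with b3 | b3
      · left; constructor <;> linarith [b3.1, b3.2]
      · right; constructor <;> linarith [b3.1, b3.2]
      · right; constructor <;> linarith [b3.1, b3.2]
      · left; constructor <;> linarith [b3.1, b3.2]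
    · rw [a4]; congr 1
      rcases a3 with e | e <;> rw [e] <;> ring

lemma card_le_ncard {n : ℕ} (σ : Equiv.Perm (Fin n)) (Z : Set (Fin n)) (S : Finset ℕ)
    (h : ∀ v ∈ S, ∃ hv : v < n, σ ⟨v, hv⟩ ∈ Z) : S.card ≤ Z.ncard := by
  rw [← Set.ncard_coe_finset, ← Set.ncard_image_of_injective Z
    (f := fun c => (σ.symm c).val) (Fin.val_injective.comp σ.symm.injective)]
  apply Set.ncard_le_ncard
  · intro v hv
    obtain ⟨h1, h2⟩ := h v hv
    exact ⟨_, h2, by simp⟩
  · exact (Set.toFinite Z).image _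

lemma ncard_le_card {n : ℕ} (Z : Set (Fin n)) (S : Finset ℕ) (h : ∀ c ∈ Z, c.val ∈ S) :
    Z.ncard ≤ S.card := by
  rw [← Set.ncard_coe_finset, ← Set.ncard_image_of_injective Z Fin.val_injective]
  apply Set.ncard_le_ncard
  · rintro v ⟨c, hc, rfl⟩; exact h c hc
  · exact S.finite_toSet

lemma Cfg.E_fin (c : Cfg) : c.E = ((univ : Finset (Fin c.n × Fin c.n)).filter
    (fun p => p.1 < p.2 ∧ c.adj p.1 p.2)).card := by
  unfold Cfg.E
  symm
  apply card_bij (fun p _ => (p.1.val, p.2.val))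
  · intro p hp
    simp only [mem_filter, mem_univ, true_and, mem_product, mem_range] at hp ⊢
    exact ⟨⟨p.1.2, p.2.2⟩, hp⟩
  · intro p _ q _ h
    simp only [Prod.mk.injEq] at h
    exact Prod.ext (Fin.ext h.1) (Fin.ext h.2)
  · intro p hp
    simp only [mem_filter, mem_product, mem_range] at hp
    exact ⟨(⟨p.1, hp.1.1⟩, ⟨p.2, hp.1.2⟩), by
      simp only [mem_filter, mem_univ, true_and]; exact hp.2, rfl⟩

lemma Cfg.edges_le (c : Cfg) {n : ℕ} (hn : c.n = n) (G : SimpleGraph (Fin n))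
    (σ : Equiv.Perm (Fin n))
    (h : ∀ x y : Fin n, x < y → G.Adj (σ x) (σ y) → c.adj x y) : G.edgeSet.ncard ≤ c.E := by
  subst hn
  rw [c.E_fin, ← Set.ncard_coe_finset]
  refine le_trans (Set.ncard_le_ncard ?_ ((Finset.finite_toSet _).image
    (fun p : Fin c.n × Fin c.n => s(σ p.1, σ p.2)))) (Set.ncard_image_le (Finset.finite_toSet _))
  intro e he
  induction e using Sym2.ind with
  | _ a b =>
    have hab : G.Adj a b := he
    rcases lt_trichotomy (σ.symm a) (σ.symm b) with e | e | e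
    · exact ⟨(σ.symm a, σ.symm b), by
        simp only [coe_filter, mem_univ, true_and, Set.mem_ofPred_eq]
        exact ⟨e, h _ _ e (by simpa using hab)⟩, by simp⟩
    · exact absurd (σ.symm.injective e) hab.ne
    · exact ⟨(σ.symm b, σ.symm a), by
        simp only [coe_filter, mem_univ, true_and, Set.mem_ofPred_eq]
        exact ⟨e, h _ _ e (by simpa using hab.symm)⟩, by simp [Sym2.eq_swap]⟩

lemma Cfg.le_edges (c : Cfg) {n : ℕ} (hn : c.n = n) (G : SimpleGraph (Fin n))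
    (h : ∀ x y : Fin n, x < y → c.adj x y → G.Adj x y) : c.E ≤ G.edgeSet.ncard := by
  subst hn
  rw [c.E_fin, ← Set.ncard_coe_finset]
  apply Set.ncard_le_ncard_of_injOn (fun p : Fin c.n × Fin c.n => s(p.1, p.2))
  · intro p hp
    simp only [coe_filter, mem_univ, true_and, Set.mem_ofPred_eq] at hp
    exact h _ _ hp.1 hp.2
  · intro p hp q hq e
    simp only [coe_filter, mem_univ, true_and, Set.mem_ofPred_eq] at hp hq
    rcases Sym2.eq_iff.1 e with ⟨a, b⟩ | ⟨a, b⟩
    · exact Prod.ext a b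
    · have h1 := hp.1; have h2 := hq.1
      rw [a, b] at h1; exact absurd h1 h2.not_gt

lemma Cfg.org_iff (c : Cfg) (τ x y : ℕ) : c.org τ x y ↔
    (((range x).filter (fun v => c.lg v ∨ τ < c.t v)) ∪
      ((Ioo x y).filter (fun v => c.lg v ∧ τ < c.t v))).card < c.K := by
  rw [card_union_of_disjoint]
  · rfl
  · rw [disjoint_left]; intro v; simp only [mem_filter, mem_range, mem_Ioo]; omega

section
variable (n K : ℕ) (al : ℕ → ℝ)

noncomputable def be (v : ℕ) : ℝ := if π ≤ al v then al v - π else al v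
noncomputable def tm (v : ℕ) : ℕ :=
  if v < n then rk (range n) (fun u => toLex (be al u, u)) v else v

lemma tm_lt {v : ℕ} (h : v < n) : tm n al v < n := by
  unfold tm; rw [if_pos h]
  simpa using rk_lt_card (range n) (fun u => toLex (be al u, u)) (mem_range.2 h)

lemma tm_mono {u v : ℕ} (hu : u < n) (hv : v < n) (h : tm n al u < tm n al v) :
    be al u ≤ be al v := by
  by_contra e
  have := rk_lt_rk (range n) (fun u => toLex (be al u, u)) (x := v) (y := u) (mem_range.2 hv)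
    (Prod.Lex.toLex_lt_toLex.2 (Or.inl (not_le.1 e)))
  unfold tm at h; rw [if_pos hu, if_pos hv] at h; omega

/-- the configuration attached to a list of angles -/
noncomputable def ofAngles (hal : ∀ v, n ≤ v → π ≤ al v) : Cfg where
  n := n
  K := K
  lg v := π ≤ al v
  t := tm n al
  key v := if π ≤ al v then tm n al v + n else tm n al v
  tinj := by
    intro x y h
    by_cases hx : x < n <;> by_cases hy : y < n
    · unfold tm at h; rw [if_pos hx, if_pos hy] at h
      exact rk_injOn (range n) (fun u => toLex (be al u, u))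
        (fun a _ b _ e => (Prod.ext_iff.1 (toLex.injective e)).2) (mem_range.2 hx)
        (mem_range.2 hy) h
    · have := tm_lt n al hx; unfold tm at h this; rw [if_neg hy] at h; omega
    · have := tm_lt n al hy; unfold tm at h this; rw [if_neg hx] at h; omega
    · unfold tm at h; rwa [if_neg hx, if_neg hy] at h
  h1 := by
    intro x y hx hy
    have := tm_lt n al (v := x) (by by_contra e; exact hx (hal x (by omega)))
    rw [if_neg hx, if_pos hy]; omega
  h2 := by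
    intro x y h
    by_cases hx : π ≤ al x
    · rw [if_pos hx, if_pos (h.1 hx)]; omega
    · rw [if_neg hx, if_neg (fun e => hx (h.2 e))]

lemma key_mono (hal : ∀ v, n ≤ v → π ≤ al v) {u v : ℕ} (hu : u < n) (hv : v < n)
    (h : (ofAngles n K al hal).key u < (ofAngles n K al hal).key v) : al u ≤ al v := by
  by_cases a : π ≤ al u
  · have h1 := ((ofAngles n K al hal).key_l_iff a v).1 h
    have h2 := tm_mono n al hu hv h1.2
    have h3 : π ≤ al v := h1.1
    unfold be at h2; rw [if_pos a, if_pos h3] at h2; linarith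
  · by_cases b : π ≤ al v
    · linarith [not_le.1 a]
    · have h2 := tm_mono n al hu hv ((ofAngles n K al hal).t_lt_ss b h)
      unfold be at h2; rwa [if_neg a, if_neg b] at h2

end

theorem geo_upper {n k : ℕ} {G : SimpleGraph (Fin n)} (hG : IsSemiArc k G) :
    ∃ c : Cfg, c.n = n ∧ c.K = k + 1 ∧ (∀ v, c.n ≤ v → c.lg v) ∧ G.edgeSet.ncard ≤ c.E := by
  obtain ⟨r, α, h1, h2, h3⟩ := hG
  have hr : Function.Injective r := by
    intro a b e
    by_contra f
    have := Set.disjoint_left.1 (h2 a b f) (pos_mem (r := r a) le_rfl (h1 a).2.1)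
    rw [e] at this
    exact this (pos_mem le_rfl (h1 b).2.1)
  set σ := Tuple.sort r with hσ
  have hm : StrictMono (r ∘ σ) :=
    (Tuple.monotone_sort r).strictMono_of_injective (hr.comp σ.injective)
  let al : ℕ → ℝ := fun v => if h : v < n then α (σ ⟨v, h⟩) else π
  have hal : ∀ v, n ≤ v → π ≤ al v := fun v hv => by simp [al, not_lt.2 hv]
  have hal2 : ∀ (v : ℕ) (h : v < n), al v = α (σ ⟨v, h⟩) := fun v h => by simp [al, h]
  refine ⟨ofAngles n (k + 1) al hal, rfl, rfl, hal, ?_⟩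
  set c := ofAngles n (k + 1) al hal with hc
  have hcn : c.n = n := rfl
  refine c.edges_le (n := n) hcn G σ ?_
  intro x y hxy hadj
  have hx : x.val < n := x.2
  have hy : y.val < n := y.2
  obtain ⟨τ, s₁, s₂, t1, t2, p1, p2, hk⟩ := vis_ray ((h3 _ _).1 hadj).2
  have ax : al x = α (σ x) := hal2 x hx
  have ay : al y = α (σ y) := hal2 y hy
  have hne : ∀ (v : ℕ) (hv : v < n), v ≠ x → v ≠ y → σ ⟨v, hv⟩ ≠ σ x ∧ σ ⟨v, hv⟩ ≠ σ y := by
    intro v hv a b
    exact ⟨fun e => a (congrArg Fin.val (σ.injective e)),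
      fun e => b (congrArg Fin.val (σ.injective e))⟩
  have hlo : ∀ (v : ℕ) (hv : v < n) (z : Fin n), v < z → r (σ ⟨v, hv⟩) ≤ r (σ z) :=
    fun v hv z h => (hm (show (⟨v, hv⟩ : Fin n) < z from h)).le
  have hhi : ∀ (v : ℕ) (hv : v < n) (z : Fin n), z.val < v → r (σ z) ≤ r (σ ⟨v, hv⟩) :=
    fun v hv z h => (hm (show z < (⟨v, hv⟩ : Fin n) from h)).le
  have hsame : ∀ θ : ℝ, θ ≤ al x → θ ≤ al y →
      (∀ (v : ℕ) (hv : v < n), x < v → v < y → θ ≤ α (σ ⟨v, hv⟩) →
        ∃ s ∈ Set.uIcc s₁ s₂, pt s τ ∈ side (r (σ ⟨v, hv⟩)) 0 (α (σ ⟨v, hv⟩))) → c.same x y := by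
    intro θ a b e
    refine Nat.lt_succ_of_le (le_trans (card_le_ncard σ _ _ ?_) hk)
    intro v hv
    simp only [mem_filter, mem_Ioo] at hv
    have hv1 : v < n := by omega
    have hv2 := hne v hv1 (by omega) (by omega)
    refine ⟨hv1, hv2.1, hv2.2, e v hv1 hv.1.1 hv.1.2 ?_⟩
    rw [← hal2 v hv1]
    rcases min_lt_iff.1 hv.2 with f | f
    · exact a.trans (key_mono n (k + 1) al hal hx hv1 f)
    · exact b.trans (key_mono n (k + 1) al hal hy hv1 f)
  have hp := pi_pos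
  rcases le_total 0 s₂ with q2 | q2
  · have m2 := mem_pos q2 (h1 _).1 t1 (by linarith) (h1 _).2.2 p2
    left
    have m1 : τ ≤ α (σ x) ∧ s₁ ≤ r (σ x) := by
      rcases le_total 0 s₁ with q1 | q1
      · have := mem_pos q1 (h1 _).1 t1 (by linarith) (h1 _).2.2 p1
        exact ⟨this.2, this.1.le⟩
      · have := mem_neg q1 (h1 _).1 t1 t2 (h1 _).2.2 p1
        exact ⟨by linarith [this.2], by linarith [(h1 (σ x)).1]⟩
    refine hsame τ (by rw [ax]; exact m1.1) (by rw [ay]; exact m2.2) ?_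
    intro v hv a b e
    refine ⟨r (σ ⟨v, hv⟩), Set.mem_uIcc.2 (Or.inl ⟨?_, ?_⟩), pos_mem t1 e⟩
    · exact m1.2.trans (hhi v hv x a)
    · rw [m2.1]; exact hlo v hv y b
  · have m2 := mem_neg q2 (h1 _).1 t1 t2 (h1 _).2.2 p2
    rcases le_total 0 s₁ with q1 | q1
    · have m1 := mem_pos q1 (h1 _).1 t1 (by linarith) (h1 _).2.2 p1
      right
      have ly : π ≤ al y := by rw [ay]; linarith [m2.2]
      refine ⟨ly, (c.org_iff _ _ _).2 (Nat.lt_succ_of_le (le_trans (card_le_ncard σ _ _ ?_) hk))⟩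
      have hbe : ∀ v, v < n → (if c.lg x then c.t y else min (c.t x) (c.t y)) < c.t v →
          τ ≤ be al v := by
        intro v hv h
        have by' : τ ≤ be al y := by unfold be; rw [if_pos ly, ay]; linarith [m2.2]
        split_ifs at h with f
        · exact by'.trans (tm_mono n al hy hv h)
        · rcases min_lt_iff.1 h with g | g
          · have bx : τ ≤ be al x := by
              have f' : ¬ π ≤ al x := f
              unfold be; rw [if_neg f', ax]; exact m1.2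
            exact bx.trans (tm_mono n al hx hv g)
          · exact by'.trans (tm_mono n al hy hv g)
      intro v hv
      have hxy' : x.val < y.val := hxy
      rcases mem_union.1 hv with f | f
      · simp only [mem_filter, mem_range] at f
        have hv1 : v < n := by omega
        have hv2 := hne v hv1 (by omega) (by omega)
        refine ⟨hv1, hv2.1, hv2.2, r (σ ⟨v, hv1⟩), Set.mem_uIcc.2 (Or.inr ⟨?_, ?_⟩),
          pos_mem t1 ?_⟩
        · linarith [(h1 (σ ⟨v, hv1⟩)).1]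
        · rw [m1.1]; exact hlo v hv1 x f.1
        · rw [← hal2 v hv1]
          by_cases g : π ≤ al v
          · linarith
          · have := hbe v hv1 (f.2.resolve_left g)
            unfold be at this; rwa [if_neg g] at this
      · simp only [mem_filter, mem_Ioo] at f
        have hv1 : v < n := by omega
        have hv2 := hne v hv1 (by omega) (by omega)
        refine ⟨hv1, hv2.1, hv2.2, -r (σ ⟨v, hv1⟩), Set.mem_uIcc.2 (Or.inr ⟨?_, ?_⟩),
          neg_mem t1 ?_⟩
        · linarith [hlo v hv1 y f.1.2, m2.1]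
        · linarith [(h1 (σ ⟨v, hv1⟩)).1]
        · rw [← hal2 v hv1]
          have g : π ≤ al v := f.2.1
          have := hbe v hv1 f.2.2
          unfold be at this; rw [if_pos g] at this; linarith
    · have m1 := mem_neg q1 (h1 _).1 t1 t2 (h1 _).2.2 p1
      left
      refine hsame (τ + π) (by rw [ax]; exact m1.2) (by rw [ay]; exact m2.2) ?_
      intro v hv a b e
      refine ⟨-r (σ ⟨v, hv⟩), Set.mem_uIcc.2 (Or.inr ⟨?_, ?_⟩), neg_mem t1 e⟩
      · linarith [hlo v hv y b, m2.1]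
      · linarith [hhi v hv x a, m1.1]

end Pool.Agent.P.MP_5402c6_co
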