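import Pool.Agent.P.MP_5402c6_co.Geo1
import Pool.Agent.P.MP_5402c6_co.Constr

/-! From the combinatorial model to arcs in the plane, and the main theorem. -/

namespace Pool.Agent.P.MP_5402c6_co

open Finset Real

lemma Visible.symm {n k : ℕ} {A : Fin n → Set ℂ} {a b : Fin n} (h : Visible k A a b) :
    Visible k A b a := by
  obtain ⟨ρ₁, ρ₂, θ₁, θ₂, h1, h2, h3, h4, h5⟩ := h
  refine ⟨ρ₂, ρ₁, θ₁, θ₂, h1.symm, h2, h4, h3, le_trans (le_of_eq ?_) h5⟩
  congr 1; ext c
  simp only [cone, Set.uIcc_comm ρ₂ ρ₁, Set.mem_ofPred_eq]; tauto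

theorem geo_lower {k : ℕ} (c : Cfg) (hK : c.K = k + 1) {n : ℕ} (hn : c.n = n) :
    ∃ G : SimpleGraph (Fin n), IsSemiArc k G ∧ c.E ≤ G.edgeSet.ncard := by
  have hp := pi_pos
  obtain ⟨δ, hδ⟩ : ∃ δ : ℝ, δ = π / (c.big + 1) := ⟨_, rfl⟩
  have hδ0 : 0 < δ := by rw [hδ]; positivity
  have hδ1 : (c.big + 1) * δ = π := by rw [hδ]; field_simp
  let be : ℕ → ℝ := fun v => (c.t v + 1) * δ
  let al : ℕ → ℝ := fun v => if c.lg v then be v + π else be v
  have b1 : ∀ v, δ ≤ be v := fun v => by
    have : (0 : ℝ) ≤ c.t v := by positivity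
    simp only [be]; nlinarith
  have b2 : ∀ v, v < n → be v < π := fun v hv => by
    have h1 : c.t v + 1 < c.big + 1 := by have := c.lt_big (v := v) (by omega); omega
    have h2 : (c.t v : ℝ) + 1 < c.big + 1 := by exact_mod_cast h1
    simp only [be]; nlinarith
  have b3 : ∀ u v, c.t u ≤ c.t v → be u ≤ be v := fun u v h => by
    have h2 : (c.t u : ℝ) ≤ c.t v := by exact_mod_cast h
    simp only [be]; nlinarith
  have b4 : ∀ u v, u ≠ v → be u - δ / 2 ≤ be v → c.t u < c.t v := fun u v h e => by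
    have h1 := c.t_ne h
    by_contra f
    have h2 : c.t v + 1 ≤ c.t u := by omega
    have h3 : (c.t v : ℝ) + 1 ≤ c.t u := by exact_mod_cast h2
    simp only [be] at e; nlinarith
  have al1 : ∀ v, c.lg v → al v = be v + π := fun v h => if_pos h
  have al2 : ∀ v, ¬ c.lg v → al v = be v := fun v h => if_neg h
  have a1 : ∀ v, be v ≤ al v := fun v => by
    by_cases h : c.lg v
    · rw [al1 v h]; linarith
    · rw [al2 v h]
  have a2 : ∀ v, v < n → al v < 2 * π := fun v hv => by
    have := b2 v hv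
    by_cases h : c.lg v
    · rw [al1 v h]; linarith
    · rw [al2 v h]; linarith
  have a3 : ∀ u v, c.key u < c.key v → u < n → al u ≤ al v := fun u v h hu => by
    by_cases e : c.lg u
    · have := (c.key_l_iff e v).1 h
      rw [al1 u e, al1 v this.1]; linarith [b3 u v this.2.le]
    · by_cases f : c.lg v
      · rw [al2 u e, al1 v f]; linarith [b2 u hu, b1 v]
      · rw [al2 u e, al2 v f]; exact b3 u v (c.t_lt_ss f h).le
  have a4 : ∀ u v, u ≠ v → v < n → al u - δ / 2 ≤ al v → c.key u < c.key v := fun u v h hv e => by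
    by_cases f : c.lg u
    · by_cases g : c.lg v
      · rw [al1 u f, al1 v g] at e
        exact c.key_lt_ll f g (b4 u v h (by linarith))
      · rw [al1 u f, al2 v g] at e
        linarith [b1 u, b2 v hv]
    · by_cases g : c.lg v
      · exact c.h1 u v f g
      · rw [al2 u f, al2 v g] at e
        exact c.key_lt_ss f g (b4 u v h e)
  let A : Fin n → Set ℂ := fun v => side ((v.val : ℝ) + 1) 0 (al v)
  have hr : ∀ v : Fin n, (0 : ℝ) < v.val + 1 := fun v => by positivity
  let G : SimpleGraph (Fin n) :=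
    { Adj := fun a b => a ≠ b ∧ Visible k A a b
      symm := ⟨fun _ _ h => ⟨h.1.symm, h.2.symm⟩⟩
      loopless := ⟨fun _ h => h.1 rfl⟩ }
  refine ⟨G, ⟨fun v => (v.val : ℝ) + 1, fun v => al v,
    fun v => ⟨hr v, by linarith [a1 v, b1 v], a2 v v.2⟩, ?_, fun a b => Iff.rfl⟩,
    c.le_edges (n := n) hn G ?_⟩
  · intro a b hab
    rw [Set.disjoint_left]
    intro z h1 h2
    obtain ⟨θ, -, -, e1⟩ := mem_side.1 h1
    obtain ⟨φ, -, -, e2⟩ := mem_side.1 h2
    have h3 := congrArg norm (e1.symm.trans e2)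
    rw [norm_pt, norm_pt, abs_of_pos (hr a), abs_of_pos (hr b)] at h3
    exact hab (Fin.ext (by exact_mod_cast add_right_cancel h3))
  intro x y hxy hadj
  have hxy' : x.val < y.val := hxy
  have hxyr : (x.val : ℝ) < y.val := by exact_mod_cast hxy'
  refine ⟨hxy.ne, ?_⟩
  rcases hadj with hs | ⟨hl, ho⟩
  · obtain ⟨m, hm1, hm2, hm3, hm4⟩ : ∃ m : ℕ, (m = x ∨ m = y) ∧ c.key m = min (c.key x) (c.key y) ∧
        al m ≤ al x ∧ al m ≤ al y := by
      rcases lt_or_gt_of_ne (c.key_ne hxy'.ne) with e | e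
      · exact ⟨x, Or.inl rfl, (min_eq_left e.le).symm, le_rfl, a3 _ _ e x.2⟩
      · exact ⟨y, Or.inr rfl, (min_eq_right e.le).symm, a3 _ _ e y.2, le_rfl⟩
    have m1 : δ ≤ al m := (b1 m).trans (a1 m)
    have m2 := a2 x x.2
    refine ⟨x.val + 1, y.val + 1, al m - δ / 2, al m, by linarith, by linarith, ?_, ?_, ?_⟩
    · intro z hz
      obtain ⟨θ, e1, e2, rfl⟩ := mem_side.1 hz
      exact pos_mem (by linarith) (by linarith)
    · intro z hz
      obtain ⟨θ, e1, e2, rfl⟩ := mem_side.1 hz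
      exact pos_mem (by linarith) (by linarith)
    · unfold Cfg.same at hs
      rw [hK] at hs
      refine le_trans (ncard_le_card _ _ ?_) (Nat.le_of_lt_succ hs)
      rintro v ⟨v1, v2, z, v3, ρ, v4, v5⟩
      obtain ⟨θ, e1, e2, rfl⟩ := mem_side.1 v5
      rw [Set.uIcc_of_le (by linarith)] at v4
      have v6 := mem_pos (by linarith [v4.1, hr x]) (hr v) (by linarith) (by linarith)
        (a2 v v.2) v3
      have v7 : x.val ≤ v.val := by
        have : (x.val : ℝ) ≤ v.val := by linarith [v4.1, v6.1]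
        exact_mod_cast this
      have v8 : v.val ≤ y.val := by
        have : (v.val : ℝ) ≤ y.val := by linarith [v4.2, v6.1]
        exact_mod_cast this
      have v9 : v.val ≠ x.val := fun e => v1 (Fin.ext e)
      have v10 : v.val ≠ y.val := fun e => v2 (Fin.ext e)
      simp only [mem_filter, mem_Ioo]
      refine ⟨by omega, ?_⟩
      rw [← hm2]
      exact a4 m v (by omega) v.2 (by linarith [v6.2])
  · obtain ⟨m, hm1, hm2, hm3, hm4⟩ : ∃ m : ℕ, (m = x ∨ m = y) ∧
        c.t m = (if c.lg x then c.t y else min (c.t x) (c.t y)) ∧ be m ≤ al x ∧ be m ≤ be y := by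
      by_cases e : c.lg x
      · exact ⟨y, Or.inr rfl, (if_pos e).symm, by rw [al1 x e]; linarith [b2 y y.2, b1 x], le_rfl⟩
      · rw [if_neg e, al2 x e]
        rcases le_total (c.t x) (c.t y) with f | f
        · exact ⟨x, Or.inl rfl, (min_eq_left f).symm, le_rfl, b3 _ _ f⟩
        · exact ⟨y, Or.inr rfl, (min_eq_right f).symm, b3 _ _ f, le_rfl⟩
    have m1 := b1 m
    have m2 := b2 y y.2
    refine ⟨x.val + 1, -(y.val + 1), be m - δ / 2, be m, by linarith [hr x, hr y], by linarith,
      ?_, ?_, ?_⟩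
    · intro z hz
      obtain ⟨θ, e1, e2, rfl⟩ := mem_side.1 hz
      exact pos_mem (by linarith) (by linarith)
    · intro z hz
      obtain ⟨θ, e1, e2, rfl⟩ := mem_side.1 hz
      exact neg_mem (by linarith) (by rw [al1 y hl]; linarith)
    · rw [c.org_iff, hK, ← hm2] at ho
      refine le_trans (ncard_le_card _ _ ?_) (Nat.le_of_lt_succ ho)
      rintro v ⟨v1, v2, z, v3, ρ, v4, v5⟩
      obtain ⟨θ, e1, e2, rfl⟩ := mem_side.1 v5
      rw [Set.uIcc_of_ge (by linarith [hr x, hr y])] at v4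
      have v9 : v.val ≠ x.val := fun e => v1 (Fin.ext e)
      have v10 : v.val ≠ y.val := fun e => v2 (Fin.ext e)
      simp only [mem_union, mem_filter, mem_Ioo, mem_range]
      rcases le_total 0 ρ with f | f
      · have v6 := mem_pos f (hr v) (by linarith) (by linarith) (a2 v v.2) v3
        have v7 : v.val ≤ x.val := by
          have : (v.val : ℝ) ≤ x.val := by linarith [v4.2, v6.1]
          exact_mod_cast this
        left
        refine ⟨by omega, ?_⟩
        by_cases g : c.lg v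
        · exact Or.inl g
        · right
          rw [al2 v g] at v6
          exact b4 m v (by omega) (by linarith [v6.2])
      · have v6 := mem_neg f (hr v) (by linarith) (by linarith) (a2 v v.2) v3
        have v7 : v.val ≤ y.val := by
          have : (v.val : ℝ) ≤ y.val := by linarith [v4.1, v6.1]
          exact_mod_cast this
        have g : c.lg v := by
          by_contra g
          rw [al2 v g] at v6
          linarith [v6.2, b2 v v.2]
        rw [al1 v g] at v6
        have v8 := b4 m v (by omega) (by linarith [v6.2])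
        by_cases h : v.val < x.val
        · exact Or.inl ⟨h, Or.inl g⟩
        · exact Or.inr ⟨by omega, g, v8⟩

theorem exact_value (k n m : ℕ) (hn : 3 * (k + 1) < n)
    (hm : 2 * (m : ℤ) + ((k + 1 : ℕ) * ((k + 1 : ℕ) + 1) + 2 * dv (k + 1) n) =
      4 * (k + 1 : ℕ) * n) :
    IsGreatest {e | ∃ G : SimpleGraph (Fin n), IsSemiArc k G ∧ G.edgeSet.ncard = e} m := by
  have up : ∀ G : SimpleGraph (Fin n), IsSemiArc k G → G.edgeSet.ncard ≤ m := by
    intro G hG
    obtain ⟨c, h1, h2, h3, h4⟩ := geo_upper hG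
    have h5 := c.upper h3 (by omega)
    have h6 := c.E_eq
    rw [h1, h2] at h5 h6
    have : (c.E : ℤ) ≤ m := by linarith
    omega
  constructor
  · obtain ⟨c, h1, h2, h3⟩ := exists_cfg (k + 1) n hn
    obtain ⟨G, hG, h4⟩ := geo_lower c h1 h2
    have h6 := c.E_eq
    rw [h1, h2] at h6
    have : (m : ℤ) ≤ c.E := by linarith
    exact ⟨G, hG, le_antisymm (up G hG) (by omega)⟩
  · rintro e ⟨G, hG, rfl⟩
    exact up G hG

end Pool.Agent.P.MP_5402c6_co
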