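import Pool.Agent.P.MP_5402c6_co.Exist

/-! The regime of many arcs. -/

namespace Pool.Agent.P.MP_5402c6_co

open Finset

namespace Cfg
variable (c : Cfg)

def alive (u x : ℕ) : Prop := ¬ c.lg u ∨ c.t u < c.t x
noncomputable instance (u x : ℕ) : Decidable (c.alive u x) := Classical.dec _

lemma J_L {π f : ℕ} (hπ : π ≤ c.n) (hf : f ∈ c.J π) : f ∈ c.L π := by
  have := c.mem_J.1 hf; exact c.mem_L.2 ⟨by omega, Or.inr this.2⟩

lemma r1_F {π f : ℕ} (hπ : π ≤ c.n) (hf : f ∈ c.J π) (X : Finset ℕ) (hX : X ⊆ c.S π) :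
    min ((c.K : ℤ) - c.p π f + 1) (2 * c.K - (c.S π).card + 2 - 2 * c.p π f +
      (X.filter (fun x => f < x)).card) ≤ c.B f := by
  have h0 := c.mem_J.1 hf
  have h1 := c.B_ge f
  have h2 : (insert f ((range f).filter (fun y => c.key f < c.key y))).card ≤ c.p π f := by
    unfold p; apply card_le_card; intro y
    simp only [mem_insert, mem_filter, mem_range, mem_L]
    rintro (e | ⟨a, b⟩)
    · subst e; exact ⟨⟨by omega, Or.inr h0.2⟩, le_rfl⟩
    · exact ⟨⟨by omega, Or.inr (c.lg_of_lt h0.2 b)⟩, a.le⟩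
  rw [card_insert_of_notMem (by simp)] at h2
  have h3 : (c.nw f).card ≤ (range (f - c.K)).card := by
    apply card_le_card; intro w hw
    have hb := ((c.mem_nw_l h0.2).1 hw).2.2.1
    have h4 := c.btw_le w f
    have := hb.1; have := hb.2.2
    simp only [mem_range]; omega
  rw [card_range] at h3
  have h4 : (range (f + 1)).card + (X.filter (fun x => f < x)).card ≤ c.p π f + (c.S π).card := by
    unfold p
    apply card22
    · intro x; simp only [mem_range, mem_filter]; omega
    · intro x; simp only [mem_range, mem_filter, mem_L, mem_S]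
      intro hx
      by_cases e : c.lg x
      · left; exact ⟨⟨by omega, Or.inr e⟩, by omega⟩
      · right; exact ⟨by omega, e⟩
    · intro x hx; right; exact hX (mem_filter.1 hx).1
  rw [card_range] at h4
  unfold inn at h1
  omega

lemma r1_T {π u v : ℕ} (X T : Finset ℕ) (hX1 : X.card = v)
    (hX2 : ∀ x ∈ X, ∀ y ∈ c.S π, y ∉ X → c.t y < c.t x) (hT : T ⊆ Ico π c.n)
    (hT2 : ∀ x ∈ T, ∀ y ∈ Ico π c.n, y ∉ T → c.key y < c.key x)
    (hU : (c.J π).card + v ≤ c.K ∨ v = 0) (hu : u ∈ T) :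
    (c.K : ℤ) - (T.filter (fun w => c.key u < c.key w)).card +
      ((Icc 1 v).filter (fun l => c.p π u + l ≤ 2 * c.K + 1)).card ≤
      c.A u + c.B u + (X.filter (fun x => c.alive u x)).card := by
  have hu1 := mem_Ico.1 (hT hu)
  have huL : u ∈ c.L π := c.mem_L.2 ⟨hu1.2, Or.inl hu1.1⟩
  have hA := c.A_ge u
  have hB := c.B_nonneg u
  have h1 : c.out u + (T.filter (fun w => w < u ∧ c.key u < c.key w)).card ≤
      (T.filter (fun w => c.key u < c.key w)).card := by
    unfold out
    apply le_card2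
    · intro w; simp only [mem_filter, mem_Ioo]
      rintro ⟨a, b⟩
      refine ⟨?_, b⟩
      by_contra e
      have := hT2 u hu w (mem_Ico.2 ⟨by omega, a.2⟩) e; omega
    · intro w; simp only [mem_filter]; tauto
    · intro w; simp only [mem_filter, mem_Ioo]; omega
  have h2 : ((Icc 1 v).filter (fun l => c.p π u + l ≤ 2 * c.K + 1)).card ≤ v := by
    simpa using card_filter_le (Icc 1 v) (fun l => c.p π u + l ≤ 2 * c.K + 1)
  by_cases hall : ∀ x ∈ X, c.alive u x
  · rw [filter_true_of_mem hall]; omega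
  push Not at hall
  obtain ⟨x0, hx0, hd⟩ := hall
  unfold alive at hd
  push Not at hd
  have h3 : ((Icc 1 v).filter (fun l => c.p π u + l ≤ 2 * c.K + 1)).card ≤
      (Icc 1 (2 * c.K + 1 - c.p π u)).card := by
    apply card_le_card; intro l; simp only [mem_filter, mem_Icc]; omega
  rw [Nat.card_Icc] at h3
  have h4 := c.B_ge u
  have h5 : c.inn u + (c.nw u).card ≤ (((range u).filter (fun y => c.key u < c.key y)) ∪
      c.nw u).card := by
    unfold inn
    apply le_card2
    · intro w hw; exact mem_union_left _ hw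
    · intro w hw; exact mem_union_right _ hw
    · intro w hw hw2
      have := ((c.mem_nw_l hd.1).1 hw2).2.2.1.2.1
      have := (mem_filter.1 hw).2; omega
  have h6 : (((range u).filter (fun y => c.key u < c.key y)) ∪ c.nw u).card ≤
      (T.filter (fun w => w < u ∧ c.key u < c.key w)).card +
      (X.filter (fun x => c.alive u x)).card +
      ((c.L π).filter (fun w => 0 < c.p π w ∧
        c.p π w ≤ max (c.J π).card (c.p π u - c.K - 1))).card := by
    apply card_le3; intro w hw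
    simp only [mem_filter]
    rcases mem_union.1 hw with h | h
    · simp only [mem_filter, mem_range] at h
      have hl := c.lg_of_lt hd.1 h.2
      have hwL : w ∈ c.L π := c.mem_L.2 ⟨by omega, Or.inr hl⟩
      by_cases e : π ≤ w
      · left
        refine ⟨?_, h⟩
        by_contra e2
        have := hT2 u hu w (mem_Ico.2 ⟨e, by omega⟩) e2; omega
      · right; right
        have := c.p_le_J' (π := π) (m := π) (v := w) le_rfl (by omega)
        exact ⟨hwL, c.p_pos π hwL, by omega⟩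
    · have h7 := (c.mem_nw_l hd.1).1 h
      by_cases e : w ∈ c.L π
      · right; right
        have := c.btw_le_p e huL h7.2.2.1.1
        have := h7.2.2.1.2.2
        exact ⟨e, c.p_pos π e, by omega⟩
      · right; left
        simp only [mem_L, not_and, not_or, not_le] at e
        have h8 := e h7.1
        have h9 : c.t u < c.t w := by tauto
        refine ⟨?_, Or.inr h9⟩
        by_contra e2
        have := hX2 x0 hx0 w (c.mem_S.2 h8) e2; omega
  have h7 := c.card_p_le π 0 (max (c.J π).card (c.p π u - c.K - 1))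
  have := card_pos.2 ⟨x0, hx0⟩
  omega

lemma r1_X {π x v : ℕ} (X T : Finset ℕ) (hX : X ⊆ c.S π) (hX1 : X.card = v)
    (hX2 : ∀ x ∈ X, ∀ y ∈ c.S π, y ∉ X → c.t y < c.t x)
    (hT1 : T.card = c.K) (hT2 : ∀ x ∈ T, ∀ y ∈ Ico π c.n, y ∉ T → c.key y < c.key x)
    (hU : (c.J π).card + v ≤ c.K ∨ v = 0) (hx : x ∈ X) :
    ((T.filter (fun u => c.alive u x)).card : ℤ) - (X.filter (fun y => c.t x < c.t y)).card -
      ((c.J π).filter (fun f => f < x)).card ≤ c.B x := by
  have hx1 := c.mem_S.1 (hX hx)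
  have hXup : ∀ y, y < π → ¬ c.lg y → c.key x < c.key y → y ∈ X ∧ c.t x < c.t y := by
    intro y a b e
    have h := c.t_lt_ss b e
    refine ⟨?_, h⟩
    by_contra e2
    have := hX2 x hx y (c.mem_S.2 ⟨a, b⟩) e2; omega
  have h1 := c.B_ge x
  have h2 : c.inn x ≤ (X.filter (fun y => c.t x < c.t y)).card +
      ((c.J π).filter (fun f => f < x)).card := by
    unfold inn
    apply card_le2; intro y; simp only [mem_filter, mem_range, mem_J]
    rintro ⟨a, b⟩
    by_cases e : c.lg y
    · right; exact ⟨⟨by omega, e⟩, a⟩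
    · left; exact hXup y (by omega) e b
  have h3 : ∀ y ∈ c.nw x, π ≤ y := by
    intro y hy
    have h4 := (c.mem_nw_s hx1.2).1 hy
    by_contra e
    have h5 : c.btw x y ≤ (X.erase x).card + ((c.J π).erase y).card := by
      unfold btw
      apply card_le2; intro w; simp only [mem_filter, mem_Ioo, mem_erase, mem_J]
      rintro ⟨a, b⟩
      by_cases e2 : c.lg w
      · right; exact ⟨by omega, by omega, e2⟩
      · left; exact ⟨by omega, (hXup w (by omega) e2 b).1⟩
    rw [card_erase_of_mem hx, card_erase_of_mem (c.mem_J.2 ⟨by omega, h4.2.1⟩)] at h5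
    have := card_pos.2 ⟨x, hx⟩
    have := h4.2.2.2.1.2.2
    omega
  have h4 : (c.nw x).card + (T.filter (fun u => c.alive u x)).card ≤ c.K := by
    by_cases h0 : ∀ y ∈ c.nw x, y ∈ T
    · rw [← hT1]
      apply le_card2 h0
      · intro y hy; exact (mem_filter.1 hy).1
      · intro y hy; simp only [mem_filter, alive]
        have := (c.mem_nw_s hx1.2).1 hy
        rintro ⟨-, e | e⟩
        · tauto
        · omega
    · push Not at h0
      obtain ⟨y, hy, hyT⟩ := h0
      have hy1 := (c.mem_nw_s hx1.2).1 hy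
      have h5 : (T.filter (fun u => c.alive u x)).card = 0 := by
        rw [card_eq_zero, filter_eq_empty_iff]
        intro u hu
        have h6 := hT2 u hu y (mem_Ico.2 ⟨h3 y hy, hy1.1⟩) hyT
        have h7 := c.lg_of_lt hy1.2.1 h6
        have h8 := c.t_lt_ll hy1.2.1 h6
        unfold alive; rintro (e | e)
        · exact e h7
        · omega
      have := c.nw_le x; omega
  omega

lemma sum_Icc_sub (v : ℕ) (a : ℤ) : 2 * ∑ l ∈ Icc 1 v, (a - (l : ℤ)) = 2 * v * a - v * (v + 1) := by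
  induction v with
  | zero => simp
  | succ m ih => rw [sum_Icc_succ_top (by omega)]; push_cast; linarith

lemma reg1_core (π m v : ℕ) (a : ℤ) (hπ : π + c.K ≤ c.n)
    (hL : 2 * c.K + (c.S π).card ≤ c.n) (hm : m ≤ (c.J π).card)
    (ha : a ≤ 2 * c.K - (c.S π).card) (hav : a + v ≤ c.K) (hv : v ≤ (c.S π).card)
    (hvm : v = 0 ∨ m = (c.J π).card) (hU : (c.J π).card + v ≤ c.K ∨ v = 0) :
    (c.K : ℤ) * (c.K + 1) + 2 * (m * (a + 1 - m)) +
      2 * (v * (3 * c.K - c.n + (c.S π).card + 1 - v)) ≤ 2 * c.SAB := by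
  have hπn : π ≤ c.n := by omega
  obtain ⟨X, hX, hX1, hX2⟩ := exists_top (c.S π) c.t c.tinj.injOn hv
  obtain ⟨T, hT, hT1, hT2⟩ := exists_top (Ico π c.n) c.key c.kinj.injOn (m := c.K)
    (by simp; omega)
  have h1 := sum_le_sum (fun u hu => c.r1_T (u := u) X T hX1 hX2 hT hT2 hU hu)
  have h2 := sum_le_sum (fun x hx => c.r1_X (x := x) X T hX hX1 hX2 hT1 hT2 hU hx)
  have h3 : ∑ f ∈ c.J π, ((if c.p π f ≤ m then a + 2 - 2 * c.p π f else 0) +
      ((X.filter (fun x => f < x)).card : ℤ)) ≤ ∑ f ∈ c.J π, c.B f := by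
    refine sum_le_sum (fun f hf => ?_)
    have h4 := c.r1_F hπn hf X hX
    have h5 := c.p_pos π (c.J_L hπn hf)
    have h6 := card_filter_le X (fun x => f < x)
    have h7 := c.p_le_J' (π := π) (m := π) le_rfl (c.mem_J.1 hf).1
    have h8 := c.B_nonneg f
    split_ifs <;> omega
  have h4 := sum_card_swap T X (fun u x => c.alive u x)
  have h5 := sum_card_swap X (c.J π) (fun x f => f < x)
  have h6 := sum_above T c.key c.kinj.injOn
  have h7 := sum_above X c.t c.tinj.injOn
  have h8 := sum_card_swap T (Icc 1 v) (fun u l => c.p π u + l ≤ 2 * c.K + 1)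
  have hLS := c.card_LS hπn
  have h9 : ∑ l ∈ Icc 1 v, ((3 * c.K - c.n + (c.S π).card + 1 : ℤ) - l) ≤
      ∑ l ∈ Icc 1 v, ((T.filter (fun u => c.p π u + l ≤ 2 * c.K + 1)).card : ℤ) := by
    refine sum_le_sum (fun l hl => ?_)
    have e1 : T.card ≤ (T.filter (fun u => c.p π u + l ≤ 2 * c.K + 1)).card +
        ((c.L π).filter (fun u => 2 * c.K + 1 - l < c.p π u ∧ c.p π u ≤ (c.L π).card)).card := by
      apply card_le2; intro u hu
      have hu1 := mem_Ico.1 (hT hu)
      have := c.p_le π u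
      simp only [mem_filter, mem_L]
      by_cases e : c.p π u + l ≤ 2 * c.K + 1
      · left; exact ⟨hu, e⟩
      · right; exact ⟨⟨hu1.2, Or.inl hu1.1⟩, by
          have := c.p_pos π (c.mem_L.2 ⟨hu1.2, Or.inl hu1.1⟩ : u ∈ c.L π); omega, this⟩
    have e2 := c.card_p π (2 * c.K + 1 - l) (c.L π).card le_rfl
    have := mem_Icc.1 hl
    omega
  have h10 := sum_Icc_sub v (3 * c.K - c.n + (c.S π).card + 1 : ℤ)
  have hF : ((c.J π).filter (fun f => c.p π f ≤ m)).card = m := by
    have e1 := c.card_p π 0 m (hm.trans (card_le_card (fun f hf => c.J_L hπn hf)))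
    rw [Nat.sub_zero] at e1
    refine Eq.trans ?_ e1
    congr 1; ext f; simp only [mem_filter]
    constructor
    · rintro ⟨a1, a2⟩; exact ⟨c.J_L hπn a1, c.p_pos π (c.J_L hπn a1), a2⟩
    · rintro ⟨a1, -, a2⟩
      have e2 := (c.p_le_J le_rfl hπn a1).1 (a2.trans hm)
      refine ⟨c.mem_J.2 ⟨e2, ?_⟩, a2⟩
      rcases (c.mem_L.1 a1).2 with e3 | e3
      · omega
      · exact e3
  have h11 := sum_le_of_inj ((c.J π).filter (fun f => c.p π f ≤ m)) (fun f => (c.p π f : ℤ))
    (by
      intro u hu w hw h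
      have a1 := c.J_L hπn (mem_filter.1 hu).1
      have a2 := c.J_L hπn (mem_filter.1 hw).1
      simp only at h
      rcases lt_trichotomy u w with e | e | e
      · have := c.p_lt π a2 e; omega
      · exact e
      · have := c.p_lt π a1 e; omega) m (fun f hf => by exact_mod_cast (mem_filter.1 hf).2)
  have h12 : ∑ u ∈ T, (c.A u + c.B u) + ∑ x ∈ X, c.B x + ∑ f ∈ c.J π, c.B f ≤ c.SAB := by
    have e1 : ∑ x ∈ X, c.B x ≤ ∑ x ∈ X, (c.A x + c.B x) :=
      sum_le_sum (fun x _ => by have := c.A_nonneg x; omega)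
    have e2 : ∑ x ∈ c.J π, c.B x ≤ ∑ x ∈ c.J π, (c.A x + c.B x) :=
      sum_le_sum (fun x _ => by have := c.A_nonneg x; omega)
    have e3 : ∑ u ∈ T, (c.A u + c.B u) + ∑ x ∈ X, (c.A x + c.B x) +
        ∑ x ∈ c.J π, (c.A x + c.B x) ≤ c.SAB := by
      rw [← sum_union, ← sum_union]
      · apply sum_le_sum_of_subset_of_nonneg
        · intro y hy
          simp only [mem_union] at hy
          rcases hy with (h | h) | h
          · exact mem_range.2 (mem_Ico.1 (hT h)).2
          · have := c.mem_S.1 (hX h); exact mem_range.2 (by omega)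
          · have := c.mem_J.1 h; exact mem_range.2 (by omega)
        · intro x _ _; have := c.A_nonneg x; have := c.B_nonneg x; omega
      · rw [disjoint_left]; intro y h1 h2
        have := c.mem_J.1 h2
        rcases mem_union.1 h1 with h | h
        · have := mem_Ico.1 (hT h); omega
        · have := c.mem_S.1 (hX h); tauto
      · rw [disjoint_left]; intro y h1 h2
        have := mem_Ico.1 (hT h1); have := c.mem_S.1 (hX h2); omega
    linarith
  rw [sum_add_distrib, ← sum_filter, sum_sub_distrib, sum_const, ← mul_sum] at h3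
  rw [sum_add_distrib, sum_add_distrib (f := fun u => c.A u + c.B u), sum_sub_distrib,
    sum_const] at h1
  rw [sum_sub_distrib, sum_sub_distrib] at h2
  rw [hF] at h3 h11
  rw [hT1] at h1 h6
  rw [hX1] at h7
  simp only [nsmul_eq_mul] at h1 h3
  linarith

theorem reg1 (hn : 4 * c.K ≤ c.n) :
    ((5 * c.K + 2 - c.n : ℕ) : ℤ) ^ 2 - 7 ≤ 4 * (2 * c.SAB - c.K * (c.K + 1)) := by
  have hex : ∃ π, 2 * c.K ≤ 2 * (c.J π).card + (c.S π).card :=
    ⟨2 * c.K, by have := c.card_SJ (2 * c.K); omega⟩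
  have h1 := Nat.find_spec hex
  have h2 : Nat.find hex ≤ 2 * c.K := Nat.find_min' hex (by have := c.card_SJ (2 * c.K); omega)
  set π := Nat.find hex with hπ
  have h3 := c.card_SJ π
  have h4 : 2 * (c.J π).card + (c.S π).card ≤ 2 * c.K + 1 := by
    rcases Nat.eq_zero_or_pos π with h | h
    · omega
    · have h5 := Nat.find_min hex (m := π - 1) (by omega)
      have h6 := c.card_SJ (π - 1)
      have h7 : (c.J (π - 1)).card ≤ (c.J π).card := by
        apply card_le_card; intro y; simp only [mem_J]; rintro ⟨a, b⟩; exact ⟨by omega, b⟩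
      have h8 : (c.S (π - 1)).card ≤ (c.S π).card := by
        apply card_le_card; intro y; simp only [mem_S]; rintro ⟨a, b⟩; exact ⟨by omega, b⟩
      omega
  by_cases hb : (c.S π).card < c.K
  · have h5 := c.reg1_core π ((c.K + 1) / 2) 0 c.K (by omega) (by omega) (by omega) (by omega) (by omega)
      (by omega) (Or.inl rfl) (Or.inr rfl)
    have h6 : ((5 * c.K + 2 - c.n : ℕ) : ℤ) ≤ c.K + 2 := by omega
    have h7 : ((5 * c.K + 2 - c.n : ℕ) : ℤ) ^ 2 ≤ (c.K + 2) ^ 2 :=
      pow_le_pow_left₀ (by positivity) h6 2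
    obtain ⟨m, hm⟩ : ∃ m : ℤ, m = (((c.K + 1) / 2 : ℕ) : ℤ) := ⟨_, rfl⟩
    rw [← hm, Nat.cast_zero, zero_mul] at h5
    have h8 : (c.K : ℤ) + 1 = 2 * m ∨ (c.K : ℤ) = 2 * m := by omega
    rcases h8 with h | h
    · have e : (c.K : ℤ) = 2 * m - 1 := by omega
      rw [e] at h5 h7 ⊢; nlinarith [sq_nonneg (2 * m - 1)]
    · rw [h] at h5 h7 ⊢; nlinarith [sq_nonneg m]
  · have h5 := c.reg1_core π (c.J π).card ((3 * c.K + (c.S π).card + 1 - c.n) / 2)
      (2 * c.K - (c.S π).card) (by omega) (by omega) le_rfl le_rfl (by omega) (by omega) (Or.inr rfl)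
      (by omega)
    obtain ⟨U, hU⟩ : ∃ U : ℤ, U = ((c.J π).card : ℤ) := ⟨_, rfl⟩
    obtain ⟨s, hs⟩ : ∃ s : ℤ, s = ((c.S π).card : ℤ) := ⟨_, rfl⟩
    obtain ⟨v, hv⟩ : ∃ v : ℤ, v = (((3 * c.K + (c.S π).card + 1 - c.n) / 2 : ℕ) : ℤ) := ⟨_, rfl⟩
    obtain ⟨D, hD⟩ : ∃ D : ℤ, D = ((5 * c.K + 2 - c.n : ℕ) : ℤ) := ⟨_, rfl⟩
    rw [← hU, ← hs, ← hv] at h5
    rw [← hD]
    obtain ⟨a, ha⟩ : ∃ a : ℤ, a = 2 * c.K - s + 1 := ⟨_, rfl⟩
    obtain ⟨a', ha'⟩ : ∃ a' : ℤ, a' = 3 * c.K - c.n + s + 1 := ⟨_, rfl⟩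
    rw [← ha, ← ha'] at h5
    have e1 : a ^ 2 - 1 ≤ 4 * (U * (a - U)) := by
      have : a = 2 * U ∨ a = 2 * U + 1 := by omega
      rcases this with h | h <;> rw [h] <;> nlinarith
    have hD0 : 0 ≤ D := by omega
    by_cases e : 0 ≤ a'
    · have e2 : a' ^ 2 - 1 ≤ 4 * (v * (a' - v)) := by
        have : a' = 2 * v ∨ a' = 2 * v + 1 := by omega
        rcases this with h | h <;> rw [h] <;> nlinarith
      have e3 : D = a + a' := by omega
      rw [e3]; nlinarith [sq_nonneg (a - a')]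
    · have e2 : v = 0 := by omega
      have e3 : D ≤ a := by omega
      rw [e2] at h5
      nlinarith

end Cfg

end Pool.Agent.P.MP_5402c6_co
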