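import Pool.Agent.P.MP_5402c6_co.Model

/-! Data of the main certificate and basic counting facts. -/

namespace Pool.Agent.P.MP_5402c6_co

open Finset

structure Dat extends Cfg where
  π : ℕ
  V : Finset ℕ
  R : Finset ℕ
  Np : Finset ℕ
  Us : Finset ℕ
  T : Finset ℕ
  bb : ℕ
  φ : ℕ

namespace Cfg
variable (c : Cfg)

/-- long elements and everything beyond the cut -/
noncomputable def L (π : ℕ) : Finset ℕ := (range c.n).filter (fun v => π ≤ v ∨ c.lg v)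
noncomputable def p (π v : ℕ) : ℕ := ((c.L π).filter (fun u => u ≤ v)).card
noncomputable def S (π : ℕ) : Finset ℕ := (range π).filter (fun v => ¬ c.lg v)
noncomputable def J (π : ℕ) : Finset ℕ := (range π).filter (fun v => c.lg v)

lemma mem_L {π v : ℕ} : v ∈ c.L π ↔ v < c.n ∧ (π ≤ v ∨ c.lg v) := by simp [L]
lemma mem_S {π v : ℕ} : v ∈ c.S π ↔ v < π ∧ ¬ c.lg v := by simp [S]
lemma mem_J {π v : ℕ} : v ∈ c.J π ↔ v < π ∧ c.lg v := by simp [J]

lemma card_SJ (π : ℕ) : (c.S π).card + (c.J π).card = π := by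
  unfold S J
  rw [add_comm, card_filter_add_card_filter_not, card_range]

lemma card_LS {π : ℕ} (h : π ≤ c.n) : (c.L π).card + (c.S π).card = c.n := by
  have : c.S π = (range c.n).filter (fun v => ¬ (π ≤ v ∨ c.lg v)) := by
    ext v; simp only [mem_S, mem_filter, mem_range, not_or, not_le]
    constructor
    · rintro ⟨h1, h2⟩; exact ⟨by omega, h1, h2⟩
    · tauto
  rw [this]; unfold L
  rw [card_filter_add_card_filter_not, card_range]

lemma p_mono (π : ℕ) {u v : ℕ} (h : u ≤ v) : c.p π u ≤ c.p π v := by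
  unfold p; apply card_le_card; intro x; simp only [mem_filter]; rintro ⟨h1, h2⟩
  exact ⟨h1, h2.trans h⟩

lemma p_btw (π : ℕ) {w v : ℕ} (hv : v ∈ c.L π) (h : w < v) :
    ((c.L π).filter (fun u => w < u ∧ u < v)).card + c.p π w + 1 = c.p π v := by
  unfold p
  have e : (c.L π).filter (fun u => u ≤ v) = insert v
      (((c.L π).filter (fun u => w < u ∧ u < v)) ∪ ((c.L π).filter (fun u => u ≤ w))) := by
    ext u; simp only [mem_filter, mem_insert, mem_union]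
    constructor
    · rintro ⟨h1, h2⟩
      by_cases h3 : u = v
      · exact Or.inl h3
      · by_cases h4 : u ≤ w
        · exact Or.inr (Or.inr ⟨h1, h4⟩)
        · exact Or.inr (Or.inl ⟨h1, by omega, by omega⟩)
    · rintro (h1 | h1 | h1)
      · subst h1; exact ⟨hv, le_rfl⟩
      · exact ⟨h1.1, by omega⟩
      · exact ⟨h1.1, by omega⟩
  rw [e, card_insert_of_notMem, card_union_of_disjoint]
  · rw [disjoint_left]; intro u; simp only [mem_filter]; omega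
  · simp only [mem_filter, mem_union]; omega

lemma p_lt (π : ℕ) {u v : ℕ} (hv : v ∈ c.L π) (h : u < v) : c.p π u < c.p π v := by
  have := c.p_btw π hv h; omega

lemma lt_of_p_lt (π : ℕ) {u v : ℕ} (h : c.p π u < c.p π v) : u < v := by
  by_contra h1
  have := c.p_mono π (not_lt.1 h1); omega

lemma p_rk (π : ℕ) {v : ℕ} (hv : v ∈ c.L π) : c.p π v = rk (c.L π) (fun v => v) v + 1 := by
  unfold p rk
  have : (c.L π).filter (fun u => u ≤ v) = insert v ((c.L π).filter (fun u => u < v)) := by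
    ext u; simp only [mem_filter, mem_insert]
    constructor
    · rintro ⟨h1, h2⟩
      rcases h2.lt_or_eq with h | h
      · exact Or.inr ⟨h1, h⟩
      · exact Or.inl h
    · rintro (h | h)
      · subst h; exact ⟨hv, le_rfl⟩
      · exact ⟨h.1, h.2.le⟩
  rw [this, card_insert_of_notMem (by simp)]

lemma p_pos (π : ℕ) {v : ℕ} (hv : v ∈ c.L π) : 1 ≤ c.p π v := by rw [c.p_rk π hv]; omega

lemma p_le (π v : ℕ) : c.p π v ≤ (c.L π).card := card_filter_le _ _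

lemma card_p (π a b : ℕ) (hb : b ≤ (c.L π).card) :
    ((c.L π).filter (fun v => a < c.p π v ∧ c.p π v ≤ b)).card = b - a := by
  have h1 := card_rk_filter (c.L π) (fun v => v) (fun _ _ _ _ h => h)
    (fun i => a < i + 1 ∧ i + 1 ≤ b)
  have h2 : (range (c.L π).card).filter (fun i => a < i + 1 ∧ i + 1 ≤ b) = Ico a b := by
    ext i; simp; omega
  rw [h2, Nat.card_Ico] at h1
  rw [← h1]
  congr 1
  apply filter_congr
  intro v hv
  rw [c.p_rk π hv]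

lemma card_p_le (π a b : ℕ) :
    ((c.L π).filter (fun v => a < c.p π v ∧ c.p π v ≤ b)).card ≤ b - a := by
  rcases le_total b (c.L π).card with h | h
  · exact (c.card_p π a b h).le
  · have := c.card_p π a _ le_rfl
    have h2 : ((c.L π).filter (fun v => a < c.p π v ∧ c.p π v ≤ b)) =
        ((c.L π).filter (fun v => a < c.p π v ∧ c.p π v ≤ (c.L π).card)) := by
      apply filter_congr; intro v _; have := c.p_le π v; omega
    rw [h2]; omega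

/-- index versus an inner cut -/
lemma p_le_J {π m v : ℕ} (hm : m ≤ π) (hπ : π ≤ c.n) (hv : v ∈ c.L π) :
    c.p π v ≤ (c.J m).card ↔ v < m := by
  constructor
  · intro h
    by_contra h1
    have : (insert v (c.J m)).card ≤ c.p π v := by
      unfold p; apply card_le_card; intro u
      simp only [mem_insert, mem_filter, mem_J, mem_L]
      rintro (h2 | h2)
      · subst h2; exact ⟨c.mem_L.1 hv, le_rfl⟩
      · exact ⟨⟨by omega, Or.inr h2.2⟩, by omega⟩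
    rw [card_insert_of_notMem (by simp [mem_J]; omega)] at this
    omega
  · intro h
    unfold p; apply card_le_card; intro u
    simp only [mem_filter, mem_J, mem_L]
    rintro ⟨⟨h1, h2 | h2⟩, h3⟩
    · omega
    · exact ⟨by omega, h2⟩

lemma p_le_J' {π m v : ℕ} (hm : m ≤ π) (hv : v < m) : c.p π v ≤ (c.J m).card := by
  unfold p; apply card_le_card; intro u
  simp only [mem_filter, mem_J, mem_L]
  rintro ⟨⟨h1, h2 | h2⟩, h3⟩
  · omega
  · exact ⟨by omega, h2⟩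

/-- elements between two members of `L` that exceed the inner one lie in `L` -/
lemma btw_le_p {π w v : ℕ} (hw : w ∈ c.L π) (hv : v ∈ c.L π) (h : w < v) :
    c.btw w v + c.p π w + 1 ≤ c.p π v := by
  have h1 := c.p_btw π hv h
  have : c.btw w v ≤ ((c.L π).filter (fun u => w < u ∧ u < v)).card := by
    unfold btw; apply card_le_card; intro u
    simp only [mem_filter, mem_Ioo, mem_L]
    rintro ⟨h2, h3⟩
    have h4 := (c.mem_L.1 hv).1
    refine ⟨⟨by omega, ?_⟩, h2⟩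
    rcases (c.mem_L.1 hw).2 with h5 | h5
    · left; omega
    · right; exact c.lg_of_lt h5 h3
  omega

end Cfg

namespace Dat
variable (d : Dat)

noncomputable def LL : Finset ℕ := d.L d.π
noncomputable def pp (v : ℕ) : ℕ := d.p d.π v
noncomputable def SS : Finset ℕ := d.S d.π
noncomputable def Zs : Finset ℕ := d.S d.K
noncomputable def J0 : Finset ℕ := d.J d.K
noncomputable def U0 : ℕ := d.J0.card
noncomputable def N : Finset ℕ := d.SS.filter (fun v => d.K ≤ v)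
noncomputable def Jh : Finset ℕ := (d.J d.π).filter (fun v => d.K ≤ v)
noncomputable def bo : ℕ := d.N.card
noncomputable def Loc : Finset ℕ :=
  d.LL.filter (fun v => d.U0 < d.pp v ∧ d.pp v ≤ d.K ∧ d.K + d.U0 < d.pp v + d.bo)
noncomputable def NL : Finset ℕ :=
  d.LL.filter (fun v => d.U0 < d.pp v ∧ d.pp v ≤ d.K ∧ d.pp v + d.bo ≤ d.K + d.U0)
noncomputable def M : Finset ℕ := d.LL.filter (fun v => d.K < d.pp v ∧ d.pp v ≤ d.K + d.U0)
noncomputable def Bey : Finset ℕ := d.LL.filter (fun v => d.K + d.U0 < d.pp v)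
noncomputable def CC : Finset ℕ := d.LL.filter (fun v => d.pp v ≤ d.K + d.U0)
noncomputable def W : Finset ℕ := d.Loc \ d.V
noncomputable def Y : Finset ℕ := d.NL \ d.R
def Low (v : ℕ) : Prop := ∃ q ∈ d.R, d.key v < d.key q
noncomputable instance (v : ℕ) : Decidable (d.Low v) := Classical.dec _
noncomputable def P : Finset ℕ := d.W ∪ d.Y ∪ d.M
noncomputable def D : Finset ℕ := d.P.filter (fun v => ¬ d.lg v ∨ d.Low v)
noncomputable def H : Finset ℕ := d.P.filter (fun v => d.lg v ∧ ¬ d.Low v)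
noncomputable def pool : Finset ℕ :=
  d.Bey ∪ d.V ∪ (d.R \ d.Jh) ∪ d.D.filter (fun v => d.lg v)
def rho (v : ℕ) : ℕ := (d.T.filter (fun u => d.key u < d.key v)).card
noncomputable def Om : Finset ℕ := (d.R ∩ d.Jh).filter (fun v => 0 < d.rho v)
noncomputable def PB : Finset ℕ := d.W ∪ d.Y ∪ d.Om
noncomputable def Au : Finset ℕ := d.H ∪ (d.R ∩ d.Jh)
noncomputable def Sp : Finset ℕ := d.Zs ∪ d.Np
noncomputable def Q : Finset ℕ := d.W ∪ d.NL
noncomputable def cp (v : ℕ) : ℕ := (d.Q.filter (fun u => v ≤ u)).card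
def alive (u x : ℕ) : Prop := ¬ d.lg u ∨ d.t u < d.t x
noncomputable instance (u x : ℕ) : Decidable (d.alive u x) := Classical.dec _
def excl (v u : ℕ) : Prop :=
  d.K + 1 ≤ d.pp v + (d.SS.filter (fun x => x < v ∧ d.alive u x)).card
noncomputable instance (u x : ℕ) : Decidable (d.excl u x) := Classical.dec _
noncomputable def lx (x : ℕ) : ℕ := d.φ + (d.T.filter (fun u => d.alive u x)).card
noncomputable def outC (v : ℕ) : ℕ := (d.CC.filter (fun u => v < u ∧ d.key v < d.key u)).card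

structure Good : Prop where
  hKπ : d.K ≤ d.π
  hπn : d.π ≤ d.n
  hU : d.U0 + d.Jh.card + d.bo ≤ d.K
  hn : d.n + d.φ = 3 * d.K + d.bo + d.bb
  hbφ : d.bb = 0 ∨ d.φ = 0
  hV : d.V ⊆ d.Loc
  hV2 : ∀ v ∈ d.V, ∀ w ∈ d.Loc, w ∉ d.V → d.key v < d.key w
  hR : d.R ⊆ d.NL
  hR2 : ∀ v ∈ d.R, ∀ w ∈ d.NL, w ∉ d.R → d.key v < d.key w
  hj : d.V.card = 0 ∨ d.V.card + d.φ + d.U0 ≤ d.bo
  hr : d.R = ∅ ∨ d.φ = 0
  hforce : ∀ v ∈ d.NL, v ∉ d.R → d.lg v ∨ d.K + 1 ≤ d.pp v + d.bo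
  hJ0R : (∀ z ∈ d.J0, ¬ d.Low z) ∨ d.R.card + d.U0 ≤ d.bb + min d.U0 d.bo
  hNp : d.Np ⊆ d.N
  hNp1 : d.Np.card + d.V.card = d.bo
  hNp2 : ∀ x ∈ d.Np, ∀ y ∈ d.N, y ∉ d.Np → d.t y < d.t x
  hUs : d.Us ⊆ d.Sp
  hUs1 : d.Us.card + d.V.card = d.Sp.card
  hUs2 : ∀ x ∈ d.Us, ∀ y ∈ d.Sp, y ∉ d.Us → d.t y < d.t x
  hT : d.T ⊆ d.pool
  hT1 : d.T.card + d.φ = d.K
  hT2 : ∀ x ∈ d.T, ∀ y ∈ d.pool, y ∉ d.T → d.key y < d.key x

lemma mem_LL {v : ℕ} : v ∈ d.LL ↔ v < d.n ∧ (d.π ≤ v ∨ d.lg v) := d.mem_L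
lemma mem_SS {v : ℕ} : v ∈ d.SS ↔ v < d.π ∧ ¬ d.lg v := d.mem_S
lemma mem_Zs {v : ℕ} : v ∈ d.Zs ↔ v < d.K ∧ ¬ d.lg v := d.mem_S
lemma mem_J0 {v : ℕ} : v ∈ d.J0 ↔ v < d.K ∧ d.lg v := d.mem_J
lemma mem_N {v : ℕ} : v ∈ d.N ↔ d.K ≤ v ∧ v < d.π ∧ ¬ d.lg v := by
  simp only [N, mem_filter, mem_SS]; tauto
lemma mem_Jh {v : ℕ} : v ∈ d.Jh ↔ d.K ≤ v ∧ v < d.π ∧ d.lg v := by
  simp only [Jh, mem_filter, Cfg.mem_J]; tauto
lemma mem_Loc {v : ℕ} : v ∈ d.Loc ↔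
    v ∈ d.LL ∧ d.U0 < d.pp v ∧ d.pp v ≤ d.K ∧ d.K + d.U0 < d.pp v + d.bo := by simp [Loc]
lemma mem_NL {v : ℕ} : v ∈ d.NL ↔
    v ∈ d.LL ∧ d.U0 < d.pp v ∧ d.pp v ≤ d.K ∧ d.pp v + d.bo ≤ d.K + d.U0 := by simp [NL]
lemma mem_M {v : ℕ} : v ∈ d.M ↔ v ∈ d.LL ∧ d.K < d.pp v ∧ d.pp v ≤ d.K + d.U0 := by simp [M]
lemma mem_Bey {v : ℕ} : v ∈ d.Bey ↔ v ∈ d.LL ∧ d.K + d.U0 < d.pp v := by simp [Bey]
lemma mem_CC {v : ℕ} : v ∈ d.CC ↔ v ∈ d.LL ∧ d.pp v ≤ d.K + d.U0 := by simp [CC]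
lemma mem_W {v : ℕ} : v ∈ d.W ↔ v ∈ d.Loc ∧ v ∉ d.V := by simp [W]
lemma mem_Y {v : ℕ} : v ∈ d.Y ↔ v ∈ d.NL ∧ v ∉ d.R := by simp [Y]
lemma mem_P {v : ℕ} : v ∈ d.P ↔ v ∈ d.W ∨ v ∈ d.Y ∨ v ∈ d.M := by simp [P]
lemma mem_D {v : ℕ} : v ∈ d.D ↔ v ∈ d.P ∧ (¬ d.lg v ∨ d.Low v) := by simp [D]
lemma mem_H {v : ℕ} : v ∈ d.H ↔ v ∈ d.P ∧ d.lg v ∧ ¬ d.Low v := by simp [H]
lemma mem_pool {v : ℕ} : v ∈ d.pool ↔
    v ∈ d.Bey ∨ v ∈ d.V ∨ (v ∈ d.R ∧ v ∉ d.Jh) ∨ (v ∈ d.D ∧ d.lg v) := by simp [pool]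
lemma mem_Om {v : ℕ} : v ∈ d.Om ↔ v ∈ d.R ∧ v ∈ d.Jh ∧ 0 < d.rho v := by
  simp [Om, and_assoc]
lemma mem_PB {v : ℕ} : v ∈ d.PB ↔ v ∈ d.W ∨ v ∈ d.Y ∨ v ∈ d.Om := by simp [PB]
lemma mem_Au {v : ℕ} : v ∈ d.Au ↔ v ∈ d.H ∨ (v ∈ d.R ∧ v ∈ d.Jh) := by simp [Au]
lemma mem_Sp {v : ℕ} : v ∈ d.Sp ↔ v ∈ d.Zs ∨ v ∈ d.Np := by simp [Sp]
lemma mem_Q {v : ℕ} : v ∈ d.Q ↔ v ∈ d.W ∨ v ∈ d.NL := by simp [Q]

lemma pp_lt {u v : ℕ} (hv : v ∈ d.LL) (h : u < v) : d.pp u < d.pp v := d.p_lt d.π hv h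
lemma lt_pp {u v : ℕ} (h : d.pp u < d.pp v) : u < v := d.lt_of_p_lt d.π h
lemma pp_mono {u v : ℕ} (h : u ≤ v) : d.pp u ≤ d.pp v := d.p_mono d.π h
lemma pp_pos {v : ℕ} (hv : v ∈ d.LL) : 1 ≤ d.pp v := d.p_pos d.π hv

variable {d}

namespace Good
variable (g : d.Good)
include g

lemma cZ : d.Zs.card + d.U0 = d.K := d.card_SJ d.K

lemma cS : d.SS.card = d.Zs.card + d.bo := by
  have := g.hKπ
  unfold bo
  rw [← card_union_of_disjoint]
  · congr 1; ext v; simp only [mem_union, mem_SS, mem_Zs, mem_N]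
    constructor
    · intro h; by_cases h1 : v < d.K
      · exact Or.inl ⟨h1, h.2⟩
      · exact Or.inr ⟨by omega, h⟩
    · rintro (h | h)
      · exact ⟨by omega, h.2⟩
      · exact h.2
  · rw [disjoint_left]; intro v; simp only [mem_Zs, mem_N]; omega

lemma cJ : (d.J d.π).card = d.U0 + d.Jh.card := by
  have := g.hKπ
  unfold U0
  rw [← card_union_of_disjoint]
  · congr 1; ext v; simp only [mem_union, Cfg.mem_J, mem_J0, mem_Jh]
    constructor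
    · intro h; by_cases h1 : v < d.K
      · exact Or.inl ⟨h1, h.2⟩
      · exact Or.inr ⟨by omega, h⟩
    · rintro (h | h)
      · exact ⟨by omega, h.2⟩
      · exact h.2
  · rw [disjoint_left]; intro v; simp only [mem_J0, mem_Jh]; omega

lemma cL : d.LL.card + d.φ = 2 * d.K + d.U0 + d.bb := by
  have h1 : d.LL.card + d.SS.card = d.n := d.card_LS g.hπn
  have := g.cS; have := g.cZ; have := g.hn
  omega

lemma φ_le : d.φ ≤ d.K := by have := g.hT1; omega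

lemma card_pp (a b : ℕ) (hb : b ≤ d.K + d.U0) :
    (d.LL.filter (fun v => a < d.pp v ∧ d.pp v ≤ b)).card = b - a :=
  d.card_p d.π a b (by have := g.cL; have := g.φ_le; unfold LL at *; omega)

lemma J0_iff {v : ℕ} (hv : v ∈ d.LL) : d.pp v ≤ d.U0 ↔ v < d.K := d.p_le_J g.hKπ g.hπn hv

lemma Jπ_iff {v : ℕ} (hv : v ∈ d.LL) : d.pp v ≤ d.U0 + d.Jh.card ↔ v < d.π := by
  rw [← g.cJ]; exact d.p_le_J le_rfl g.hπn hv

lemma J0_L {v : ℕ} (hv : v ∈ d.J0) : v ∈ d.LL ∧ d.pp v ≤ d.U0 := by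
  have h := d.mem_J0.1 hv
  have h1 : v ∈ d.LL := d.mem_LL.2 ⟨by have := g.hKπ; have := g.hπn; omega, Or.inr h.2⟩
  exact ⟨h1, (g.J0_iff h1).2 h.1⟩

lemma J0_of {v : ℕ} (hv : v ∈ d.LL) (h : d.pp v ≤ d.U0) : v ∈ d.J0 := by
  have h1 := (g.J0_iff hv).1 h
  have := g.hKπ
  rcases (d.mem_LL.1 hv).2 with h2 | h2
  · omega
  · exact d.mem_J0.2 ⟨h1, h2⟩

lemma Jh_L {v : ℕ} (hv : v ∈ d.Jh) :
    v ∈ d.LL ∧ d.U0 < d.pp v ∧ d.pp v ≤ d.U0 + d.Jh.card := by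
  have h := d.mem_Jh.1 hv
  have h1 : v ∈ d.LL := d.mem_LL.2 ⟨by have := g.hπn; omega, Or.inr h.2.2⟩
  have h2 := g.J0_iff h1
  exact ⟨h1, by omega, (g.Jπ_iff h1).2 h.2.1⟩

lemma Jh_NL {v : ℕ} (hv : v ∈ d.Jh) : v ∈ d.NL := by
  have := g.Jh_L hv; have := g.hU
  exact d.mem_NL.2 ⟨by tauto, by omega, by omega, by omega⟩

lemma K_le {v : ℕ} (hv : v ∈ d.LL) (h : d.U0 < d.pp v) : d.K ≤ v := by
  have := g.J0_iff hv; omega

lemma π_le {v : ℕ} (hv : v ∈ d.LL) (h : d.U0 < d.pp v) (h2 : v ∉ d.Jh) : d.π ≤ v := by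
  have h3 := g.K_le hv h
  by_contra h4
  rcases (d.mem_LL.1 hv).2 with h5 | h5
  · omega
  · exact h2 (d.mem_Jh.2 ⟨h3, by omega, h5⟩)

lemma cM : d.M.card = d.U0 := by
  have := g.card_pp d.K (d.K + d.U0) le_rfl
  unfold M; omega

lemma cBey : d.Bey.card + d.φ = d.K + d.bb := by
  have h1 := d.card_p d.π (d.K + d.U0) d.LL.card le_rfl
  have h2 : d.Bey = (d.L d.π).filter (fun v => d.K + d.U0 < d.p d.π v ∧ d.p d.π v ≤ d.LL.card) := by
    apply filter_congr; intro v _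
    have := d.p_le d.π v
    unfold pp LL; omega
  have := g.cL; have := g.φ_le
  rw [h2]; omega

lemma cLoc : d.Loc.card = d.bo - d.U0 := by
  have h1 := g.card_pp (d.K + d.U0 - max d.bo d.U0) d.K (by omega)
  have := g.hU
  have h2 : d.Loc = d.LL.filter (fun v => d.K + d.U0 - max d.bo d.U0 < d.pp v ∧ d.pp v ≤ d.K) := by
    apply filter_congr; intro v _; omega
  rw [h2]; omega

lemma cNL : d.NL.card + max d.bo d.U0 = d.K := by
  have := g.hU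
  have h1 := g.card_pp d.U0 (d.K + d.U0 - max d.bo d.U0) (by omega)
  have h2 : d.NL = d.LL.filter (fun v => d.U0 < d.pp v ∧ d.pp v ≤ d.K + d.U0 - max d.bo d.U0) := by
    apply filter_congr; intro v _; omega
  rw [h2]; omega

lemma cW : d.W.card + d.V.card = d.bo - d.U0 := by
  unfold W; rw [card_sdiff_add_card_eq_card g.hV, g.cLoc]

lemma cY : d.Y.card + d.R.card = d.NL.card := by
  unfold Y; rw [card_sdiff_add_card_eq_card g.hR]

lemma cQ : d.Q.card + d.V.card + d.U0 = d.K := by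
  have h1 : d.Q.card = d.W.card + d.NL.card := by
    unfold Q; apply card_union_of_disjoint
    rw [disjoint_left]; intro v; simp only [mem_W, mem_Loc, mem_NL]; omega
  have := g.cW; have := g.cNL; omega

lemma cP : d.P.card = d.W.card + d.Y.card + d.U0 := by
  unfold P
  rw [card_union_of_disjoint, card_union_of_disjoint, g.cM]
  · rw [disjoint_left]; intro v; simp only [mem_W, mem_Loc, mem_NL, mem_Y]; omega
  · rw [disjoint_left]; intro v; simp only [mem_union, mem_W, mem_Loc, mem_NL, mem_Y, mem_M]; omega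

omit g in
lemma cDH : d.D.card + d.H.card = d.P.card := by
  unfold D H
  rw [← card_filter_add_card_filter_not (s := d.P) (fun v => ¬ d.lg v ∨ d.Low v)]
  congr 2
  apply filter_congr; intro v _; tauto

lemma cSp : d.Sp.card = d.Zs.card + d.Np.card := by
  unfold Sp; apply card_union_of_disjoint
  rw [disjoint_left]; intro v h1 h2
  have := d.mem_N.1 (g.hNp h2); have := d.mem_Zs.1 h1; omega

lemma Sp_S {x : ℕ} (hx : x ∈ d.Sp) : x < d.π ∧ ¬ d.lg x := by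
  rcases d.mem_Sp.1 hx with h | h
  · have := d.mem_Zs.1 h; have := g.hKπ; exact ⟨by omega, by tauto⟩
  · exact (d.mem_N.1 (g.hNp h)).2

lemma P_L {v : ℕ} (hv : v ∈ d.P) :
    v ∈ d.LL ∧ d.U0 < d.pp v ∧ d.pp v ≤ d.K + d.U0 ∧ v ∉ d.V ∧ v ∉ d.R := by
  have := g.hU
  have hV : v ∈ d.V → v ∈ d.Loc := fun h => g.hV h
  have hR : v ∈ d.R → v ∈ d.NL := fun h => g.hR h
  simp only [mem_P, mem_W, mem_Y, mem_Loc, mem_NL, mem_M] at hv hV hR
  rcases hv with h | h | h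
  · exact ⟨h.1.1, by omega, by omega, h.2, fun h1 => by have := hR h1; omega⟩
  · exact ⟨h.1.1, by omega, by omega, fun h1 => by have := hV h1; omega, h.2⟩
  · exact ⟨h.1, by omega, by omega, fun h1 => by have := hV h1; omega,
      fun h1 => by have := hR h1; omega⟩

omit g in
/-- classification of the middle block -/
lemma mid_cases {v : ℕ} (hv : v ∈ d.LL) (h1 : d.U0 < d.pp v) (h2 : d.pp v ≤ d.K + d.U0) :
    v ∈ d.P ∨ v ∈ d.V ∨ v ∈ d.R := by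
  simp only [mem_P, mem_W, mem_Y, mem_Loc, mem_NL, mem_M]
  by_cases a : v ∈ d.V
  · tauto
  by_cases b : v ∈ d.R
  · tauto
  left
  by_cases e : d.K < d.pp v
  · right; right; exact ⟨hv, e, h2⟩
  by_cases f : d.pp v + d.bo ≤ d.K + d.U0
  · right; left; exact ⟨⟨hv, h1, by omega, f⟩, b⟩
  · left; exact ⟨⟨hv, h1, by omega, by omega⟩, a⟩

lemma Jh_Au {v : ℕ} (hv : v ∈ d.Jh) : v ∈ d.Au := by
  have h1 := g.Jh_NL hv
  by_cases h : v ∈ d.R
  · exact d.mem_Au.2 (Or.inr ⟨h, hv⟩)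
  · refine d.mem_Au.2 (Or.inl (d.mem_H.2 ⟨d.mem_P.2 (Or.inr (Or.inl (d.mem_Y.2 ⟨h1, h⟩))),
      (d.mem_Jh.1 hv).2.2, ?_⟩))
    rintro ⟨q, hq, hk⟩
    have := g.hR2 q hq v h1 h; omega

lemma Au_L {v : ℕ} (hv : v ∈ d.Au) :
    v ∈ d.LL ∧ d.U0 < d.pp v ∧ d.pp v ≤ d.K + d.U0 ∧ d.lg v ∧ v ∉ d.pool := by
  rcases d.mem_Au.1 hv with h | h
  · have h1 := d.mem_H.1 h
    have h2 := g.P_L h1.1
    refine ⟨h2.1, h2.2.1, h2.2.2.1, h1.2.1, ?_⟩
    simp only [mem_pool, mem_Bey, mem_D]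
    rintro (h3 | h3 | h3 | h3)
    · omega
    · tauto
    · tauto
    · tauto
  · have h1 := g.Jh_L h.2
    have h2 := g.hU
    refine ⟨h1.1, h1.2.1, by omega, (d.mem_Jh.1 h.2).2.2, ?_⟩
    simp only [mem_pool, mem_Bey, mem_D]
    rintro (h3 | h3 | h3 | h3)
    · omega
    · have := d.mem_Loc.1 (g.hV h3); omega
    · tauto
    · exact (g.P_L h3.1.1).2.2.2.2 h.1

lemma pool_L {v : ℕ} (hv : v ∈ d.pool) : v ∈ d.LL ∧ d.U0 < d.pp v ∧ d.π ≤ v ∧ v ∉ d.Au := by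
  have h0 : v ∉ d.Au := fun h => (g.Au_L h).2.2.2.2 hv
  have h1 : v ∈ d.LL ∧ d.U0 < d.pp v := by
    rcases d.mem_pool.1 hv with h | h | h | h
    · have := d.mem_Bey.1 h; exact ⟨this.1, by omega⟩
    · have := d.mem_Loc.1 (g.hV h); tauto
    · have := d.mem_NL.1 (g.hR h.1); tauto
    · have := g.P_L (d.mem_D.1 h.1).1; tauto
  exact ⟨h1.1, h1.2, g.π_le h1.1 h1.2 (fun h => h0 (g.Jh_Au h)), h0⟩

omit g in
/-- long elements outside `J0` are in `Au` or in the pool -/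
lemma long_cases {v : ℕ} (hv : v ∈ d.LL) (h1 : d.U0 < d.pp v) (h2 : d.lg v) :
    v ∈ d.Au ∨ v ∈ d.pool := by
  by_cases h3 : d.pp v ≤ d.K + d.U0
  · rcases mid_cases hv h1 h3 with h | h | h
    · by_cases h4 : d.Low v
      · right; exact d.mem_pool.2 (Or.inr (Or.inr (Or.inr ⟨d.mem_D.2 ⟨h, Or.inr h4⟩, h2⟩)))
      · left; exact d.mem_Au.2 (Or.inl (d.mem_H.2 ⟨h, h2, h4⟩))
    · right; exact d.mem_pool.2 (Or.inr (Or.inl h))
    · by_cases h4 : v ∈ d.Jh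
      · left; exact d.mem_Au.2 (Or.inr ⟨h, h4⟩)
      · right; exact d.mem_pool.2 (Or.inr (Or.inr (Or.inl ⟨h, h4⟩)))
  · right; exact d.mem_pool.2 (Or.inl (d.mem_Bey.2 ⟨hv, by omega⟩))

lemma H_above_D {h e : ℕ} (hh : h ∈ d.H) (he : e ∈ d.D) : d.key e < d.key h := by
  have h1 := d.mem_H.1 hh
  rcases (d.mem_D.1 he).2 with h2 | ⟨q, hq, h2⟩
  · exact d.h1 _ _ h2 h1.2.1
  · have h3 : ¬ d.key h < d.key q := fun h4 => h1.2.2 ⟨q, hq, h4⟩
    omega

lemma cAuD : d.Au.card + d.D.card ≤ d.K := by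
  have h1 := g.card_pp d.U0 (d.K + d.U0) le_rfl
  have : d.Au.card + d.D.card ≤
      (d.LL.filter (fun v => d.U0 < d.pp v ∧ d.pp v ≤ d.K + d.U0)).card := by
    apply le_card2
    · intro x hx; have := g.Au_L hx; simp only [mem_filter]; tauto
    · intro x hx; have := g.P_L (d.mem_D.1 hx).1; simp only [mem_filter]; tauto
    · intro x hx hx2
      have h2 := d.mem_D.1 hx2
      rcases d.mem_Au.1 hx with h | h
      · have := d.mem_H.1 h; tauto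
      · exact (g.P_L h2.1).2.2.2.2 h.1
  omega

lemma not_blocked_mid {w v : ℕ} (hw : w ∈ d.LL) (hw1 : d.U0 < d.pp w) (hv : v ∈ d.LL)
    (hv1 : d.pp v ≤ d.K + d.U0) : ¬ d.blocked w v := by
  intro h
  have := d.btw_le_p hw hv h.1
  have := h.2.2
  unfold pp at *; omega

end Good

end Dat

end Pool.Agent.P.MP_5402c6_co
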