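import Pool.Agent.P.MP_5402c6_co.Conv

/-! The upper bound in the combinatorial model. -/

namespace Pool.Agent.P.MP_5402c6_co

open Finset

/-- the optimal extra defect -/
def dv (K n : ℕ) : ℕ :=
  if n < 4 * K then K * (4 * K - n + 1) + (3 * n - (11 * K + 2)) ^ 2 / 8
  else (5 * K + 2 - n) ^ 2 / 8

lemma floor8 (D : ℕ) (S K a : ℤ) (h : (D : ℤ) ^ 2 - 7 ≤ 4 * (2 * S - K * (K + 1) - 2 * a)) :
    K * (K + 1) + 2 * (a + ((D ^ 2 / 8 : ℕ) : ℤ)) ≤ 2 * S := by
  obtain ⟨m, hm⟩ := Int.even_mul_succ_self K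
  rw [hm] at h ⊢
  have h1 : ((D ^ 2 : ℕ) : ℤ) = (D : ℤ) ^ 2 := by push_cast; ring
  rw [← h1] at h
  generalize D ^ 2 = q at *
  omega

lemma half_sq (δ j : ℤ) (h : (δ ≤ 1 ∧ j = 0) ∨ δ = 2 * j ∨ δ = 2 * j + 1) :
    (max δ 0) ^ 2 - 1 ≤ 4 * (j * (δ - j)) := by
  rcases le_total δ 0 with e | e
  · rw [max_eq_right e]
    rcases h with h | h | h
    · simp [h.2]
    · rw [h]; nlinarith [sq_nonneg j]
    · rw [h]; nlinarith [sq_nonneg (2 * j + 1)]
  · rw [max_eq_left e]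
    rcases h with h | h | h
    · rw [h.2]; nlinarith [h.1]
    · rw [h]; nlinarith
    · rw [h]; nlinarith

lemma near_sq (x y : ℤ) (h1 : x - y ≤ 1) (h2 : y - x ≤ 1) : (x + y) ^ 2 - 1 ≤ 4 * (x * y) := by
  nlinarith

lemma comb_sq (D p q g h : ℤ) (h0 : 0 ≤ D) (h1 : D ≤ p + q) (h2 : p ^ 2 - 1 ≤ 4 * g)
    (h3 : q ^ 2 - 1 ≤ 4 * h) : D ^ 2 - 7 ≤ 8 * (g + h) := by
  nlinarith [sq_nonneg (p - q)]

lemma g1_a (x y r1 r2 : ℤ) (h : r1 + r2 = x + y - 1) : x * y ≤ r1 * y + r2 * x - r1 * r2 := by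
  have e : r2 = x + y - 1 - r1 := by omega
  rw [e]
  rcases le_total (x - r1) 0 with a | a
  · nlinarith
  · rcases a.lt_or_eq with b | b
    · nlinarith
    · nlinarith

lemma g1_b (x y r1 r2 : ℤ) (h : r1 + r2 ≤ x + y) (h2 : y ≤ r2) :
    x * y ≤ r1 * y + r2 * x - r1 * r2 := by
  nlinarith

lemma g1_c (D x y r1 r2 : ℤ) (h0 : 0 ≤ D) (h1 : 0 ≤ r1) (h2 : 0 ≤ r2) (hx : D + 1 ≤ 2 * x)
    (hy : D + 1 ≤ 2 * y) (h3 : D - 1 ≤ 2 * (r1 + r2)) (h4 : 2 * (r1 + r2) ≤ D) :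
    D ^ 2 - 7 ≤ 8 * (r1 * y + r2 * x - r1 * r2) := by
  have a1 : r1 * (D + 1) ≤ r1 * (2 * y) := mul_le_mul_of_nonneg_left hy h1
  have a2 : r2 * (D + 1) ≤ r2 * (2 * x) := mul_le_mul_of_nonneg_left hx h2
  have a3 : (D - 1) * (D + 1) ≤ (2 * (r1 + r2)) * (D + 1) :=
    mul_le_mul_of_nonneg_right h3 (by omega)
  have a4 : (2 * (r1 + r2)) ^ 2 ≤ D ^ 2 := pow_le_pow_left₀ (by omega) h4 2
  nlinarith [sq_nonneg (r1 - r2)]

namespace Cfg
variable (c : Cfg)

theorem upper_lin (hl : ∀ v, c.n ≤ v → c.lg v) (e : ℕ) (hn : c.n + e = 4 * c.K)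
    (he : e < c.K) : (c.K : ℤ) * (c.K + 1) + 2 * (c.K * (e + 1)) ≤ 2 * c.SAB := by
  obtain ⟨π, h1, h2, h3, h4⟩ := c.walk e
  have h5 := c.Uh_bo h1
  by_cases hb : c.bo π ≤ c.K - e
  · rcases c.certA π 0 0 h1 (by omega) h2 (by omega) (Or.inl rfl) (by omega) (Or.inl rfl) with
      ⟨r1, r2, a1, -, a3⟩ | ⟨a1, r2, -, a3⟩
    · have e1 : r1 = 0 := by omega
      have e2 : r2 = 0 := by omega
      have e3 : (c.n : ℤ) = 4 * c.K - e := by omega
      rw [e1, e2, e3] at a3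
      unfold val at a3; push_cast at a3; linarith
    · have e3 : (c.n : ℤ) = 4 * c.K - e := by omega
      rw [e3] at a3
      unfold val at a3; push_cast at a3
      have : (0 : ℤ) ≤ r2 * (c.U0 + c.Uh π - e - 1) := mul_nonneg (by omega) (by omega)
      linarith
  · have h6 := c.caseB hl π (c.K - e) (by omega) h1 (by omega) (by omega) (by omega)
    have e1 : ((c.K - e : ℕ) : ℤ) = c.K - e := by omega
    rw [e1] at h6; linarith

theorem upper_quad (e D : ℕ) (hn : c.n + e = 4 * c.K) (hD : c.K = 3 * e + 2 + D) (hD3 : 3 ≤ D) :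
    (D : ℤ) ^ 2 - 7 ≤ 4 * (2 * c.SAB - c.K * (c.K + 1) - 2 * (c.K * (e + 1))) := by
  have hU := c.U0_le
  have e3 : (c.n : ℤ) = 4 * c.K - e := by omega
  by_cases hd : c.K + 2 ≤ 2 * c.U0
  · have h1 := c.certD (by omega)
    obtain ⟨s, hs⟩ : ∃ s : ℕ, D = s + 3 := ⟨D - 3, by omega⟩
    have a1 : (0 : ℤ) ≤ (2 * c.U0 - (c.K + 2)) * (4 * c.K + 2 - 2 * c.U0 - (c.K + 2)) :=
      mul_nonneg (by omega) (by omega)
    have a2 : (c.K : ℤ) = 3 * e + 5 + s := by omega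
    have a3 : (D : ℤ) = s + 3 := by omega
    rw [a2] at h1 a1 ⊢
    rw [a3]
    nlinarith [mul_nonneg (Int.natCast_nonneg e) (Int.natCast_nonneg s),
      mul_nonneg (Int.natCast_nonneg e) (Int.natCast_nonneg e),
      mul_nonneg (Int.natCast_nonneg s) (Int.natCast_nonneg s),
      Int.natCast_nonneg e, Int.natCast_nonneg s]
  obtain ⟨π, h1, h2, h3, h4⟩ := c.walk e
  have h5 := c.Uh_bo h1
  obtain ⟨j, hj⟩ : ∃ j : ℕ, j = (c.bo π - (c.U0 + e + 1)) / 2 := ⟨_, rfl⟩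
  have g2 := half_sq (c.bo π - c.U0 - e - 1) j (by omega)
  by_cases hb : c.bo π ≤ c.K - e
  · obtain ⟨x, hx⟩ : ∃ x : ℤ, x = c.U0 + c.Uh π - e - 1 := ⟨_, rfl⟩
    obtain ⟨y, hy⟩ : ∃ y : ℤ, y = c.K - e - c.bo π - c.Uh π := ⟨_, rfl⟩
    have hv : ∀ r1 r2 : ℤ, val c.K c.n c.U0 (c.bo π) (c.Uh π) 0 j r1 r2 =
        c.K * (c.K + 1) + 2 * (c.K * (e + 1)) + 2 * (j * (c.bo π - c.U0 - e - 1 - j) +
        (r1 * y + r2 * x - r1 * r2)) := by
      intro r1 r2; rw [hx, hy, e3]; unfold val; ring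
    by_cases hb2 : c.U0 ≤ c.bo π
    · have key : ∀ g : ℤ, (max (x + y) 0) ^ 2 - 1 ≤ 4 * g →
          c.K * (c.K + 1) + 2 * (c.K * (e + 1)) + 2 * (j * (c.bo π - c.U0 - e - 1 - j) + g) ≤
          2 * c.SAB →
          (D : ℤ) ^ 2 - 7 ≤ 4 * (2 * c.SAB - c.K * (c.K + 1) - 2 * (c.K * (e + 1))) := by
        intro g a1 a2
        have := comb_sq D _ _ _ _ (by omega) (by omega) g2 a1
        linarith
      rcases c.certA π j (min (c.K + c.U0 - (2 * e + 2 + c.bo π)) (c.K - e - c.bo π)) h1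
        (by omega) h2 (by omega) (by omega) (by omega) (by omega) with
        ⟨r1, r2, a1, a2, a3⟩ | ⟨a1, r2, a2, a3⟩
      · rw [hv] at a3
        refine key _ ?_ a3
        by_cases f : x + y ≤ 1
        · have e1 : r1 = 0 := by omega
          have e2 : r2 = 0 := by omega
          have := half_sq (x + y) 0 (by omega)
          rw [e1, e2]; simpa using this
        · rw [max_eq_left (by omega)]
          have b1 := near_sq x y (by omega) (by omega)
          by_cases f2 : (r1 : ℤ) + r2 = x + y - 1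
          · have := g1_a x y r1 r2 f2; linarith
          · have := g1_b x y r1 r2 (by omega) (by omega); linarith
      · rw [hv] at a3
        refine key _ ?_ a3
        have b0 : 0 ≤ x := by omega
        by_cases f : x + y ≤ 1
        · have := half_sq (x + y) 0 (by omega)
          have b2 : 0 ≤ (r2 : ℤ) * x := mul_nonneg (by omega) b0
          linarith
        · rw [max_eq_left (by omega)]
          have b1 := near_sq x y (by omega) (by omega)
          have b2 : y * x ≤ (r2 : ℤ) * x := mul_le_mul_of_nonneg_right (by omega) b0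
          linarith
    · have e1 : j = 0 := by omega
      rcases c.certA π j (D / 2) h1 (by omega) h2 (by omega) (by omega) (by omega)
        (by omega) with ⟨r1, r2, a1, a2, a3⟩ | ⟨a1, r2, a2, a3⟩
      · rw [hv, e1] at a3
        have := g1_c D x y r1 r2 (by omega) (by omega) (by omega) (by omega) (by omega)
          (by omega) (by omega)
        push_cast at a3; linarith
      · rw [hv, e1] at a3
        have b1 : ((D : ℤ) + 1) * (D + 1) ≤ (2 * r2) * (2 * x) :=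
          mul_le_mul (by omega) (by omega) (by omega) (by omega)
        push_cast at a3; nlinarith
  · obtain ⟨φ, hφ⟩ : ∃ φ : ℕ, φ = c.bo π - (c.K - e) := ⟨_, rfl⟩
    have a3 := c.certC π j φ h1 (by omega) (by omega) (by omega) (by omega) (by omega)
    rw [e3] at a3
    unfold val at a3
    have b1 : (D : ℤ) + 2 * φ + 1 ≤ c.bo π - c.U0 - e - 1 := by omega
    rw [max_eq_left (by omega)] at g2
    have b2 : ((D : ℤ) + 2 * φ + 1) ^ 2 ≤ (c.bo π - c.U0 - e - 1) ^ 2 :=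
      pow_le_pow_left₀ (by omega) b1 2
    nlinarith [mul_nonneg (Int.natCast_nonneg D) (Int.natCast_nonneg φ),
      mul_nonneg (Int.natCast_nonneg φ) (Int.natCast_nonneg φ), Int.natCast_nonneg φ,
      mul_nonneg (Int.natCast_nonneg D) (Int.natCast_nonneg D), Int.natCast_nonneg D]

theorem upper (hl : ∀ v, c.n ≤ v → c.lg v) (hn : 3 * c.K < c.n) :
    (c.K : ℤ) * (c.K + 1) + 2 * dv c.K c.n ≤ 2 * c.SAB := by
  unfold dv
  split_ifs with h
  · obtain ⟨e, he⟩ : ∃ e, e = 4 * c.K - c.n := ⟨_, rfl⟩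
    rw [← he]
    push_cast [Nat.cast_add, Nat.cast_mul]
    by_cases hD : 3 ≤ 3 * c.n - (11 * c.K + 2)
    · have := floor8 _ _ _ _ (c.upper_quad e (3 * c.n - (11 * c.K + 2)) (by omega) (by omega) hD)
      exact_mod_cast this
    · have h1 := c.upper_lin hl e (by omega) (by omega)
      have h2 := floor8 (3 * c.n - (11 * c.K + 2)) c.SAB c.K (c.K * (e + 1)) (by
        have : ((3 * c.n - (11 * c.K + 2) : ℕ) : ℤ) ^ 2 ≤ 2 ^ 2 :=
          pow_le_pow_left₀ (by omega) (by omega) 2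
        linarith)
      exact_mod_cast h2
  · have := floor8 (5 * c.K + 2 - c.n) c.SAB c.K 0 (by
      have := c.reg1 (by omega); linarith)
    simpa using this

end Cfg

end Pool.Agent.P.MP_5402c6_co
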